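import Pool.Agent.H542.NS.Stm
import Pool.Agent.H233.Par.Fib

/-!
# Tuples near squares over `F_q[X]`, `q` even (helper542), task FIBI

Adapted from `Pool/Agent/H233/Par/FibB.lean` and `Fib.lean` (helper233) by helper213.
-/

set_option autoImplicit false

namespace Pool.Agent.H542.NS

open Polynomial
open scoped Classical
open Pool.Agent.H985.Chow (MD)
open Pool.Agent.H985.KP (PA mobg)
open Pool.Agent.H985.Par
open Pool.Agent.H985.Chow.Asm
open Pool.Agent.H604.FC.Asm4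
open Pool.Agent.H233.Par

namespace FIBI

/-- the window bound with a constant -/
def W5I (k r : ℕ) (M : ℝ) : Prop := 1 ≤ M ∧
  ∀ (K : Type) [Field K] [Fintype K] [CharP K 2] (d L D T : ℕ) (c : Fin r → K) (a E : K[X])
    (e h' h'' : Fin r → K[X]) (s g : Fin k → K[X]) (cl : Fin k → Fin r) (j₀ : Fin r)
    (χ : AddChar K[X] ℝ),
    (∀ j, c j ≠ 0) → E ≠ 0 → 1 ≤ L →
    (∀ j, (e j).Monic ∧ (h' j).Monic ∧ (h'' j).Monic ∧ IsCoprime (e j) (h' j * h'' j) ∧
      Squarefree (h' j * h'' j) ∧ IsCoprime E (h' j * h'' j) ∧ e j ^ 5 ∣ E ∧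
      (h' j).natDegree + D ≤ L ∧ (h'' j).natDegree + D ≤ L ∧
      (e j * (h' j * h'' j)).natDegree < d ∧
      E.natDegree + (L - 1) ≤ (e j * (h' j * h'' j)).natDegree) →
    (∀ i j, i ≠ j → IsCoprime (h' i * h'' i) (h' j * h'' j)) → (∃ i, cl i = j₀) →
    (∀ i, (g i).Monic ∧ g i ∣ e (cl i)) →
    (∀ i j, i ≠ j → cl i = cl j → IsCoprime (s i - s j) (h'' (cl i))) →
    (∀ i, (a + s i).Monic ∧ (a + s i).natDegree = d) →
    L ≤ 2 * (h'' j₀).natDegree → (6 * r + 3) * T ≤ D →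
    |∑ᶠ u ∈ {u : K[X] | u.degree < (L : WithBot ℕ)}, χ u * ∏ i,
        (mobg (g i) ((a + s i + E * u) ^ 2 +
          X * (C (c (cl i)) * (e (cl i) * (h' (cl i) * h'' (cl i)))) ^ 2) : ℝ)| ^
            (2 ^ (6 * r + 1)) ≤
      M ^ (∑ j, (PA (h' j * h'' j)).ncard) * (Fintype.card K : ℝ) ^ (L * 2 ^ (6 * r + 1)) /
        (Fintype.card K : ℝ) ^ T

theorem W5I_of (h : S_win5I) (k r : ℕ) : ∃ M, W5I k r M := h k r

section shift

variable {K : Type} [Field K] [Fintype K] [CharP K 2]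

/-- the first coordinates -/
lemma shift_monic {n : ℕ} {D a b s t : K[X]} (hCn : Cn n D) (hm : (a ^ 2 + X * b ^ 2).Monic)
    (hn : (a ^ 2 + X * b ^ 2).natDegree = n) (h : (s ^ 2 + X * t ^ 2).natDegree < n) :
    (a + (D + s)).Monic ∧ (a + (D + s)).natDegree = (X ^ (n / 2) + D).natDegree := by
  obtain ⟨⟨m, hmn⟩, hA, hAd⟩ := hCn
  have h2 : (n + 1) / 2 = n / 2 := by omega
  obtain ⟨v, hv, v', -, he⟩ := mem_G n (G a b) ⟨hm, hn⟩
  have ha : ta K n + v = a := (G_inj he).1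
  have hs : s ∈ degreeLT K ((n + 1) / 2) := (mem_of_G h).1
  have hta : ta K n = X ^ (n / 2) := by
    rw [ta, if_pos (by omega)]
  have hvs : v + s ∈ degreeLT K ((n + 1) / 2) := add_mem hv hs
  rw [h2, mem_degreeLT] at hvs
  have e : a + (D + s) = (X ^ (n / 2) + D) + (v + s) := by
    rw [← ha, hta]
    ring
  have hlt : (v + s).degree < (X ^ (n / 2) + D).degree := by
    refine lt_of_lt_of_le hvs ?_
    rw [degree_eq_natDegree hA.ne_zero]
    exact_mod_cast hAd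
  rw [e]
  exact ⟨hA.add_of_left hlt, natDegree_add_eq_left_of_degree_lt hlt⟩

end shift

section main

variable {K : Type} [Field K] [Fintype K] [CharP K 2]

lemma local_boundI {k r : ℕ} {Mw : ℝ} (hM : W5I k r Mw) (s : Fin k → K[X]) (τ : Fin r → K[X])
    (cl : Fin k → Fin r) (hcl : Function.Surjective cl) (hr : 0 < r)
    (hτ : Function.Injective τ) (hs : ∀ i i', i ≠ i' → cl i = cl i' → s i ≠ s i')
    (δ κ κ₁ : ℝ) (hδ : 0 < δ) (hκ : 0 < κ) (hκ22 : κ ≤ 1 / 22) (hκδ : κ ≤ δ / 44)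
    (hκ₁ : 0 ≤ κ₁) (hκ₁δ : κ₁ ≤ δ) (n D₀ : ℕ) (hn : 1 ≤ n) (hD₀ : (1 / 2 - κ / 8) * n ≤ D₀)
    (D : K[X]) (hCn : Cn n D) (hst : ∀ i, (s i ^ 2 + X * τ (cl i) ^ 2).natDegree < n)
    (R : Set K[X]) (b : K[X]) (hb : b ∈ Fb K n)
    (hgood : ∀ l, gdP (GoodV (R ∪ {P | P ∣ SS s (fun _ => 1) τ 1}) δ κ₁) D₀ (b + τ l)) :
    ∃ E : K[X], E.Monic ∧ (E.natDegree : ℝ) ≤ r * (5 * (κ₁ * (n / 2))) ∧
      (∀ P ∈ R, P.Monic → Irreducible P → (∃ i, P ∣ b + τ (cl i)) → P ∣ E) ∧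
      ∀ (M : K[X]) (g : Fin k → K[X]) (L : ℕ) (a : K[X]) (χ : AddChar K[X] ℝ),
        M ≠ 0 → E ∣ M → (M.natDegree : ℝ) ≤ 4 * κ * n →
        (∀ P : K[X], P.Monic → Irreducible P → P ∣ M → P ∣ E ∨ ∀ i, ¬ P ∣ b + τ (cl i)) →
        (∀ i, (g i).Monic ∧ ∀ P : K[X], P.Monic → Irreducible P → P ∣ g i → P ∈ R) →
        (a ^ 2 + X * b ^ 2).Monic → (a ^ 2 + X * b ^ 2).natDegree = n →
        (1 - 3 * κ) * n ≤ 2 * ((M.natDegree : ℝ) + L) →
        2 * ((M.natDegree : ℝ) + L) ≤ (1 - κ) * n →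
        ∃ H : Fin r → K[X], (∀ l, H l ≠ 0 ∧ (H l).natDegree ≤ n) ∧
        |∑ᶠ u ∈ {u : K[X] | u.degree < (L : WithBot ℕ)}, χ u * ∏ i,
          (mobg (g i) ((a + (D + s i) + M * u) ^ 2 + X * (b + τ (cl i)) ^ 2) : ℝ)| ^
            (2 ^ (6 * r + 1)) ≤
          Mw ^ (∑ l, (PA (H l)).ncard) * (Fintype.card K : ℝ) ^ (L * 2 ^ (6 * r + 1)) /
            (Fintype.card K : ℝ) ^ (⌊δ * n / 4⌋₊ / (6 * r + 3)) := by
  obtain ⟨hMw1, hW⟩ := hM
  choose c b₁ hc hbb hb1 hDd hg using hgood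
  choose e h₁ h₂ hbe he hh₁ hh₂ heh hsq hRh hκe hδ1 hδ2 using hg
  have hτm : ∀ l, τ l ∈ degreeLT K (n / 2) := by
    intro l
    obtain ⟨i, rfl⟩ := hcl l
    exact (mem_of_G (hst i)).2
  have hdn : ∀ l, 2 * (b₁ l).natDegree + 1 ≤ n := fun l =>
    deg_le_of_Fb (Fb_add n hb (hτm l)) (hc l) (hbb l) (hb1 l)
  have hB : ∀ l, C (c l) * (e l * (h₁ l * h₂ l)) = b + τ l := by
    intro l
    rw [hbb l, ← hbe l]
  have hh12 : ∀ l, (h₁ l * h₂ l).Monic := fun l => (hh₁ l).mul (hh₂ l)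
  have hdeh : ∀ l, (e l * (h₁ l * h₂ l)).natDegree = (b₁ l).natDegree := fun l => by rw [← hbe]
  have hdd : ∀ l, (e l).natDegree + ((h₁ l).natDegree + (h₂ l).natDegree) =
      (b₁ l).natDegree := by
    intro l
    rw [← hdeh l, (he l).natDegree_mul (hh12 l), (hh₁ l).natDegree_mul (hh₂ l)]
  have hdvdB : ∀ l (P : K[X]), P ∣ h₁ l * h₂ l → P ∣ b + τ l := by
    intro l P hP
    rw [← hB l]
    exact ((hP.mul_left _).mul_left _)
  have hedvdB : ∀ l (P : K[X]), P ∣ e l → P ∣ b + τ l := by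
    intro l P hP
    rw [← hB l]
    exact ((hP.mul_right _).mul_left _)
  -- a prime divides at most one class and a divisor
  have hcross : ∀ l l' (P : K[X]), P.Monic → Irreducible P → l ≠ l' → P ∣ b + τ l' →
      ¬ P ∣ h₁ l * h₂ l := by
    intro l l' P hPm hPi hll h1 h2
    refine hRh l P (Or.inr ?_) hPm hPi h2
    have h3 := hdvdB l P h2
    have h4 : P ∣ τ l - τ l' := by
      have h5 := dvd_sub h3 h1
      have h6 : b + τ l - (b + τ l') = τ l - τ l' := by ring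
      rwa [h6] at h5
    exact h4.trans (SS_τ s (fun _ => 1) τ 1 l l' (fun h => hll (hτ h)))
  refine ⟨∏ l, e l ^ 5, monic_prod_of_monic _ _ (fun l _ => (he l).pow 5), ?_, ?_, ?_⟩
  · rw [natDegree_prod_of_monic _ _ (fun l _ => (he l).pow 5)]
    push_cast
    calc ∑ l : Fin r, ((e l ^ 5).natDegree : ℝ) ≤ ∑ _l : Fin r, (5 * (κ₁ * (n / 2)) : ℝ) := by
          apply Finset.sum_le_sum
          intro l _
          rw [natDegree_pow]
          push_cast
          have h1 := hκe l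
          have h2 : (2 * ((b₁ l).natDegree : ℝ) + 1) ≤ n := by exact_mod_cast hdn l
          have h3 : κ₁ * ((b₁ l).natDegree : ℝ) ≤ κ₁ * (n / 2) :=
            mul_le_mul_of_nonneg_left (by linarith) hκ₁
          linarith
      _ = _ := by
          rw [Finset.sum_const, Finset.card_univ, Fintype.card_fin, nsmul_eq_mul]
  · rintro P hPR hPm hPi ⟨i, hPb⟩
    rw [← hB] at hPb
    rcases hPi.prime.dvd_or_dvd hPb with h1 | h1
    · have hu : IsUnit (C (c (cl i)) : K[X]) := isUnit_C.2 (isUnit_iff_ne_zero.2 (hc _))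
      exact absurd (isUnit_of_dvd_unit h1 hu) hPi.not_isUnit
    · rcases hPi.prime.dvd_or_dvd h1 with h2 | h2
      · exact (dvd_pow h2 (by norm_num)).trans
          (Finset.dvd_prod_of_mem (fun l => e l ^ 5) (Finset.mem_univ (cl i)))
      · exact absurd h2 (hRh _ P (Or.inl hPR) hPm hPi)
  · intro M g L a χ hM0 hEM hMd hMP hg hmon hdeg hL1 hL2
    refine ⟨fun l => h₁ l * h₂ l, fun l => ⟨(hh12 l).ne_zero, ?_⟩, ?_⟩
    · have h1 := hdd l
      have h2 := hdn l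
      rw [(hh₁ l).natDegree_mul (hh₂ l)]
      omega
    have hgcop : ∀ i l, IsCoprime (g i) (h₁ l * h₂ l) := by
      intro i l
      refine cop_of (fun h => (hg i).1.ne_zero h.1) ?_
      intro P hPm hPi h1
      exact hRh l P (Or.inl ((hg i).2 P hPm hPi h1)) hPm hPi
    by_cases hge : ∃ i, ¬ g i ∣ e (cl i)
    · obtain ⟨i, hi⟩ := hge
      have hz : ∀ u ∈ {u : K[X] | u.degree < (L : WithBot ℕ)}, χ u * ∏ i,
          (mobg (g i) ((a + (D + s i) + M * u) ^ 2 + X * (b + τ (cl i)) ^ 2) : ℝ) = 0 := by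
        intro u _
        have h0 : mobg (g i) (G (a + (D + s i) + M * u) (b + τ (cl i))) = 0 := by
          by_contra hne
          have h1 := mobg_dvd _ _ _ hne
          rw [← hB] at h1
          have h2 : g i ∣ e (cl i) * (h₁ (cl i) * h₂ (cl i)) := by
            have hu : IsUnit (C (c (cl i)) : K[X]) := isUnit_C.2 (isUnit_iff_ne_zero.2 (hc _))
            exact (hu.dvd_mul_left).1 h1
          exact hi ((hgcop i (cl i)).dvd_of_dvd_mul_right h2)
        have h1 : ∏ i, (mobg (g i) ((a + (D + s i) + M * u) ^ 2 + X * (b + τ (cl i)) ^ 2) : ℝ) = 0 :=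
          Finset.prod_eq_zero (Finset.mem_univ i) (by
            unfold G at h0
            rw [h0]
            simp)
        rw [h1, mul_zero]
      rw [finsum_mem_congr rfl hz, finsum_mem_zero, abs_zero, zero_pow (by positivity)]
      have : 0 ≤ Mw := by linarith
      positivity
    push Not at hge
    have hMcop : ∀ l, IsCoprime M (h₁ l * h₂ l) := by
      intro l
      refine cop_of (fun h => hM0 h.1) ?_
      intro P hPm hPi h1 h2
      rcases hMP P hPm hPi h1 with h3 | h3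
      · obtain ⟨l', -, h4⟩ := hPi.prime.exists_mem_finset_dvd h3
        have h5 : P ∣ e l' := hPi.prime.dvd_of_dvd_pow h4
        by_cases hll : l = l'
        · rw [← hll] at h5
          exact not_dvd_of_cop (heh l) hPi h5 h2
        · exact hcross l l' P hPm hPi hll (hedvdB l' P h5) h2
      · obtain ⟨i, rfl⟩ := hcl l
        exact h3 i (hdvdB _ P h2)
    have hhcop : ∀ l l', l ≠ l' → IsCoprime (h₁ l * h₂ l) (h₁ l' * h₂ l') := by
      intro l l' hll
      refine cop_of (fun h => (hh12 l).ne_zero h.1) ?_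
      intro P hPm hPi h1 h2
      exact hcross l l' P hPm hPi hll (hdvdB l' P h2) h1
    have hscop : ∀ i i', i ≠ i' → cl i = cl i' →
        IsCoprime (D + s i - (D + s i')) (h₂ (cl i)) := by
      intro i i' hii hcc
      rw [add_sub_add_left_eq_sub]
      refine cop_of (fun h => (hh₂ (cl i)).ne_zero h.2) ?_
      intro P hPm hPi h1 h2
      refine hRh (cl i) P (Or.inr ?_) hPm hPi (h2.mul_left _)
      exact h1.trans (SS_s s (fun _ => 1) τ 1 i i' (hs i i' hii hcc))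
    -- the numerical conditions
    have hn0 : (0 : ℝ) < n := by exact_mod_cast hn
    have hD1 : ((⌊δ * n / 4⌋₊ : ℕ) : ℝ) ≤ δ * n / 4 := Nat.floor_le (by positivity)
    have hL : (n : ℝ) / 2 - 11 / 2 * (κ * n) ≤ L := by linarith
    have hκn : κ * n ≤ 1 / 22 * n := mul_le_mul_of_nonneg_right hκ22 hn0.le
    have hκδn : κ * n ≤ δ / 44 * n := mul_le_mul_of_nonneg_right hκδ hn0.le
    have hδn : 0 < δ * n := by positivity
    have hd1 : ∀ l, (n : ℝ) / 2 - κ * n / 8 ≤ (b₁ l).natDegree := by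
      intro l
      have : (D₀ : ℝ) ≤ (b₁ l).natDegree := by exact_mod_cast hDd l
      linarith
    have hd2 : ∀ l, 2 * ((b₁ l).natDegree : ℝ) + 1 ≤ n := fun l => by exact_mod_cast hdn l
    have hdd' : ∀ l, ((e l).natDegree : ℝ) + ((h₁ l).natDegree + (h₂ l).natDegree) =
        (b₁ l).natDegree := fun l => by exact_mod_cast hdd l
    have hδd : ∀ l, δ * n * (1 / 2 - 1 / 176) ≤ δ * (b₁ l).natDegree := by
      intro l
      have h1 : (n : ℝ) * (1 / 2 - 1 / 176) ≤ (b₁ l).natDegree := by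
        have := hd1 l
        linarith
      calc δ * n * (1 / 2 - 1 / 176) = δ * (n * (1 / 2 - 1 / 176)) := by ring
        _ ≤ _ := mul_le_mul_of_nonneg_left h1 hδ.le
    have hLpos : 1 ≤ L := by
      have h1 : (0 : ℝ) < L := by linarith
      have h2 : 0 < L := by exact_mod_cast h1
      omega
    have hc1 : ∀ l, (h₁ l).natDegree + ⌊δ * n / 4⌋₊ ≤ L := by
      intro l
      have h1 : ((h₁ l).natDegree : ℝ) + (⌊δ * n / 4⌋₊ : ℕ) ≤ L := by
        have h2 := hδ2 l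
        have h3 := hδd l
        have h4 := hd2 l
        have h5 : (1 / 2 - δ) * ((b₁ l).natDegree : ℝ) =
          (b₁ l).natDegree / 2 - δ * (b₁ l).natDegree := by ring
        rw [h5] at h2
        linarith
      exact_mod_cast h1
    have hc2 : ∀ l, (h₂ l).natDegree + ⌊δ * n / 4⌋₊ ≤ L := by
      intro l
      have h1 : ((h₂ l).natDegree : ℝ) + (⌊δ * n / 4⌋₊ : ℕ) ≤ L := by
        have h2 := hδ1 l
        have h3 := hδd l
        have h4 := hd2 l
        have h5 := hdd' l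
        have h6 : (0 : ℝ) ≤ (e l).natDegree := Nat.cast_nonneg _
        linarith
      exact_mod_cast h1
    have hc3 : ∀ l, L ≤ 2 * (h₂ l).natDegree := by
      intro l
      have h1 : (L : ℝ) ≤ 2 * (h₂ l).natDegree := by
        have h2 := hδ2 l
        have h3 := hκe l
        have h4 := hd1 l
        have h5 := hdd' l
        have h6 : κ₁ * ((b₁ l).natDegree : ℝ) ≤ δ * (b₁ l).natDegree :=
          mul_le_mul_of_nonneg_right hκ₁δ (Nat.cast_nonneg _)
        have h7 : (1 / 2 - δ) * ((b₁ l).natDegree : ℝ) =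
          (b₁ l).natDegree / 2 - δ * (b₁ l).natDegree := by ring
        rw [h7] at h2
        have h8 : (0 : ℝ) ≤ M.natDegree := Nat.cast_nonneg _
        have h9 : 0 < κ * n := by positivity
        linarith
      exact_mod_cast h1
    have hc4 : ∀ l, M.natDegree + (L - 1) ≤ (e l * (h₁ l * h₂ l)).natDegree := by
      intro l
      rw [hdeh l]
      have h1 : M.natDegree + L ≤ (b₁ l).natDegree := by
        have h2 : (M.natDegree : ℝ) + L ≤ (b₁ l).natDegree := by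
          have := hd1 l
          have h9 : 0 < κ * n := by positivity
          linarith
        exact_mod_cast h2
      omega
    have hc5 : ∀ l, (e l * (h₁ l * h₂ l)).natDegree < (X ^ (n / 2) + D).natDegree := by
      intro l
      rw [hdeh l]
      obtain ⟨⟨m, hm⟩, -, h1⟩ := hCn
      have h2 := hdn l
      omega
    obtain ⟨l₀⟩ : Nonempty (Fin r) := ⟨⟨0, hr⟩⟩
    have hwm := hW K (X ^ (n / 2) + D).natDegree L ⌊δ * n / 4⌋₊ (⌊δ * n / 4⌋₊ / (6 * r + 3)) c a M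
      e h₁ h₂ (fun i => D + s i) g cl l₀ χ hc hM0 hLpos
      (fun l => ⟨he l, hh₁ l, hh₂ l, heh l, hsq l, hMcop l,
        (Finset.dvd_prod_of_mem (fun l => e l ^ 5) (Finset.mem_univ l)).trans hEM,
        hc1 l, hc2 l, hc5 l, hc4 l⟩) hhcop (hcl l₀) (fun i => ⟨(hg i).1, hge i⟩) hscop
      (fun i => shift_monic hCn hmon hdeg (hst i)) (hc3 l₀) (Nat.mul_div_le _ _)
    simp only [hB] at hwm
    exact hwm

end main

end FIBI

open FIBI in
/-- **Task FIBI.** -/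
theorem fibI : T_fibI := by
  intro hwin htyp
  intro K _ _ _ k ε hk hε
  obtain ⟨q, hqdef⟩ : ∃ q : ℝ, q = Fintype.card K := ⟨_, rfl⟩
  have hq1 : (1 : ℝ) < q := by rw [hqdef]; exact_mod_cast Fintype.one_lt_card
  have hq0 : (0 : ℝ) < q := by linarith
  have hk0 : (0 : ℝ) < k := by exact_mod_cast hk
  -- the constants of the window bound
  choose Mf hMf using W5I_of hwin k
  obtain ⟨M0, hM0⟩ : ∃ M0 : ℝ, M0 = ∑ r ∈ Finset.range (k + 1), Mf r := ⟨_, rfl⟩
  have hM0r : ∀ r, r ≤ k → Mf r ≤ M0 := by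
    intro r hr
    rw [hM0]
    exact Finset.single_le_sum (f := fun r => Mf r)
      (fun r _ => le_trans zero_le_one (hMf r).1) (Finset.mem_range.2 (by omega))
  have hM01 : 1 ≤ M0 := (hMf 0).1.trans (hM0r 0 (Nat.zero_le _))
  obtain ⟨ε', hε'⟩ : ∃ ε' : ℝ, ε' = ε / (2 * k) := ⟨_, rfl⟩
  have hε'0 : 0 < ε' := by rw [hε']; positivity
  have hkε : k * (2 * ε') = ε := by
    rw [hε']
    field_simp
  obtain ⟨δ, hδ, htyp'⟩ := htyp K ε' hε'0
  obtain ⟨κ, hκ⟩ : ∃ κ : ℝ, κ = min (1 / 22) (δ / 44) := ⟨_, rfl⟩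
  have hκ0 : 0 < κ := by rw [hκ]; exact lt_min (by norm_num) (by positivity)
  have hκ22 : κ ≤ 1 / 22 := by rw [hκ]; exact min_le_left _ _
  have hκδ : κ ≤ δ / 44 := by rw [hκ]; exact min_le_right _ _
  obtain ⟨κ₁, hκ₁⟩ : ∃ κ₁ : ℝ, κ₁ = κ / (3 * k) := ⟨_, rfl⟩
  have hκ₁0 : 0 < κ₁ := by rw [hκ₁]; positivity
  have hkκ₁ : k * κ₁ = κ / 3 := by
    rw [hκ₁]
    field_simp
  have hκ₁κ : κ₁ ≤ κ := by
    have h1 : κ₁ ≤ k * κ₁ := by
      have : (1 : ℝ) ≤ k := by exact_mod_cast hk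
      nlinarith
    linarith
  have hκ₁δ : κ₁ ≤ δ := by linarith
  obtain ⟨θ₁, hθ₁, d₀, hd₀⟩ := htyp' κ₁ hκ₁0
  obtain ⟨j, hj⟩ := exists_pow_lt_of_lt_one hε'0
    (show 1 / (Fintype.card K : ℝ) < 1 by rw [← hqdef, div_lt_one hq0]; exact hq1)
  obtain ⟨y, hy⟩ := exists_pow_lt_of_lt_one (show (0 : ℝ) < θ₁ / (32 * k ^ 2) by positivity)
    (show 1 / (Fintype.card K : ℝ) < 1 by rw [← hqdef, div_lt_one hq0]; exact hq1)
  rw [← hqdef] at hy
  obtain ⟨κ₂, hκ₂⟩ : ∃ κ₂ : ℝ, κ₂ = δ / (4 * (6 * k + 3)) := ⟨_, rfl⟩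
  have hκ₂0 : 0 < κ₂ := by rw [hκ₂]; positivity
  obtain ⟨A, hA1, hA⟩ := omega_bound K M0 hM01 (q ^ (κ₂ / 2 / k))
    (Real.one_lt_rpow hq1 (by positivity))
  obtain ⟨m1, hm1⟩ := tend (A ^ k * q) (q ^ (-(κ₂ / 4))) 1 (by positivity)
    (Real.rpow_lt_one_of_one_lt_of_neg hq1 (by linarith)) one_pos
  obtain ⟨m2, hm2⟩ := exists_nat_gt (8 * (1 + j) / κ)
  obtain ⟨m3, hm3⟩ := exists_nat_gt (16 * (y * q ^ (y + 1)) / θ₁)
  refine ⟨κ, θ₁ / 16, κ₂ / (4 * 2 ^ (6 * k + 1)), hκ0, by linarith, by positivity, by positivity,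
    m1 + m2 + m3 + 4 * d₀ + 1, ?_⟩
  intro n hn s t R D hCn hst hdst hmass
  have hn1 : 1 ≤ n := by omega
  have hn0 : (0 : ℝ) < n := by exact_mod_cast hn1
  -- the classes
  obtain ⟨r, τ, cl, hτ, hcl, hcls, hrk⟩ : ∃ (r : ℕ) (τ : Fin r → K[X]) (cl : Fin k → Fin r),
      Function.Injective τ ∧ (∀ i, τ (cl i) = t i) ∧ Function.Surjective cl ∧ r ≤ k := by
    refine ⟨(Finset.univ.image t).card, fun l => ((Finset.univ.image t).equivFin.symm l : K[X]),
      fun i => (Finset.univ.image t).equivFin ⟨t i, Finset.mem_image_of_mem t (Finset.mem_univ i)⟩,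
      ?_, ?_, ?_, ?_⟩
    · intro l l' h
      exact (Finset.univ.image t).equivFin.symm.injective (Subtype.ext h)
    · intro i
      simp
    · intro l
      have h1 := ((Finset.univ.image t).equivFin.symm l).2
      rw [Finset.mem_image] at h1
      obtain ⟨i, -, hi⟩ := h1
      refine ⟨i, ?_⟩
      apply (Finset.univ.image t).equivFin.symm.injective
      rw [Equiv.symm_apply_apply]
      exact Subtype.ext hi
    · refine Finset.card_image_le.trans ?_
      rw [Finset.card_univ, Fintype.card_fin]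
  have hr0 : 0 < r := by
    have := (cl ⟨0, by omega⟩).2
    omega
  have hs : ∀ i i', i ≠ i' → cl i = cl i' → s i ≠ s i' := by
    intro i i' hii hc h
    apply hii
    apply hst
    simp only
    rw [h, ← hcl i, ← hcl i', hc]
  have hdst' : ∀ i, (s i ^ 2 + X * τ (cl i) ^ 2).natDegree < n := by
    intro i
    rw [hcl]
    exact hdst i
  have hsm : ∀ i, s i ∈ degreeLT K ((n + 1) / 2) := fun i => (mem_of_G (hdst i)).1
  have hτm : ∀ l, τ l ∈ degreeLT K (n / 2) := by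
    intro l
    obtain ⟨i, rfl⟩ := hcls l
    exact (mem_of_G (hdst' i)).2
  -- the lower bound for the degrees
  obtain ⟨D₀, hD₀⟩ : ∃ D₀ : ℕ, D₀ = ⌈(1 / 2 - κ / 8) * (n : ℝ)⌉₊ := ⟨_, rfl⟩
  have hD1 : (1 / 2 - κ / 8) * (n : ℝ) ≤ D₀ := by
    rw [hD₀]
    exact Nat.le_ceil _
  have hD2 : (D₀ : ℝ) < (1 / 2 - κ / 8) * (n : ℝ) + 1 := by
    rw [hD₀]
    apply Nat.ceil_lt_add_one
    apply mul_nonneg _ hn0.le
    linarith
  have hκn : κ * n ≤ 1 / 22 * n := mul_le_mul_of_nonneg_right hκ22 hn0.le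
  have hDn : (n : ℝ) / 4 ≤ D₀ := by linarith
  have hm2' : 8 * (1 + (j : ℝ)) ≤ κ * n := by
    have h1 : (m2 : ℝ) ≤ n := by exact_mod_cast (by omega : m2 ≤ n)
    have h2 : 8 * (1 + (j : ℝ)) / κ ≤ n := hm2.le.trans h1
    rw [div_le_iff₀ hκ0] at h2
    linarith
  have hDj : D₀ + j ≤ n / 2 := by
    rw [Nat.le_div_iff_mul_le (by norm_num)]
    have h1 : ((D₀ : ℝ) + j) * 2 ≤ n := by linarith
    exact_mod_cast h1
  have hm3' : (y : ℝ) * q ^ (y + 1) ≤ θ₁ / 16 * n := by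
    have h1 : (m3 : ℝ) ≤ n := by exact_mod_cast (by omega : m3 ≤ n)
    have h2 : 16 * (y * q ^ (y + 1)) / θ₁ ≤ n := hm3.le.trans h1
    rw [div_le_iff₀ hθ₁] at h2
    linarith
  -- the enlarged set of primes
  obtain ⟨R0, hR0⟩ : ∃ R0 : Set K[X], R0 = R ∪ {P | P ∣ SS s (fun _ => 1) τ 1} := ⟨_, rfl⟩
  have hSS0 : SS s (fun _ => (1 : K[X])) τ 1 ≠ 0 :=
    SS_ne s (fun _ => 1) τ 1 (fun _ => monic_one) one_ne_zero
  have hSSd : (SS s (fun _ => (1 : K[X])) τ 1).natDegree ≤ (r * r + k * k) * n := by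
    apply SS_natDegree
    · intro i
      have := natDegree_of_mem (hsm i)
      omega
    · intro l
      have := natDegree_of_mem (hτm l)
      omega
  have hmass0 : mass R0 n ≤ 3 * (θ₁ / 16 * n) := by
    rw [hR0]
    refine (mass_union _ _ _).trans ?_
    have h1 := mass_dvd (SS s (fun _ => (1 : K[X])) τ 1) hSS0 n y
    rw [← hqdef] at h1
    have h2 : ((SS s (fun _ => (1 : K[X])) τ 1).natDegree : ℝ) ≤ 2 * k ^ 2 * n := by
      have h3 : ((SS s (fun _ => (1 : K[X])) τ 1).natDegree : ℝ) ≤ ((r * r + k * k) * n : ℕ) := by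
        exact_mod_cast hSSd
      refine h3.trans ?_
      push_cast
      have h4 : (r : ℝ) ≤ k := by exact_mod_cast hrk
      have h5 : (0 : ℝ) ≤ r := Nat.cast_nonneg _
      have h6 : (r : ℝ) * r ≤ k * k := mul_le_mul h4 h4 h5 hk0.le
      have h7 : (r : ℝ) * r + k * k ≤ 2 * k ^ 2 := by nlinarith
      exact mul_le_mul_of_nonneg_right h7 hn0.le
    have h3 : ((SS s (fun _ => (1 : K[X])) τ 1).natDegree : ℝ) / q ^ y ≤ θ₁ / 16 * n := by
      calc ((SS s (fun _ => (1 : K[X])) τ 1).natDegree : ℝ) / q ^ y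
          ≤ (2 * k ^ 2 * n) / q ^ y := div_le_div_of_nonneg_right h2 (by positivity)
        _ = (2 * k ^ 2 * n) * (1 / q) ^ y := by rw [one_div, inv_pow, div_eq_mul_inv]
        _ ≤ (2 * k ^ 2 * n) * (θ₁ / (32 * k ^ 2)) :=
            mul_le_mul_of_nonneg_left hy.le (by positivity)
        _ = θ₁ / 16 * n := by
            field_simp
            ring
    linarith
  -- the exceptional set
  refine ⟨ExcP τ (GoodV R0 δ κ₁) D₀ n, fun b hb => hb.1, ?_, ?_⟩
  · have h1 := Exc_card τ (GoodV R0 δ κ₁) D₀ n hτm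
    have h2 := badP_card (K := K) (GoodV R0 δ κ₁) D₀ j n ε' hε'0 hj.le (fun d hd1 hd2 => by
      apply hd₀ d
      · have h3 : (d₀ : ℝ) ≤ D₀ := by
          have h4 : (4 * (d₀ : ℝ)) ≤ n := by exact_mod_cast (by omega : 4 * d₀ ≤ n)
          linarith
        have h5 : d₀ ≤ D₀ := by exact_mod_cast h3
        exact h5.trans hd1
      · refine (mass_mono R0 (by omega : d ≤ n)).trans (hmass0.trans ?_)
        have h3 : (D₀ : ℝ) ≤ d := by exact_mod_cast hd1
        have h4 : 3 * ((n : ℝ) / 16) ≤ d := by linarith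
        calc 3 * (θ₁ / 16 * n) = θ₁ * (3 * (n / 16)) := by ring
          _ ≤ θ₁ * d := mul_le_mul_of_nonneg_left h4 hθ₁.le) hDj
    have h3 : ((ExcP τ (GoodV R0 δ κ₁) D₀ n).ncard : ℝ) ≤
        r * ((badP (K := K) (GoodV R0 δ κ₁) D₀ n).card : ℝ) := by exact_mod_cast h1
    have h4 : (r : ℝ) ≤ k := by exact_mod_cast hrk
    calc ((ExcP τ (GoodV R0 δ κ₁) D₀ n).ncard : ℝ)
        ≤ r * ((badP (K := K) (GoodV R0 δ κ₁) D₀ n).card : ℝ) := h3
      _ ≤ k * (2 * ε' * (Fintype.card K : ℝ) ^ (n / 2)) :=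
          mul_le_mul h4 h2 (Nat.cast_nonneg _) hk0.le
      _ = (k * (2 * ε')) * (Fintype.card K : ℝ) ^ (n / 2) := by ring
      _ = ε * (Fintype.card K : ℝ) ^ (n / 2) := by rw [hkε]
  · intro b hb hbe
    have hgood : ∀ l, gdP (GoodV (R ∪ {P | P ∣ SS s (fun _ => 1) τ 1}) δ κ₁) D₀ (b + τ l) := by
      intro l
      by_contra hl
      rw [← hR0] at hl
      exact hbe ⟨hb, l, hl⟩
    obtain ⟨E, hEm, hEd, hER, hmain⟩ := local_boundI (hMf r) s τ cl hcls hr0 hτ hs δ κ κ₁ hδ hκ0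
      hκ22 hκδ hκ₁0.le hκ₁δ n D₀ hn1 hD1 D hCn hdst' R b hb hgood
    refine ⟨E, hEm, ?_, ?_, ?_⟩
    · have h4 : (r : ℝ) ≤ k := by exact_mod_cast hrk
      calc (E.natDegree : ℝ) ≤ r * (5 * (κ₁ * (n / 2))) := hEd
        _ ≤ k * (5 * (κ₁ * (n / 2))) := mul_le_mul_of_nonneg_right h4 (by positivity)
        _ = (k * κ₁) * (5 / 2 * n) := by ring
        _ = (κ / 3) * (5 / 2 * n) := by rw [hkκ₁]
        _ ≤ κ * n := by
            have : 0 < κ * n := by positivity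
            linarith
    · intro P hP hPm hPi hPb
      obtain ⟨i, hi⟩ := hPb
      exact hER P hP hPm hPi ⟨i, by rw [hcl]; exact hi⟩
    · intro M g L a χ hM hEM hMd hMP hg hmon hdeg hL1 hL2
      obtain ⟨H, hH, hbound⟩ := hmain M g L a χ hM hEM hMd (fun P hPm hPi hPM => by
        rcases hMP P hPm hPi hPM with h | h
        · exact Or.inl h
        · exact Or.inr fun i => by rw [hcl]; exact h i) hg hmon hdeg hL1 hL2
      simp only [hcl] at hbound
      rw [← hqdef] at hbound ⊢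
      refine fin_num hq1 hrk hκ₂0 hA1 (abs_nonneg _) ?_ ?_ (hm1 n (by omega)) rfl hbound
      · -- the bound for `T`
        have h1 : ⌊δ * n / 4⌋₊ + 1 ≤ (6 * r + 3) * (⌊δ * n / 4⌋₊ / (6 * r + 3) + 1) :=
          Nat.lt_mul_div_succ _ (by omega)
        have h2 : δ * n / 4 < (⌊δ * n / 4⌋₊ : ℝ) + 1 := Nat.lt_floor_add_one _
        have h3 : ((⌊δ * n / 4⌋₊ : ℕ) : ℝ) + 1 ≤
            (6 * r + 3) * (((⌊δ * n / 4⌋₊ / (6 * r + 3) : ℕ) : ℝ) + 1) := by exact_mod_cast h1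
        have h4 : (r : ℝ) ≤ k := by exact_mod_cast hrk
        have h5 : (0 : ℝ) ≤ ((⌊δ * n / 4⌋₊ / (6 * r + 3) : ℕ) : ℝ) + 1 := by positivity
        have h6 : (6 * (r : ℝ) + 3) * (((⌊δ * n / 4⌋₊ / (6 * r + 3) : ℕ) : ℝ) + 1) ≤
            (6 * k + 3) * (((⌊δ * n / 4⌋₊ / (6 * r + 3) : ℕ) : ℝ) + 1) :=
          mul_le_mul_of_nonneg_right (by linarith) h5
        rw [hκ₂, div_mul_eq_mul_div, div_le_iff₀ (by positivity)]
        linarith
      · -- the number of primes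
        have hMr : Mf r ≤ M0 := hM0r r hrk
        have hMr0 : 0 ≤ Mf r := le_trans zero_le_one (hMf r).1
        have hη1 : (1 : ℝ) ≤ q ^ (κ₂ / 2 / k) := Real.one_le_rpow hq1.le (by positivity)
        have hAη : 1 ≤ A * (q ^ (κ₂ / 2 / k)) ^ n :=
          one_le_mul_of_one_le_of_one_le hA1 (one_le_pow₀ hη1)
        calc Mf r ^ (∑ l, (PA (H l)).ncard) ≤ M0 ^ (∑ l, (PA (H l)).ncard) :=
              pow_le_pow_left₀ hMr0 hMr _
          _ = ∏ l, M0 ^ (PA (H l)).ncard := by rw [Finset.prod_pow_eq_pow_sum]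
          _ ≤ ∏ _l : Fin r, (A * (q ^ (κ₂ / 2 / k)) ^ n) := by
              apply Finset.prod_le_prod
              · intro l _
                have : 0 ≤ M0 := by linarith
                positivity
              · intro l _
                exact hA (H l) (hH l).1 n (hH l).2
          _ = (A * (q ^ (κ₂ / 2 / k)) ^ n) ^ r := by
              rw [Finset.prod_const, Finset.card_univ, Fintype.card_fin]
          _ ≤ (A * (q ^ (κ₂ / 2 / k)) ^ n) ^ k := pow_le_pow_right₀ hAη hrk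
          _ = A ^ k * (q ^ (κ₂ / 2)) ^ n := by
              rw [mul_pow, ← pow_mul, mul_comm n k, pow_mul,
                ← Real.rpow_natCast (q ^ (κ₂ / 2 / k)) k, ← Real.rpow_mul hq0.le,
                div_mul_cancel₀ _ hk0.ne']

end Pool.Agent.H542.NS
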