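import Pool.Agent.H542.NS.Stm
import Pool.Agent.H996.Par.Low

/-!
# LOWI: the number of sifted elements around squares (helper769, for helper542)
-/

set_option autoImplicit false

namespace Pool.Agent.H542.NS.LOWI

open Polynomial Finset
open scoped Classical
open Pool.Agent.H694.Typ
open Pool.Agent.H985.Par
open Pool.Agent.H996.Par
open Pool.Agent.H542.NS

section squares

variable {K : Type} [Field K] [Fintype K]

/-- monic polynomials with a given derivative -/
theorem card_der [CharP K 2] (h : ℕ) (β : K[X]) :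
    ((Mn K (2 * h)).filter (fun f => derivative f = β)).card ≤ Fintype.card K ^ h := by
  have h1 : (univ : Finset (Fin h → K)).card = Fintype.card K ^ h := by
    rw [card_univ, Fintype.card_fun, Fintype.card_fin]
  rw [← h1]
  refine card_le_card_of_injOn (fun f => fun i : Fin h => f.coeff (2 * (i : ℕ)))
    (fun _ _ => mem_coe.2 (mem_univ _)) ?_
  intro f hf g hg hfg
  rw [mem_coe, mem_filter, mem_Mn] at hf hg
  obtain ⟨⟨hf1, hf2⟩, hf3⟩ := hf
  obtain ⟨⟨hg1, hg2⟩, hg3⟩ := hg
  ext k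
  rcases lt_trichotomy k (2 * h) with hk | hk | hk
  · rcases Nat.even_or_odd' k with ⟨i, hi | hi⟩
    · have hi' : i < h := by omega
      have := congrFun hfg ⟨i, hi'⟩
      rw [hi]
      exact this
    · have hK2 : (2 : K) = 0 := by exact_mod_cast CharP.cast_eq_zero K 2
      have h2 := congrArg (fun P : K[X] => P.coeff (2 * i)) (hf3.trans hg3.symm)
      simp only [coeff_derivative] at h2
      have e2 : ((2 * i : ℕ) : K) + 1 = 1 := by
        rw [Nat.cast_mul, Nat.cast_ofNat, hK2, zero_mul, zero_add]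
      rw [e2, mul_one, mul_one] at h2
      rw [hi]
      exact h2
  · have h3 : f.coeff (2 * h) = 1 := by rw [← hf2]; exact hf1
    have h4 : g.coeff (2 * h) = 1 := by rw [← hg2]; exact hg1
    rw [hk, h3, h4]
  · rw [coeff_eq_zero_of_natDegree_lt (by omega), coeff_eq_zero_of_natDegree_lt (by omega)]

/-- multiples of a square in a shifted interval -/
theorem card_sq (n : ℕ) (c P : K[X]) (hP : P.Monic) (h1 : 1 ≤ P.natDegree)
    (h2 : 2 * P.natDegree ≤ n) :
    (((Mn K n).filter (fun f => P ^ 2 ∣ f + c)).card : ℝ) ≤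
      (Fintype.card K : ℝ) ^ n * (wt K P.natDegree * wt K P.natDegree) := by
  have hP2 : (P ^ 2).Monic := hP.pow 2
  have hne : P ^ 2 ≠ 1 := by
    intro h
    have := congrArg natDegree h
    rw [natDegree_pow, natDegree_one] at this
    omega
  have hdeg : (c %ₘ (P ^ 2)).natDegree < n := by
    have := natDegree_modByMonic_lt c hP2 hne
    rw [natDegree_pow] at this
    omega
  have h3 : ((Mn K n).filter (fun f => P ^ 2 ∣ f + c)).card ≤
      ((Mn K n).filter (fun b => P ^ 2 ∣ b)).card := by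
    refine card_le_card_of_injOn (fun f => f + c %ₘ (P ^ 2)) ?_ ?_
    · intro f hf
      rw [mem_coe, mem_filter] at hf
      rw [mem_coe, mem_filter]
      refine ⟨add_mem_Mn hf.1 hdeg, ?_⟩
      have e1 : f + c = (f + c %ₘ (P ^ 2)) + P ^ 2 * (c /ₘ (P ^ 2)) := by
        have := modByMonic_add_div c (P ^ 2)
        linear_combination -this
      have h4 := hf.2
      rw [e1] at h4
      exact (dvd_add_left (dvd_mul_right _ _)).1 h4
    · intro f _ g _ hfg
      exact add_right_cancel hfg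
  have h4 : (((Mn K n).filter (fun b => P ^ 2 ∣ b)).card : ℝ) ≤
      (Fintype.card K : ℝ) ^ n * (wt K P.natDegree * wt K P.natDegree) := by
    refine (card_dvd_le hP2).trans ?_
    rw [natDegree_pow, two_mul, wt_add]
  exact (by exact_mod_cast h3 : (((Mn K n).filter (fun f => P ^ 2 ∣ f + c)).card : ℝ) ≤
    (((Mn K n).filter (fun b => P ^ 2 ∣ b)).card : ℝ)).trans h4

/-- one shift -/
theorem one_shift [CharP K 2] (h m : ℕ) (c : K[X]) :
    (((Mn K (2 * h)).filter (fun f => derivative (f + c) = 0 ∨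
      ∃ P : K[X], P.Monic ∧ m < P.natDegree ∧ P.natDegree ≤ h ∧ P ^ 2 ∣ f + c)).card : ℝ) ≤
      (Fintype.card K : ℝ) ^ h + (Fintype.card K : ℝ) ^ (2 * h) * wt K m := by
  have hsub : (Mn K (2 * h)).filter (fun f => derivative (f + c) = 0 ∨
      ∃ P : K[X], P.Monic ∧ m < P.natDegree ∧ P.natDegree ≤ h ∧ P ^ 2 ∣ f + c) ⊆
      (Mn K (2 * h)).filter (fun f => derivative f = -derivative c) ∪
      (Finset.Icc (m + 1) h).biUnion (fun j => (Mn K j).biUnion
        (fun P => (Mn K (2 * h)).filter (fun f => P ^ 2 ∣ f + c))) := by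
    intro f hf
    rw [mem_filter] at hf
    obtain ⟨hf1, hf2 | ⟨P, hP, hPm, hPh, hPd⟩⟩ := hf
    · rw [mem_union]
      left
      rw [mem_filter]
      refine ⟨hf1, ?_⟩
      rw [derivative_add] at hf2
      exact eq_neg_of_add_eq_zero_left hf2
    · rw [mem_union]
      right
      rw [mem_biUnion]
      refine ⟨P.natDegree, mem_Icc.2 ⟨by omega, hPh⟩, ?_⟩
      rw [mem_biUnion]
      exact ⟨P, mem_Mn.2 ⟨hP, rfl⟩, mem_filter.2 ⟨hf1, hPd⟩⟩
  have h1 : (((Mn K (2 * h)).filter (fun f => derivative (f + c) = 0 ∨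
      ∃ P : K[X], P.Monic ∧ m < P.natDegree ∧ P.natDegree ≤ h ∧ P ^ 2 ∣ f + c)).card : ℝ) ≤
      (((Mn K (2 * h)).filter (fun f => derivative f = -derivative c)).card : ℝ) +
      ∑ j ∈ Finset.Icc (m + 1) h, ∑ P ∈ Mn K j,
        (((Mn K (2 * h)).filter (fun f => P ^ 2 ∣ f + c)).card : ℝ) := by
    have := (card_le_card hsub).trans ((card_union_le _ _).trans (add_le_add le_rfl
      (card_biUnion_le.trans (sum_le_sum fun j _ => card_biUnion_le))))
    exact_mod_cast this
  refine h1.trans (add_le_add ?_ ?_)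
  · exact_mod_cast card_der h (-derivative c)
  · have h2 : ∀ j ∈ Finset.Icc (m + 1) h, ∑ P ∈ Mn K j,
        (((Mn K (2 * h)).filter (fun f => P ^ 2 ∣ f + c)).card : ℝ) ≤
          (Fintype.card K : ℝ) ^ (2 * h) * wt K j := by
      intro j hj
      rw [mem_Icc] at hj
      have h3 : ∀ P ∈ Mn K j, (((Mn K (2 * h)).filter (fun f => P ^ 2 ∣ f + c)).card : ℝ) ≤
          (Fintype.card K : ℝ) ^ (2 * h) * (wt K j * wt K j) := by
        intro P hP
        rw [mem_Mn] at hP
        have := card_sq (2 * h) c P hP.1 (by omega) (by omega)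
        rwa [hP.2] at this
      refine (sum_le_sum h3).trans ?_
      rw [sum_const, card_Mn, nsmul_eq_mul]
      have hq := q_ge (k := K)
      have h4 : (Fintype.card K : ℝ) ^ j * wt K j = 1 := by
        unfold wt
        exact mul_inv_cancel₀ (by positivity)
      apply le_of_eq
      calc (((Fintype.card K ^ j : ℕ)) : ℝ) * ((Fintype.card K : ℝ) ^ (2 * h) *
          (wt K j * wt K j)) =
          (Fintype.card K : ℝ) ^ (2 * h) * wt K j * ((Fintype.card K : ℝ) ^ j * wt K j) := by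
            push_cast; ring
        _ = (Fintype.card K : ℝ) ^ (2 * h) * wt K j := by rw [h4, mul_one]
    refine (sum_le_sum h2).trans ?_
    rw [← mul_sum]
    have := geo_wt_le (K := K) m h
    gcongr

theorem sq_partI [CharP K 2] {k : ℕ} (n m : ℕ) (hn : Even n) (D : K[X]) (α : Fin k → K[X])
    (hα : ∀ i, (α i).natDegree < n) :
    (((Sfs K (fun i => D ^ 2 + α i) n m).filter
      (fun f => ∃ i, ¬ Squarefree (f + (D ^ 2 + α i)))).card : ℝ) ≤
      2 * k * (Fintype.card K : ℝ) ^ n / (Fintype.card K : ℝ) ^ m +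
        k * (Fintype.card K : ℝ) ^ (n / 2) := by
  obtain ⟨h, hh⟩ := hn
  have hn2 : n = 2 * h := by omega
  subst hn2
  have hdiv : 2 * h / 2 = h := by omega
  rw [hdiv]
  have hK2 : (2 : K) = 0 := by exact_mod_cast CharP.cast_eq_zero K 2
  have hsq0 : ∀ P : K[X], derivative (P ^ 2) = 0 := by
    intro P
    have e : (2 : K[X]) = 0 := by
      have := congrArg (C : K →+* K[X]) hK2
      rwa [map_ofNat, map_zero] at this
    rw [pow_two, derivative_mul, mul_comm P (derivative P), ← two_mul, e, zero_mul]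
  have hsub : (Sfs K (fun i => D ^ 2 + α i) (2 * h) m).filter
      (fun f => ∃ i, ¬ Squarefree (f + (D ^ 2 + α i))) ⊆
      (univ : Finset (Fin k)).biUnion (fun i => (Mn K (2 * h)).filter
        (fun f => derivative (f + (D ^ 2 + α i)) = 0 ∨
      ∃ P : K[X], P.Monic ∧ m < P.natDegree ∧ P.natDegree ≤ h ∧
        P ^ 2 ∣ f + (D ^ 2 + α i))) := by
    intro f hf
    rw [mem_filter, Sfs, mem_filter] at hf
    obtain ⟨⟨hf1, hf2⟩, i, hi⟩ := hf
    rw [mem_biUnion]
    refine ⟨i, mem_univ _, mem_filter.2 ⟨hf1, ?_⟩⟩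
    by_cases hd : derivative (f + (D ^ 2 + α i)) = 0
    · exact Or.inl hd
    right
    have hm0 : f + (D ^ 2 + α i) ≠ 0 := by
      intro h0
      apply hd
      rw [h0, derivative_zero]
    rw [squarefree_iff_irreducible_sq_not_dvd_of_ne_zero hm0] at hi
    push Not at hi
    obtain ⟨P, hP, hPd⟩ := hi
    have hP0 : P ≠ 0 := hP.ne_zero
    have hass : Associated (normalize P) P := normalize_associated P
    have hN : (normalize P).Monic := monic_normalize hP0
    have hNi : Irreducible (normalize P) := hass.irreducible_iff.2 hP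
    have hNd : normalize P ^ 2 ∣ f + (D ^ 2 + α i) := by
      rw [pow_two]
      exact (Associated.mul_mul hass hass).dvd.trans hPd
    refine ⟨normalize P, hN, hf2 i _ hN hNi
      ((Dvd.intro_left _ (pow_two (normalize P)).symm).trans hNd), ?_, hNd⟩
    -- the degree
    have h1 : normalize P ^ 2 ∣ derivative (f + (D ^ 2 + α i)) := by
      obtain ⟨G, hG⟩ := hNd
      rw [hG, derivative_mul, hsq0, zero_mul, zero_add]
      exact dvd_mul_right _ _
    have h2 := natDegree_le_of_dvd h1 hd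
    rw [natDegree_pow] at h2
    have h3 : (derivative (f + (D ^ 2 + α i))).natDegree < 2 * h := by
      rw [derivative_add, derivative_add, hsq0, zero_add, ← derivative_add]
      have hn1 : 0 < 2 * h := lt_of_le_of_lt (Nat.zero_le _) (hα i)
      have h4 : (f + α i).natDegree = 2 * h := (mem_Mn.1 (add_mem_Mn hf1 (hα i))).2
      have h5 := natDegree_derivative_lt (p := f + α i) (by omega)
      omega
    omega
  have h1 : (((Sfs K (fun i => D ^ 2 + α i) (2 * h) m).filter
      (fun f => ∃ i, ¬ Squarefree (f + (D ^ 2 + α i)))).card : ℝ) ≤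
      ∑ i : Fin k, (((Mn K (2 * h)).filter
        (fun f => derivative (f + (D ^ 2 + α i)) = 0 ∨
      ∃ P : K[X], P.Monic ∧ m < P.natDegree ∧ P.natDegree ≤ h ∧
        P ^ 2 ∣ f + (D ^ 2 + α i))).card : ℝ) := by
    have := (card_le_card hsub).trans card_biUnion_le
    exact_mod_cast this
  refine h1.trans ?_
  have h2 : ∑ i : Fin k, (((Mn K (2 * h)).filter
        (fun f => derivative (f + (D ^ 2 + α i)) = 0 ∨
      ∃ P : K[X], P.Monic ∧ m < P.natDegree ∧ P.natDegree ≤ h ∧
        P ^ 2 ∣ f + (D ^ 2 + α i))).card : ℝ) ≤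
      ∑ _i : Fin k, ((Fintype.card K : ℝ) ^ h + (Fintype.card K : ℝ) ^ (2 * h) * wt K m) :=
    sum_le_sum fun i _ => one_shift h m _
  refine h2.trans ?_
  rw [sum_const, card_univ, Fintype.card_fin, nsmul_eq_mul]
  have h3 : (0 : ℝ) ≤ k := Nat.cast_nonneg k
  have h4 : (0 : ℝ) ≤ (Fintype.card K : ℝ) ^ (2 * h) * wt K m := by
    have := wt_nonneg (k := K) m
    positivity
  have h5 : 2 * k * (Fintype.card K : ℝ) ^ (2 * h) / (Fintype.card K : ℝ) ^ m =
      2 * (k * ((Fintype.card K : ℝ) ^ (2 * h) * wt K m)) := by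
    unfold wt
    rw [div_eq_mul_inv]
    ring
  rw [h5, mul_add]
  have := mul_nonneg h3 h4
  linarith

end squares

theorem lowI : T_lowI := by
  intro hs K _ _ _ k
  obtain ⟨A, hA⟩ := hs K k (1 / 2) (by norm_num)
  obtain ⟨c₀, hc₀⟩ : ∃ c₀ : ℝ, c₀ = Real.exp (-((k : ℝ) + (8 * (k : ℝ) ^ 3 +
    2 * (k : ℝ) ^ 2))) := ⟨_, rfl⟩
  have hc0 : 0 < c₀ := by rw [hc₀]; exact Real.exp_pos _
  have hq := q_ge (k := K)
  refine ⟨c₀ / 2, by positivity, A, ?_⟩
  intro n m hm hn D hD α _ hdeg hadm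
  refine ⟨?_, sq_partI n m hD.1 D α hdeg⟩
  obtain ⟨γ, hγ⟩ : ∃ γ : Fin k → K[X], γ = fun i => D ^ 2 + α i := ⟨_, rfl⟩
  have hadm' : ∀ P : K[X], P.Monic → Irreducible P → ∃ r : K[X], ∀ i, ¬ P ∣ r + γ i := by
    rw [hγ]; exact hadm
  rw [← hγ]
  have h1 := (hA n m (PU K m) (Om γ) 1 (X ^ n) hm hn (fun P hP => by
      rw [mem_PU] at hP
      exact ⟨hP.1, hP.2.1, hP.2.2, isCoprime_one_left⟩) (fun P hP => by
      rw [mem_PU] at hP
      exact ⟨Om_card γ P, Om_lt γ hP.1 (hadm' P hP.1 hP.2.1), Om_deg γ hP.1⟩)).1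
  rw [← Sfs_card] at h1
  refine le_trans ?_ h1
  have h2 := prod_ge (K := K) k m hm (fun P => (Om γ P).card) (fun P hP => by
      rw [mem_PU] at hP
      exact ⟨Om_card γ P, Om_lt γ hP.1 (hadm' P hP.1 hP.2.1)⟩)
  rw [← hc₀] at h2
  have h3 : (0 : ℝ) < (Fintype.card K : ℝ) ^ n := by positivity
  calc c₀ / 2 * (Fintype.card K : ℝ) ^ n / (m : ℝ) ^ k
      = (1 - 1 / 2) * (c₀ / (m : ℝ) ^ k) * (Fintype.card K : ℝ) ^ n := by ring
    _ ≤ _ := by
      apply mul_le_mul_of_nonneg_right _ h3.le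
      exact mul_le_mul_of_nonneg_left h2 (by norm_num)

end Pool.Agent.H542.NS.LOWI
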