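import Mathlib
import Pool.Agent.H985.Par.StmPar
import Pool.Agent.H604.FC.Stm

/-!
# Tuples near squares over `F_q[X]`, `q` even (helper542): statements of the parts

`f` runs through the monic polynomials of even degree `n`; `F = f + D²` runs through the interval
`deg (F - A²) < n` around the square of `A = X ^ (n / 2) + D`, a monic polynomial of any degree
`≥ n / 2`. With `f = a² + X b²`, `α_i = s_i² + X t_i²` one has
`f + D² + α_i = (a + D + s_i)² + X (b + t_i)²`.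
-/

set_option autoImplicit false

namespace Pool.Agent.H542.NS

open Polynomial
open scoped Classical
open Pool.Agent.H985.Chow (mob MD)
open Pool.Agent.H985.KP (PA mobg S_typ2)
open Pool.Agent.H985.FC (GP)
open Pool.Agent.H985.Par (mass Fb Sfs S_sw S_typV)
open Pool.Agent.H604.FC (S_win4)
open Pool.Agent.H694.Typ (Mn)

/-- `n` is even and `A = X ^ (n / 2) + D` is monic of degree at least `n / 2`. -/
def Cn {K : Type} [Field K] (n : ℕ) (D : K[X]) : Prop :=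
  Even n ∧ (X ^ (n / 2) + D).Monic ∧ n / 2 ≤ (X ^ (n / 2) + D).natDegree

/-- `S_winI` of helper560 (`Pool/Agent/H560/SQ/Stm.lean`, proved), literally: the product formula in a
window, for `deg Z > deg b`. -/
def S_winI : Prop :=
  ∀ (K : Type) [Field K] [Fintype K] [CharP K 2] (d L : ℕ) (c : K) (Z e h E : K[X]),
    c ≠ 0 → e.Monic → h.Monic → IsCoprime e h → Squarefree h → E ≠ 0 →
    e ^ 5 ∣ E → IsCoprime E h → 1 ≤ L → Z.Monic → Z.natDegree = d → (e * h).natDegree < d →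
    E.natDegree + (L - 1) ≤ (e * h).natDegree →
    ∃ (η : ℝ) (χ : AddChar K[X] ℝ), |η| ≤ 1 ∧ (∀ u, χ u = 1 ∨ χ u = -1) ∧
      ∀ u : K[X], u.degree < (L : WithBot ℕ) →
      (mob ((Z + E * u) ^ 2 + X * (C c * (e * h)) ^ 2) : ℝ) =
        η * (χ u * ∏ᶠ P ∈ PA h, GP (C c * (e * h)) 1 P (Z + E * u))

/-- **Task WING.**  `S_winI` of helper560 with square divisors. -/
def S_winG : Prop :=
  ∀ (K : Type) [Field K] [Fintype K] [CharP K 2] (d L : ℕ) (c : K) (Z e h E g : K[X]),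
    c ≠ 0 → e.Monic → h.Monic → IsCoprime e h → Squarefree h → g.Monic → g ∣ e → E ≠ 0 →
    e ^ 5 ∣ E → IsCoprime E h → 1 ≤ L → Z.Monic → Z.natDegree = d → (e * h).natDegree < d →
    E.natDegree + (L - 1) ≤ (e * h).natDegree →
    ∃ (η : ℝ) (χ : AddChar K[X] ℝ), |η| ≤ 1 ∧ (∀ u, χ u = 1 ∨ χ u = -1) ∧
      ∀ u : K[X], u.degree < (L : WithBot ℕ) →
      (mobg g ((Z + E * u) ^ 2 + X * (C c * (e * h)) ^ 2) : ℝ) =
        η * (χ u * ∏ᶠ P ∈ PA h, GP (C c * (e * h)) g P (Z + E * u))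

/-- Task WING. If `g ∤ Z` both sides are `0` (`g ∣ E`; `g² ∣ a² + X b²` iff `g ∣ a` and `g ∣ b`). If
`Z = g Z₁`, `e = g e₁`, `E = g E₁` then `mobg g (g² F) = mob F`, apply `S_winI` to `Z₁, e₁, h, E₁`
(`e₁ ^ 5 ∣ E₁`), and the local functions agree: `GP (g b₁) g P (g Z') = GP b₁ 1 P Z'` for `P ∣ h` (as in the
proof of `S_winF` in `Pool/Agent/H985/FC/WinF.lean`). -/
def T_wing : Prop := S_winI → S_winG

/-- **Task WIN5I.**  The window bound, `a + s i` monic of degree larger than the degree of `b`. -/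
def S_win5I : Prop :=
  ∀ k r : ℕ, ∃ M : ℝ, 1 ≤ M ∧
  ∀ (K : Type) [Field K] [Fintype K] [CharP K 2] (d L D T : ℕ) (c : Fin r → K) (a E : K[X])
    (e h' h'' : Fin r → K[X]) (s g : Fin k → K[X]) (cl : Fin k → Fin r) (j₀ : Fin r)
    (χ : AddChar K[X] ℝ),
    (∀ j, c j ≠ 0) → E ≠ 0 → 1 ≤ L →
    (∀ j, (e j).Monic ∧ (h' j).Monic ∧ (h'' j).Monic ∧ IsCoprime (e j) (h' j * h'' j) ∧
      Squarefree (h' j * h'' j) ∧ IsCoprime E (h' j * h'' j) ∧ e j ^ 5 ∣ E ∧
      (h' j).natDegree + D ≤ L ∧ (h'' j).natDegree + D ≤ L ∧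
      (e j * (h' j * h'' j)).natDegree < d ∧
      E.natDegree + (L - 1) ≤ (e j * (h' j * h'' j)).natDegree) →
    (∀ i j, i ≠ j → IsCoprime (h' i * h'' i) (h' j * h'' j)) → (∃ i, cl i = j₀) →
    (∀ i, (g i).Monic ∧ g i ∣ e (cl i)) →
    (∀ i j, i ≠ j → cl i = cl j → IsCoprime (s i - s j) (h'' (cl i))) →
    (∀ i, (a + s i).Monic ∧ (a + s i).natDegree = d) →
    L ≤ 2 * (h'' j₀).natDegree → (6 * r + 3) * T ≤ D →
    |∑ᶠ u ∈ {u : K[X] | u.degree < (L : WithBot ℕ)}, χ u * ∏ i,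
        (mobg (g i) ((a + s i + E * u) ^ 2 +
          X * (C (c (cl i)) * (e (cl i) * (h' (cl i) * h'' (cl i)))) ^ 2) : ℝ)| ^
            (2 ^ (6 * r + 1)) ≤
      M ^ (∑ j, (PA (h' j * h'' j)).ncard) * (Fintype.card K : ℝ) ^ (L * 2 ^ (6 * r + 1)) /
        (Fintype.card K : ℝ) ^ T

/-- Task WIN5I: adapt `win5c` of `Pool/Agent/H524/FC/Win5.lean` (the characters `χ_i` of the `k`
factors are multiplied into `χ`). -/
def T_win5I : Prop := S_winG → S_win4 → S_win5I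

/-- **Task FIBI.**  The typical fibre: power saving for all `b` outside a small set, uniformly in the
shifts, in progressions and in the square. -/
def S_fibI : Prop :=
  ∀ (K : Type) [Field K] [Fintype K] [CharP K 2] (k : ℕ) (ε : ℝ), 1 ≤ k → 0 < ε →
    ∃ κ θ c : ℝ, 0 < κ ∧ κ ≤ 1 / 8 ∧ 0 < θ ∧ 0 < c ∧ ∃ n₀ : ℕ, ∀ n : ℕ, n₀ ≤ n →
    ∀ (s t : Fin k → K[X]) (R : Set K[X]) (D : K[X]), Cn n D →
      Function.Injective (fun i => (s i, t i)) →
      (∀ i, (s i ^ 2 + X * t i ^ 2).natDegree < n) → mass R n ≤ θ * n →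
      ∃ Exc : Set K[X], Exc ⊆ Fb K n ∧
        (Exc.ncard : ℝ) ≤ ε * (Fintype.card K : ℝ) ^ (n / 2) ∧
        ∀ b ∈ Fb K n, b ∉ Exc → ∃ E : K[X], E.Monic ∧ (E.natDegree : ℝ) ≤ κ * n ∧
          (∀ P ∈ R, P.Monic → Irreducible P → (∃ i, P ∣ b + t i) → P ∣ E) ∧
          ∀ (M : K[X]) (g : Fin k → K[X]) (L : ℕ) (a : K[X]) (χ : AddChar K[X] ℝ),
            M ≠ 0 → E ∣ M → (M.natDegree : ℝ) ≤ 4 * κ * n →
            (∀ P : K[X], P.Monic → Irreducible P → P ∣ M → P ∣ E ∨ ∀ i, ¬ P ∣ b + t i) →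
            (∀ i, (g i).Monic ∧ ∀ P : K[X], P.Monic → Irreducible P → P ∣ g i → P ∈ R) →
            (a ^ 2 + X * b ^ 2).Monic → (a ^ 2 + X * b ^ 2).natDegree = n →
            (1 - 3 * κ) * n ≤ 2 * ((M.natDegree : ℝ) + L) →
            2 * ((M.natDegree : ℝ) + L) ≤ (1 - κ) * n →
            |∑ᶠ u ∈ {u : K[X] | u.degree < (L : WithBot ℕ)}, χ u * ∏ i,
              (mobg (g i) ((a + (D + s i) + M * u) ^ 2 + X * (b + t i) ^ 2) : ℝ)| ≤
                (Fintype.card K : ℝ) ^ ((L : ℝ) - c * n)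

/-- Task FIBI: adapt `Pool/Agent/H233/Par/FibB.lean` and `Fib.lean` (`FibA.lean` can be used as it
is, `n` is even). In `local_bound` only the conditions of the window bound change. -/
def T_fibI : Prop := S_win5I → S_typV → S_fibI

/-- **Task PARI.**  Parity in the sifted part of the interval. -/
def S_parI : Prop :=
  ∀ (K : Type) [Field K] [Fintype K] [CharP K 2] (k : ℕ) (ε : ℝ), 0 < ε →
    ∃ κ : ℝ, 0 < κ ∧ ∃ m₀ n₀ : ℕ, ∀ n : ℕ, n₀ ≤ n → ∀ m : ℕ, m₀ ≤ m → (m : ℝ) ≤ κ * n →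
      ∀ D : K[X], Cn n D → ∀ α : Fin k → K[X], Function.Injective α →
      (∀ i, (α i).natDegree < n) → ∀ S : Finset (Fin k), S.Nonempty →
        |∑ f ∈ Sfs K (fun i => D ^ 2 + α i) n m, ∏ i ∈ S, (mob (f + (D ^ 2 + α i)) : ℝ)| ≤
          ε * (Sfs K (fun i => D ^ 2 + α i) n m).card

/-- **Task LOWI.**  The number of sifted elements, and of those with a square factor. -/
def S_lowI : Prop :=
  ∀ (K : Type) [Field K] [Fintype K] [CharP K 2] (k : ℕ), ∃ c : ℝ, 0 < c ∧ ∃ A : ℕ,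
    ∀ n m : ℕ, 1 ≤ m → A * m ≤ n → ∀ D : K[X], Cn n D →
      ∀ α : Fin k → K[X], Function.Injective α → (∀ i, (α i).natDegree < n) →
      (∀ P : K[X], P.Monic → Irreducible P → ∃ r : K[X], ∀ i, ¬ P ∣ r + (D ^ 2 + α i)) →
        c * (Fintype.card K : ℝ) ^ n / (m : ℝ) ^ k ≤ (Sfs K (fun i => D ^ 2 + α i) n m).card ∧
        (((Sfs K (fun i => D ^ 2 + α i) n m).filter
          (fun f => ∃ i, ¬ Squarefree (f + (D ^ 2 + α i)))).card : ℝ) ≤
          2 * k * (Fintype.card K : ℝ) ^ n / (Fintype.card K : ℝ) ^ m +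
            k * (Fintype.card K : ℝ) ^ (n / 2)

/-- Task LOWI: adapt `Pool/Agent/H996/Par/Low.lean`. The first part of the proof does not use the
degrees of the shifts. Second part: `f + D² + α_i = (a + D + s_i)² + X (b + t_i)²`; if `P²` divides it,
`P` irreducible of degree `> m`, then `P ∣ a + D + s_i` and `P ∣ b + t_i`. At most `q ^ (n / 2)` of the `f`
have `b = t_i` (char 2); otherwise `m < deg P < n / 2` and for each monic `P` of degree `j` there are at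
most `q ^ (n - 2 j)` pairs `(a, b)`; sum over `P`: at most `q ^ n / q ^ m`. -/
def T_lowI : Prop := S_sw → S_lowI

/-- Task PARI: adapt `Pool/Agent/H225/Par/Par.lean` (the shifts `s i` become `D + s i` in the arguments
of `mob`, `ind`, `bet`, `G`; `S_lowI` instead of `S_low`, `S_fibI` instead of `S_fib`). -/
def T_parI : Prop := S_fibI → S_sw → S_lowI → S_parI

/-- **Task FULLI.**  Correlations in intervals around squares, with square divisors. -/
def S_fullI : Prop :=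
  ∀ (K : Type) [Field K] [Fintype K] [CharP K 2] (k : ℕ) (ε : ℝ), 1 ≤ k → 0 < ε →
    ∃ κ : ℝ, 0 < κ ∧ ∃ n₀ : ℕ, ∀ n : ℕ, n₀ ≤ n → ∀ (D : K[X]) (α g : Fin k → K[X]), Cn n D →
      Function.Injective α → (∀ i, (α i).natDegree < n) →
      (∀ i, (g i).Monic ∧ ((g i).natDegree : ℝ) ≤ κ * n) →
        |∑ᶠ f ∈ MD K n, ∏ i, (mobg (g i) (f + (D ^ 2 + α i)) : ℝ)| ≤
          ε * (Fintype.card K : ℝ) ^ n

/-- Task FULLI: adapt `Pool/Agent/H154/Par/AsmU.lean` (here `w = 1`, `Q = 1`). -/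
def T_fullI : Prop := S_fibI → S_fullI

end Pool.Agent.H542.NS
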