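import Mathlib
import Pool.Agent.H542.NS.Stm
import Pool.Agent.H225.Par.Par
import Pool.Agent.H985.Par.Patt

/-!
# Tuples near squares over `F_q[X]`, `q` even (helper542): intervals of all lengths
-/

set_option autoImplicit false

namespace Pool.Agent.H542.NS

open Polynomial
open scoped Classical
open Pool.Agent.H985.Chow (mob MD)
open Pool.Agent.H985.Par (Sfs Sft)
open Pool.Agent.H694.Typ (Mn mem_Mn)
open Pool.Agent.H985.Chow.Asm (G G_inj G_add G_surj ta tb mem_deg G_mem mem_G card_deg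
  window_finsum sum_MD MD_finite instFD mem_of_natDegree_lt natDegree_lt_of_mem abs_mob)

variable {K : Type} [Field K] [Fintype K] [CharP K 2]

/-- `f + D²`, `f` monic of degree `n`, is the interval around the square of `A = X ^ (n / 2) + D`. -/
theorem sum_even {n : ℕ} (hn : Even n) (A : K[X]) (T : K[X] → ℝ) :
    ∑ f ∈ Mn K n, T (f + (A - X ^ (n / 2)) ^ 2) = ∑ u : degreeLT K n, T (A ^ 2 + (u : K[X])) := by
  rw [Pool.Agent.H225.Par.sum_Mn' n (fun f => T (f + (A - X ^ (n / 2)) ^ 2))]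
  refine Finset.sum_congr rfl fun u _ => ?_
  congr 1
  obtain ⟨m, rfl⟩ := hn
  have h1 : (m + m) / 2 = m := by omega
  have h2 : (A - X ^ m) ^ 2 = A ^ 2 + X ^ (m + m) := by
    rw [CharTwo.sub_eq_add, CharTwo.add_sq]
    ring
  have h3 : (X ^ (m + m) : K[X]) + X ^ (m + m) = 0 := CharTwo.add_self_eq_zero _
  rw [h1, h2]
  linear_combination h3

theorem Cn_of {n : ℕ} (hn : Even n) {A : K[X]} (hA : A.Monic) (h : n / 2 ≤ A.natDegree) :
    Cn n (A - X ^ (n / 2)) := by
  refine ⟨hn, ?_, ?_⟩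
  · rwa [add_sub_cancel]
  · rwa [add_sub_cancel]

/-- An interval of odd exponent is a union of intervals of even exponent around squares. -/
theorem sum_odd {n : ℕ} (hn : Even n) (A : K[X]) (T : K[X] → ℝ) :
    ∑ u : degreeLT K (n + 1), T (A ^ 2 + (u : K[X])) =
      ∑ γ : K, ∑ v : degreeLT K n, T ((A + C γ * X ^ (n / 2)) ^ 2 + (v : K[X])) := by
  have hmem : ∀ p : K × degreeLT K n, C (p.1 ^ 2) * X ^ n + (p.2 : K[X]) ∈ degreeLT K (n + 1) := by
    intro p
    rw [mem_deg]
    intro i hi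
    have h1 : (p.2 : K[X]).coeff i = 0 := (mem_deg.1 p.2.2) i (by omega)
    rw [coeff_add, coeff_C_mul, coeff_X_pow, if_neg (by omega), mul_zero, h1, add_zero]
  have hbij : Function.Bijective (fun p : K × degreeLT K n =>
      (⟨C (p.1 ^ 2) * X ^ n + (p.2 : K[X]), hmem p⟩ : degreeLT K (n + 1))) := by
    rw [Fintype.bijective_iff_injective_and_card]
    constructor
    · intro p p' h
      have h1 : C (p.1 ^ 2) * X ^ n + (p.2 : K[X]) = C (p'.1 ^ 2) * X ^ n + (p'.2 : K[X]) :=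
        congrArg Subtype.val h
      have h2 : (p.2 : K[X]).coeff n = 0 := (mem_deg.1 p.2.2) n le_rfl
      have h3 : (p'.2 : K[X]).coeff n = 0 := (mem_deg.1 p'.2.2) n le_rfl
      have h4 := congrArg (fun x : K[X] => x.coeff n) h1
      simp only [coeff_add, coeff_C_mul, coeff_X_pow, if_true, mul_one, h2, h3, add_zero] at h4
      have h5 : p.1 = p'.1 := Pool.Agent.H985.Chow.Asm.sq_inj h4
      rw [h5] at h1
      exact Prod.ext h5 (Subtype.ext (add_left_cancel h1))
    · rw [Fintype.card_prod, card_deg, card_deg]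
      ring
  rw [← Fintype.sum_prod_type']
  symm
  refine Fintype.sum_bijective _ hbij _ _ fun p => ?_
  congr 1
  obtain ⟨m, rfl⟩ := hn
  have h1 : (m + m) / 2 = m := by omega
  simp only [h1]
  rw [CharTwo.add_sq, C_pow]
  ring

theorem monic_add {m : ℕ} {A : K[X]} (hA : A.Monic) (h : m < A.natDegree) (γ : K) :
    (A + C γ * X ^ m).Monic ∧ (A + C γ * X ^ m).natDegree = A.natDegree := by
  have h1 : (C γ * X ^ m : K[X]).natDegree < A.natDegree :=
    (natDegree_C_mul_X_pow_le γ m).trans_lt h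
  refine ⟨hA.add_of_left (degree_lt_degree h1), natDegree_add_eq_left_of_natDegree_lt h1⟩

theorem half_cases (h : ℕ) : (h = 2 * (h / 2)) ∨ h = 2 * (h / 2) + 1 := by omega

/-- From even to all exponents: upper bounds. -/
theorem lift_abs {h : ℕ} {A : K[X]} (hA : A.Monic) (hd : h ≤ 2 * A.natDegree) (T U : K[X] → ℝ)
    (ε : ℝ)
    (H : ∀ A' : K[X], A'.Monic → A'.natDegree = A.natDegree →
      |∑ v : degreeLT K (2 * (h / 2)), T (A' ^ 2 + (v : K[X]))| ≤
        ε * ∑ v : degreeLT K (2 * (h / 2)), U (A' ^ 2 + (v : K[X]))) :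
    |∑ u : degreeLT K h, T (A ^ 2 + (u : K[X]))| ≤
      ε * ∑ u : degreeLT K h, U (A ^ 2 + (u : K[X])) := by
  obtain ⟨m, hm⟩ : ∃ m, m = h / 2 := ⟨_, rfl⟩
  rw [← hm] at H
  rcases half_cases h with h1 | h1
  · rw [← hm] at h1
    rw [h1]
    exact H A hA rfl
  · rw [← hm] at h1
    subst h1
    have he : Even (2 * m) := even_two_mul m
    rw [sum_odd he A T, sum_odd he A U, Finset.mul_sum]
    refine (Finset.abs_sum_le_sum_abs _ _).trans (Finset.sum_le_sum fun γ _ => ?_)
    have h2 : 2 * m / 2 = m := by omega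
    rw [h2]
    obtain ⟨h3, h4⟩ := monic_add (m := m) hA (by omega) γ
    exact H _ h3 h4

/-- From even to all exponents: lower bounds. -/
theorem lift_low {h : ℕ} {A : K[X]} (hA : A.Monic) (hd : h ≤ 2 * A.natDegree) (T : K[X] → ℝ)
    (B : ℝ)
    (H : ∀ A' : K[X], A'.Monic → A'.natDegree = A.natDegree →
      B * (Fintype.card K : ℝ) ^ (2 * (h / 2)) ≤
        ∑ v : degreeLT K (2 * (h / 2)), T (A' ^ 2 + (v : K[X]))) :
    B * (Fintype.card K : ℝ) ^ h ≤ ∑ u : degreeLT K h, T (A ^ 2 + (u : K[X])) := by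
  obtain ⟨m, hm⟩ : ∃ m, m = h / 2 := ⟨_, rfl⟩
  rw [← hm] at H
  rcases half_cases h with h1 | h1
  · rw [← hm] at h1
    rw [h1]
    exact H A hA rfl
  · rw [← hm] at h1
    subst h1
    have he : Even (2 * m) := even_two_mul m
    rw [sum_odd he A T]
    have h2 : 2 * m / 2 = m := by omega
    rw [h2]
    calc B * (Fintype.card K : ℝ) ^ (2 * m + 1) =
        ∑ _γ : K, B * (Fintype.card K : ℝ) ^ (2 * m) := by
          rw [Finset.sum_const, Finset.card_univ, nsmul_eq_mul]
          ring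
      _ ≤ _ := by
          refine Finset.sum_le_sum fun γ _ => ?_
          obtain ⟨h3, h4⟩ := monic_add (m := m) hA (by omega) γ
          exact H _ h3 h4

/-- The interval as a set. -/
def Iv {K : Type} [Field K] (A : K[X]) (h : ℕ) : Set K[X] :=
  {F | (F - A ^ 2).degree < (h : WithBot ℕ)}

theorem ncard_Iv (A : K[X]) (h : ℕ) (p : K[X] → Prop) :
    ({F : K[X] | F ∈ Iv A h ∧ p F}.ncard : ℝ) =
      ∑ u : degreeLT K h, (if p (A ^ 2 + (u : K[X])) then (1 : ℝ) else 0) := by
  have h1 : {F : K[X] | F ∈ Iv A h ∧ p F} =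
      (((Finset.univ : Finset (degreeLT K h)).filter
        (fun u : degreeLT K h => p (A ^ 2 + (u : K[X])))).image
        (fun u : degreeLT K h => A ^ 2 + (u : K[X])) : Finset K[X]) := by
    ext F
    simp only [Set.mem_setOf_eq, Finset.coe_image, Finset.coe_filter, Finset.mem_univ, true_and,
      Set.mem_image, Iv]
    constructor
    · rintro ⟨h1, h2⟩
      refine ⟨⟨F - A ^ 2, mem_degreeLT.2 h1⟩, ?_, ?_⟩
      · simp only [add_sub_cancel]
        exact h2
      · simp
    · rintro ⟨u, h1, rfl⟩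
      refine ⟨?_, h1⟩
      rw [add_sub_cancel_left]
      exact mem_degreeLT.1 u.2
  rw [h1, Set.ncard_coe_finset, Finset.card_image_of_injective _
    (fun u v huv => Subtype.ext (add_left_cancel huv)), Finset.card_filter]
  push_cast
  rfl

theorem card_Sfs_filter {k : ℕ} {n : ℕ} (hn : Even n) (A : K[X]) (α : Fin k → K[X]) (m : ℕ)
    (p P : K[X] → Prop) (hP : ∀ F, P F ↔ (∀ i, Sft m (F + α i)) ∧ p F) :
    (((Sfs K (fun i => (A - X ^ (n / 2)) ^ 2 + α i) n m).filter
      (fun f => p (f + (A - X ^ (n / 2)) ^ 2))).card : ℝ) =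
      ∑ u : degreeLT K n, (if P (A ^ 2 + (u : K[X])) then (1 : ℝ) else 0) := by
  rw [← sum_even hn A (fun F => if P F then (1 : ℝ) else 0)]
  unfold Sfs
  rw [Finset.filter_filter, Finset.card_filter]
  push_cast
  refine Finset.sum_congr rfl fun f _ => ?_
  have h1 : ((∀ i, Sft m (f + ((A - X ^ (n / 2)) ^ 2 + α i))) ∧ p (f + (A - X ^ (n / 2)) ^ 2)) ↔
      P (f + (A - X ^ (n / 2)) ^ 2) := by
    rw [hP]
    simp only [add_assoc]
  by_cases h : P (f + (A - X ^ (n / 2)) ^ 2)
  · rw [if_pos h, if_pos (h1.2 h)]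
  · rw [if_neg h, if_neg (mt h1.1 h)]

end Pool.Agent.H542.NS
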