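import Mathlib
import Pool.Agent.H542.NS.Lift

/-!
# Tuples near squares over `F_q[X]`, `q` even (helper542): sign patterns in sifted sets
-/

set_option autoImplicit false

namespace Pool.Agent.H542.NS

open Polynomial Filter Topology
open scoped Classical
open Pool.Agent.H985.Chow (mob MD)
open Pool.Agent.H985.Par (Sfs Sft patt_aux Sfs_empty)
open Pool.Agent.H694.Typ (Mn mem_Mn)
open Pool.Agent.H985.Chow.Asm (card_deg instFD)

/-- **Equidistribution of the sign patterns** in the sifted sets around squares. -/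
theorem pattI (hpar : S_parI) (hlow : S_lowI) (K : Type) [Field K] [Fintype K] [CharP K 2] (k : ℕ)
    (ε : ℝ) (hε : 0 < ε) :
    ∃ κ : ℝ, 0 < κ ∧ ∃ m₀ n₀ : ℕ, ∀ n : ℕ, n₀ ≤ n → ∀ m : ℕ, m₀ ≤ m → (m : ℝ) ≤ κ * n →
      ∀ D : K[X], Cn n D → ∀ α : Fin k → K[X], Function.Injective α →
      (∀ i, (α i).natDegree < n) → ∀ σ : Fin k → ℤ, (∀ i, σ i = 1 ∨ σ i = -1) →
        |(((Sfs K (fun i => D ^ 2 + α i) n m).filter
            (fun f => ∀ i, mob (f + (D ^ 2 + α i)) = σ i)).card : ℝ) -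
          (Sfs K (fun i => D ^ 2 + α i) n m).card / 2 ^ k| ≤
            ε * (Sfs K (fun i => D ^ 2 + α i) n m).card := by
  obtain ⟨κ, hκ, m₀, n₀, hpar⟩ := hpar K k (ε / 2) (by positivity)
  obtain ⟨c, hc, A, hlow⟩ := hlow K k
  have hq : (2 : ℝ) ≤ (Fintype.card K : ℝ) := by exact_mod_cast Fintype.one_lt_card
  have hlim : Tendsto (fun m : ℕ => 2 * k * ((m : ℝ) ^ k / (2 : ℝ) ^ m)) atTop (𝓝 0) := by
    have h1 := tendsto_pow_const_div_const_pow_of_one_lt k (show (1 : ℝ) < 2 by norm_num)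
    simpa using h1.const_mul (2 * (k : ℝ))
  obtain ⟨m₁, hm₁⟩ := (Metric.tendsto_atTop.1 hlim (c * (ε / 4)) (by positivity))
  -- `k n ^ k / q ^ (n / 2)` is small
  have hlim2 : Tendsto (fun j : ℕ => k * ((2 : ℝ) ^ k * (((j : ℝ) + 1) ^ k / (2 : ℝ) ^ j))) atTop
      (𝓝 0) := by
    have h1 := tendsto_pow_const_div_const_pow_of_one_lt k (show (1 : ℝ) < 2 by norm_num)
    have h2 := ((tendsto_add_atTop_iff_nat 1).2 h1).const_mul (2 * ((k : ℝ) * (2 : ℝ) ^ k))
    simp only [mul_zero] at h2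
    refine h2.congr fun j => ?_
    push_cast
    rw [pow_succ]
    field_simp
  obtain ⟨j₁, hj₁⟩ := (Metric.tendsto_atTop.1 hlim2 (c * (ε / 4)) (by positivity))
  refine ⟨min κ (1 / (A + 1)), lt_min hκ (by positivity), max (max m₀ m₁) (k + 1),
    n₀ + 2 * j₁ + 2, fun n hn m hm hmκ D hD α hα hdeg σ hσ => ?_⟩
  have hm0 : m₀ ≤ m := le_trans (le_max_left _ _) (le_trans (le_max_left _ _) hm)
  have hm1 : m₁ ≤ m := le_trans (le_max_right _ _) (le_trans (le_max_left _ _) hm)
  have hmk : k + 1 ≤ m := le_trans (le_max_right _ _) hm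
  by_cases hadm : ∀ P : K[X], P.Monic → Irreducible P → ∃ r : K[X], ∀ i, ¬ P ∣ r + (D ^ 2 + α i)
  · have h1 := patt_aux (fun i => D ^ 2 + α i) n m σ hσ (ε / 2) (by positivity)
      (hpar n (by omega) m hm0
        (hmκ.trans (mul_le_mul_of_nonneg_right (min_le_left _ _) (by positivity))) D hD α hα hdeg)
    have hAm' : ((A : ℝ) + 1) * m ≤ n := by
      have h2 : (m : ℝ) ≤ 1 / (A + 1) * n :=
        hmκ.trans (mul_le_mul_of_nonneg_right (min_le_right _ _) (by positivity))
      calc ((A : ℝ) + 1) * m ≤ (A + 1) * (1 / (A + 1) * n) :=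
            mul_le_mul_of_nonneg_left h2 (by positivity)
        _ = n := by field_simp
    have hAm : A * m ≤ n := by
      have h4 : (A + 1) * m ≤ n := by exact_mod_cast hAm'
      nlinarith
    have hmn : (m : ℝ) ≤ n := by
      have h5 : (0 : ℝ) ≤ (A : ℝ) * m := by positivity
      linarith
    obtain ⟨l1, l2⟩ := hlow n m (by omega) hAm D hD α hα hdeg hadm
    have hmpos : (0 : ℝ) < (m : ℝ) := by
      have : 0 < m := by omega
      exact_mod_cast this
    have h5 : (((Sfs K (fun i => D ^ 2 + α i) n m).filter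
        (fun f => ∃ i, ¬ Squarefree (f + (D ^ 2 + α i)))).card : ℝ) ≤
        ε / 2 * (Sfs K (fun i => D ^ 2 + α i) n m).card := by
      refine l2.trans ?_
      have h6 := hm₁ m hm1
      rw [Real.dist_eq, sub_zero] at h6
      have h7 := (le_abs_self _).trans h6.le
      have h8 : (2 : ℝ) ^ m ≤ (Fintype.card K : ℝ) ^ m := pow_le_pow_left₀ (by norm_num) hq m
      have h9 : 2 * (k : ℝ) * (Fintype.card K : ℝ) ^ n / (Fintype.card K : ℝ) ^ m ≤
          ε / 4 * (c * (Fintype.card K : ℝ) ^ n / (m : ℝ) ^ k) := by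
        have h10 : 2 * (k : ℝ) / (Fintype.card K : ℝ) ^ m ≤ c * (ε / 4) / (m : ℝ) ^ k := by
          rw [div_le_div_iff₀ (by positivity) (by positivity)]
          have h11 : 2 * (k : ℝ) * (m : ℝ) ^ k ≤ c * (ε / 4) * 2 ^ m := by
            have h12 : 2 * (k : ℝ) * ((m : ℝ) ^ k / 2 ^ m) * 2 ^ m ≤ c * (ε / 4) * 2 ^ m :=
              mul_le_mul_of_nonneg_right h7 (by positivity)
            refine le_trans (le_of_eq ?_) h12
            field_simp
          exact h11.trans (mul_le_mul_of_nonneg_left h8 (by positivity))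
        calc 2 * (k : ℝ) * (Fintype.card K : ℝ) ^ n / (Fintype.card K : ℝ) ^ m
            = 2 * (k : ℝ) / (Fintype.card K : ℝ) ^ m * (Fintype.card K : ℝ) ^ n := by ring
          _ ≤ c * (ε / 4) / (m : ℝ) ^ k * (Fintype.card K : ℝ) ^ n :=
              mul_le_mul_of_nonneg_right h10 (by positivity)
          _ = _ := by ring
      have h13 : (k : ℝ) * (Fintype.card K : ℝ) ^ (n / 2) ≤
          ε / 4 * (c * (Fintype.card K : ℝ) ^ n / (m : ℝ) ^ k) := by
        obtain ⟨j, hj⟩ : ∃ j, j = n / 2 := ⟨_, rfl⟩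
        have hnj : n = j + j := by
          obtain ⟨m', hm'⟩ := hD.1
          omega
        have h14 := hj₁ j (by omega)
        rw [Real.dist_eq, sub_zero] at h14
        have h15 := (le_abs_self _).trans h14.le
        have h16 : (m : ℝ) ^ k ≤ (2 : ℝ) ^ k * ((j : ℝ) + 1) ^ k := by
          rw [← mul_pow]
          apply pow_le_pow_left₀ hmpos.le
          refine hmn.trans ?_
          rw [hnj]
          push_cast
          linarith
        have h17 : (2 : ℝ) ^ j ≤ (Fintype.card K : ℝ) ^ j := pow_le_pow_left₀ (by norm_num) hq j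
        have h18 : (k : ℝ) * ((2 : ℝ) ^ k * ((j : ℝ) + 1) ^ k) ≤ c * (ε / 4) * 2 ^ j := by
          have h19 : k * ((2 : ℝ) ^ k * (((j : ℝ) + 1) ^ k / (2 : ℝ) ^ j)) * 2 ^ j ≤
              c * (ε / 4) * 2 ^ j := mul_le_mul_of_nonneg_right h15 (by positivity)
          refine le_trans (le_of_eq ?_) h19
          field_simp
        have h20 : (k : ℝ) * (m : ℝ) ^ k ≤ c * (ε / 4) * (Fintype.card K : ℝ) ^ j := by
          refine (mul_le_mul_of_nonneg_left h16 (Nat.cast_nonneg k)).trans (h18.trans ?_)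
          exact mul_le_mul_of_nonneg_left h17 (by positivity)
        rw [← hj]
        have h21 : (Fintype.card K : ℝ) ^ n = (Fintype.card K : ℝ) ^ j * (Fintype.card K : ℝ) ^ j := by
          rw [hnj, pow_add]
        rw [h21, mul_div_assoc', le_div_iff₀ (by positivity)]
        have h22 : (0 : ℝ) ≤ (Fintype.card K : ℝ) ^ j := by positivity
        calc (k : ℝ) * (Fintype.card K : ℝ) ^ j * (m : ℝ) ^ k =
            ((k : ℝ) * (m : ℝ) ^ k) * (Fintype.card K : ℝ) ^ j := by ring
          _ ≤ (c * (ε / 4) * (Fintype.card K : ℝ) ^ j) * (Fintype.card K : ℝ) ^ j :=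
              mul_le_mul_of_nonneg_right h20 h22
          _ = _ := by ring
      have h23 : ε / 4 * (c * (Fintype.card K : ℝ) ^ n / (m : ℝ) ^ k) ≤
          ε / 4 * (Sfs K (fun i => D ^ 2 + α i) n m).card :=
        mul_le_mul_of_nonneg_left l1 (by positivity)
      linarith
    linarith
  · push Not at hadm
    obtain ⟨P, hP, hPi, hobs⟩ := hadm
    rw [Sfs_empty (fun i => D ^ 2 + α i) hP hPi hobs (by omega)]
    simp

end Pool.Agent.H542.NS
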