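import Mathlib
import Pool.Agent.H542.NS.Patt
import Pool.Agent.H985.Par.Few

/-!
# Tuples near squares over `F_q[X]`, `q` even (helper542): almost primes with prescribed parities
-/

set_option autoImplicit false

namespace Pool.Agent.H542.NS

open Polynomial Filter Topology
open scoped Classical
open Pool.Agent.H985.Chow (mob MD)
open Pool.Agent.H985.Par (Sfs Sft Sft_irr factors_le)
open Pool.Agent.H694.Typ (Mn mem_Mn)
open Pool.Agent.H985.Chow.Asm (card_deg instFD)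
open UniqueFactorizationMonoid (factors)

theorem fewI (hpar : S_parI) (hlow : S_lowI) (K : Type) [Field K] [Fintype K] [CharP K 2] (k : ℕ) :
    ∃ κ c : ℝ, 0 < κ ∧ 0 < c ∧ ∃ n₀ : ℕ, ∀ n : ℕ, n₀ ≤ n → ∀ D : K[X], Cn n D →
      ∀ α : Fin k → K[X], Function.Injective α → (∀ i, (α i).natDegree < n) →
      (∀ P : K[X], P.Monic → Irreducible P → ∃ r : K[X], ∀ i, ¬ P ∣ r + (D ^ 2 + α i)) →
      ∀ σ : Fin k → ℤ, (∀ i, σ i = 1 ∨ σ i = -1) →
        c * (Fintype.card K : ℝ) ^ n / (n : ℝ) ^ k ≤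
          (((Sfs K (fun i => D ^ 2 + α i) n ⌊κ * n⌋₊).filter
            (fun f => ∀ i, mob (f + (D ^ 2 + α i)) = σ i)).card : ℝ) := by
  obtain ⟨κ, hκ, m₀, n₀, hp⟩ := pattI hpar hlow K k (1 / 2 / 2 ^ k) (by positivity)
  obtain ⟨c, hc, A, hlow⟩ := hlow K k
  obtain ⟨κ', hκ'⟩ : ∃ κ' : ℝ, κ' = min κ (1 / (A + 1)) := ⟨_, rfl⟩
  have hκ'0 : 0 < κ' := by rw [hκ']; exact lt_min hκ (by positivity)
  refine ⟨κ', c / 2 / 2 ^ k, hκ'0, by positivity, max n₀ ⌈((m₀ : ℝ) + 2) / κ'⌉₊, ?_⟩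
  intro n hn D hD α hα hdeg hadm σ hσ
  have hn0 : n₀ ≤ n := le_trans (le_max_left _ _) hn
  have hn1 : ((m₀ : ℝ) + 2) / κ' ≤ n := by
    have h1 : ⌈((m₀ : ℝ) + 2) / κ'⌉₊ ≤ n := le_trans (le_max_right _ _) hn
    exact (Nat.le_ceil _).trans (by exact_mod_cast h1)
  have hn2 : (m₀ : ℝ) + 2 ≤ κ' * n := by
    rw [div_le_iff₀ hκ'0] at hn1
    linarith
  obtain ⟨m, hm⟩ : ∃ m : ℕ, m = ⌊κ' * n⌋₊ := ⟨_, rfl⟩
  rw [← hm]
  have hm1 : (m : ℝ) ≤ κ' * n := by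
    rw [hm]
    exact Nat.floor_le (by positivity)
  have hm2 : κ' * n < (m : ℝ) + 1 := by
    rw [hm]
    exact Nat.lt_floor_add_one _
  have hm3 : m₀ + 1 ≤ m := by
    have : (m₀ : ℝ) + 1 < (m : ℝ) := by linarith
    have h : m₀ + 1 < m := by exact_mod_cast this
    omega
  have hmκ : (m : ℝ) ≤ κ * n := hm1.trans
    (mul_le_mul_of_nonneg_right (by rw [hκ']; exact min_le_left _ _) (by positivity))
  have hAm' : ((A : ℝ) + 1) * m ≤ n := by
    have h2 : (m : ℝ) ≤ 1 / (A + 1) * n := hm1.trans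
      (mul_le_mul_of_nonneg_right (by rw [hκ']; exact min_le_right _ _) (by positivity))
    calc ((A : ℝ) + 1) * m ≤ (A + 1) * (1 / (A + 1) * n) :=
          mul_le_mul_of_nonneg_left h2 (by positivity)
      _ = n := by field_simp
  have hAm : A * m ≤ n := by
    have h4 : (A + 1) * m ≤ n := by exact_mod_cast hAm'
    nlinarith
  have hmn : (m : ℝ) ≤ n := by
    have h4 : (0 : ℝ) ≤ (A : ℝ) * m := by positivity
    linarith
  obtain ⟨l1, -⟩ := hlow n m (by omega) hAm D hD α hα hdeg hadm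
  have h5 := hp n hn0 m (by omega) hmκ D hD α hα hdeg σ hσ
  rw [abs_le] at h5
  have hmpos : (0 : ℝ) < m := by
    have : 0 < m := by omega
    exact_mod_cast this
  have h6 : c * (Fintype.card K : ℝ) ^ n / (n : ℝ) ^ k ≤
      (Sfs K (fun i => D ^ 2 + α i) n m).card := by
    refine le_trans ?_ l1
    exact div_le_div_of_nonneg_left (by positivity) (by positivity)
      (pow_le_pow_left₀ hmpos.le hmn k)
  have e1 : c / 2 / 2 ^ k * (Fintype.card K : ℝ) ^ n / (n : ℝ) ^ k =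
      (1 / 2 / 2 ^ k) * (c * (Fintype.card K : ℝ) ^ n / (n : ℝ) ^ k) := by ring
  have e2 : ((Sfs K (fun i => D ^ 2 + α i) n m).card : ℝ) / 2 ^ k -
      1 / 2 / 2 ^ k * (Sfs K (fun i => D ^ 2 + α i) n m).card =
      1 / 2 / 2 ^ k * (Sfs K (fun i => D ^ 2 + α i) n m).card := by ring
  rw [e1]
  have e3 := mul_le_mul_of_nonneg_left h6 (show (0 : ℝ) ≤ 1 / 2 / 2 ^ k by positivity)
  linarith [h5.1]

/-- Translation of the admissibility. -/
theorem adm_shift {K : Type} [Field K] {k : ℕ} {α : Fin k → K[X]} (D : K[X])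
    (h : ∀ P : K[X], P.Monic → Irreducible P → ∃ x : K[X], ∀ i, ¬ P ∣ x + α i) :
    ∀ P : K[X], P.Monic → Irreducible P → ∃ r : K[X], ∀ i, ¬ P ∣ r + (D + α i) := by
  intro P hP hPi
  obtain ⟨x, hx⟩ := h P hP hPi
  refine ⟨x - D, fun i hi => hx i ?_⟩
  have e : x - D + (D + α i) = x + α i := by ring
  rwa [e] at hi

/-- **Almost prime tuples with prescribed parities in every interval around every square.** -/
theorem fewH (hpar : S_parI) (hlow : S_lowI) (K : Type) [Field K] [Fintype K] [CharP K 2] (k : ℕ) :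
    ∃ κ c : ℝ, 0 < κ ∧ 0 < c ∧ ∃ H : ℕ, ∀ h : ℕ, H ≤ h → ∀ A : K[X], A.Monic →
      h ≤ 2 * A.natDegree →
      ∀ α : Fin k → K[X], Function.Injective α → (∀ i, (α i).natDegree < 2 * (h / 2)) →
      (∀ P : K[X], P.Monic → Irreducible P → ∃ x : K[X], ∀ i, ¬ P ∣ x + α i) →
      ∀ σ : Fin k → ℤ, (∀ i, σ i = 1 ∨ σ i = -1) →
        c * (Fintype.card K : ℝ) ^ h / (h : ℝ) ^ k ≤
          ({F : K[X] | F ∈ Iv A h ∧ ∀ i, mob (F + α i) = σ i ∧
            κ * h * (Multiset.card (factors (F + α i)) : ℝ) ≤ 2 * A.natDegree ∧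
              ∀ P : K[X], Irreducible P → P ∣ F + α i → κ * h ≤ P.natDegree}.ncard : ℝ) := by
  obtain ⟨κ, c, hκ, hc, n₀, h0⟩ := fewI hpar hlow K k
  refine ⟨κ / 2, c, by positivity, hc, n₀ + 2, ?_⟩
  intro h hh A hA hd α hα hdeg hadm σ hσ
  have hq0 : (0 : ℝ) < Fintype.card K := by exact_mod_cast Fintype.card_pos
  obtain ⟨m, hm⟩ : ∃ m, m = h / 2 := ⟨_, rfl⟩
  have hm1 : 1 ≤ m := by omega
  have hhm : h ≤ 2 * m + 1 := by omega
  have hmh : 2 * m ≤ h := by omega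
  have hh0 : (0 : ℝ) < h := by exact_mod_cast (by omega : 0 < h)
  -- passage to the weaker condition
  have hκh : κ / 2 * h ≤ (⌊κ * ((2 * m : ℕ) : ℝ)⌋₊ : ℝ) + 1 := by
    have h1 : κ * ((2 * m : ℕ) : ℝ) < (⌊κ * ((2 * m : ℕ) : ℝ)⌋₊ : ℝ) + 1 :=
      Nat.lt_floor_add_one _
    have h2 : (h : ℝ) ≤ 2 * ((2 * m : ℕ) : ℝ) := by exact_mod_cast (by omega : h ≤ 2 * (2 * m))
    have h3 : κ / 2 * h ≤ κ / 2 * (2 * ((2 * m : ℕ) : ℝ)) :=
      mul_le_mul_of_nonneg_left h2 (by positivity)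
    linarith
  obtain ⟨p, hp⟩ : ∃ p : K[X] → Prop, ∀ F, p F ↔ (∀ i, mob (F + α i) = σ i ∧
            κ / 2 * h * (Multiset.card (factors (F + α i)) : ℝ) ≤ 2 * A.natDegree ∧
              ∀ P : K[X], Irreducible P → P ∣ F + α i → κ / 2 * h ≤ P.natDegree) :=
    ⟨_, fun _ => Iff.rfl⟩
  have hset : {F : K[X] | F ∈ Iv A h ∧ ∀ i, mob (F + α i) = σ i ∧
            κ / 2 * h * (Multiset.card (factors (F + α i)) : ℝ) ≤ 2 * A.natDegree ∧
              ∀ P : K[X], Irreducible P → P ∣ F + α i → κ / 2 * h ≤ P.natDegree} =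
      {F : K[X] | F ∈ Iv A h ∧ p F} := by
    ext F
    simp only [Set.mem_setOf_eq, hp]
  rw [hset, ncard_Iv]
  have e1 : c * (Fintype.card K : ℝ) ^ h / (h : ℝ) ^ k =
      (c / (h : ℝ) ^ k) * (Fintype.card K : ℝ) ^ h := by ring
  rw [e1]
  refine lift_low hA hd (fun F => if p F then (1 : ℝ) else 0) _ ?_
  intro A' hA' hd'
  rw [← hm] at hdeg ⊢
  have heven : Even (2 * m) := even_two_mul m
  have hC : Cn (2 * m) (A' - X ^ (2 * m / 2)) := Cn_of heven hA' (by omega)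
  have h1 := h0 (2 * m) (by omega) (A' - X ^ (2 * m / 2)) hC α hα hdeg (adm_shift _ hadm) σ hσ
  obtain ⟨p', hp'⟩ : ∃ p' : K[X] → Prop, ∀ F, p' F ↔
      ((∀ i, Sft ⌊κ * ((2 * m : ℕ) : ℝ)⌋₊ (F + α i)) ∧ ∀ i, mob (F + α i) = σ i) :=
    ⟨_, fun _ => Iff.rfl⟩
  have h2 := card_Sfs_filter heven A' α ⌊κ * ((2 * m : ℕ) : ℝ)⌋₊
    (fun F => ∀ i, mob (F + α i) = σ i) p' hp'
  have h3 : (((Sfs K (fun i => (A' - X ^ (2 * m / 2)) ^ 2 + α i) (2 * m)
      ⌊κ * ((2 * m : ℕ) : ℝ)⌋₊).filter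
      (fun f => ∀ i, mob (f + ((A' - X ^ (2 * m / 2)) ^ 2 + α i)) = σ i)).card : ℝ) =
      ∑ u : degreeLT K (2 * m), (if p' (A' ^ 2 + (u : K[X])) then (1 : ℝ) else 0) := by
    rw [← h2]
    simp only [add_assoc]
  rw [h3] at h1
  have h4 : c / (h : ℝ) ^ k * (Fintype.card K : ℝ) ^ (2 * m) ≤
      c * (Fintype.card K : ℝ) ^ (2 * m) / ((2 * m : ℕ) : ℝ) ^ k := by
    have h5 : (0 : ℝ) < ((2 * m : ℕ) : ℝ) := by exact_mod_cast (by omega : 0 < 2 * m)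
    have h6 : ((2 * m : ℕ) : ℝ) ^ k ≤ (h : ℝ) ^ k :=
      pow_le_pow_left₀ h5.le (by exact_mod_cast hmh) k
    have h7 : c / (h : ℝ) ^ k ≤ c / ((2 * m : ℕ) : ℝ) ^ k :=
      div_le_div_of_nonneg_left hc.le (by positivity) h6
    calc c / (h : ℝ) ^ k * (Fintype.card K : ℝ) ^ (2 * m) ≤
        c / ((2 * m : ℕ) : ℝ) ^ k * (Fintype.card K : ℝ) ^ (2 * m) :=
          mul_le_mul_of_nonneg_right h7 (by positivity)
      _ = _ := by ring
  refine h4.trans (h1.trans (Finset.sum_le_sum fun u _ => ?_))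
  by_cases hcase : p' (A' ^ 2 + (u : K[X]))
  · rw [if_pos hcase, if_pos]
    rw [hp]
    rw [hp'] at hcase
    intro i
    obtain ⟨hs, hmob⟩ := hcase
    have hud : ((u : K[X]) + α i).degree < (A' ^ 2).degree := by
      have e2 : (A' ^ 2).degree = ((2 * A'.natDegree : ℕ) : WithBot ℕ) := by
        rw [degree_eq_natDegree (hA'.pow 2).ne_zero, natDegree_pow]
      rw [e2]
      refine (degree_add_le _ _).trans_lt (max_lt ?_ ?_)
      · refine (mem_degreeLT.1 u.2).trans_le ?_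
        exact_mod_cast (by omega : 2 * m ≤ 2 * A'.natDegree)
      · refine degree_le_natDegree.trans_lt ?_
        have := hdeg i
        exact_mod_cast (by omega : (α i).natDegree < 2 * A'.natDegree)
    have hmon : (A' ^ 2 + (u : K[X]) + α i).Monic := by
      rw [add_assoc]
      exact (hA'.pow 2).add_of_left hud
    have hnd : (A' ^ 2 + (u : K[X]) + α i).natDegree = 2 * A.natDegree := by
      rw [add_assoc, natDegree_add_eq_left_of_degree_lt hud, natDegree_pow, hd']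
    refine ⟨hmob i, ?_, fun P hP hPd => ?_⟩
    · have h8 := factors_le hmon.ne_zero hnd.le (hs i)
      have h9 : (Multiset.card (factors (A' ^ 2 + (u : K[X]) + α i)) : ℝ) *
          ((⌊κ * ((2 * m : ℕ) : ℝ)⌋₊ : ℝ) + 1) ≤ 2 * A.natDegree := by exact_mod_cast h8
      have h10 : (0 : ℝ) ≤ (Multiset.card (factors (A' ^ 2 + (u : K[X]) + α i)) : ℝ) :=
        Nat.cast_nonneg _
      have h11 := mul_le_mul_of_nonneg_left hκh h10
      linarith
    · have h8 := Sft_irr (hs i) hP hPd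
      have h9 : (⌊κ * ((2 * m : ℕ) : ℝ)⌋₊ : ℝ) + 1 ≤ P.natDegree := by exact_mod_cast h8
      linarith
  · rw [if_neg hcase]
    split_ifs <;> norm_num

/-- The sifted part of the interval. -/
def SfH {K : Type} [Field K] {k : ℕ} (A : K[X]) (α : Fin k → K[X]) (h m : ℕ) : Set K[X] :=
  {F | F ∈ Iv A h ∧ ∀ i, Sft m (F + α i)}

/-- **Equidistribution of the parity patterns** in the sifted part of every interval around every
square. -/
theorem pattH (hpar : S_parI) (hlow : S_lowI) (K : Type) [Field K] [Fintype K] [CharP K 2] (k : ℕ)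
    (ε : ℝ) (hε : 0 < ε) :
    ∃ κ : ℝ, 0 < κ ∧ ∃ M H : ℕ, ∀ h m : ℕ, H ≤ h → M ≤ m → (m : ℝ) ≤ κ * h → ∀ A : K[X], A.Monic →
      h ≤ 2 * A.natDegree →
      ∀ α : Fin k → K[X], Function.Injective α → (∀ i, (α i).natDegree < 2 * (h / 2)) →
      ∀ σ : Fin k → ℤ, (∀ i, σ i = 1 ∨ σ i = -1) →
        |((SfH A α h m ∩ {F | ∀ i, mob (F + α i) = σ i}).ncard : ℝ) -
          (SfH A α h m).ncard / 2 ^ k| ≤ ε * (SfH A α h m).ncard := by
  obtain ⟨κ, hκ, M, n₀, h0⟩ := pattI hpar hlow K k ε hε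
  refine ⟨κ / 2, by positivity, M, n₀ + 2, ?_⟩
  intro h m hh hm hmκ A hA hd α hα hdeg σ hσ
  obtain ⟨l, hl⟩ : ∃ l, l = h / 2 := ⟨_, rfl⟩
  obtain ⟨p, hp⟩ : ∃ p : K[X] → Prop, ∀ F, p F ↔
      ((∀ i, Sft m (F + α i)) ∧ ∀ i, mob (F + α i) = σ i) := ⟨_, fun _ => Iff.rfl⟩
  obtain ⟨p', hp'⟩ : ∃ p' : K[X] → Prop, ∀ F, p' F ↔ ((∀ i, Sft m (F + α i)) ∧ True) :=
    ⟨_, fun _ => Iff.rfl⟩
  have e1 : SfH A α h m ∩ {F | ∀ i, mob (F + α i) = σ i} = {F | F ∈ Iv A h ∧ p F} := by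
    ext F
    simp only [SfH, Set.mem_inter_iff, Set.mem_setOf_eq, and_assoc, hp]
  have e2 : SfH A α h m = {F | F ∈ Iv A h ∧ p' F} := by
    ext F
    simp only [SfH, Set.mem_setOf_eq, hp', and_true]
  rw [e1, e2, ncard_Iv, ncard_Iv]
  have e3 : (∑ u : degreeLT K h, (if p (A ^ 2 + (u : K[X])) then (1 : ℝ) else 0)) -
      (∑ u : degreeLT K h, (if p' (A ^ 2 + (u : K[X])) then (1 : ℝ) else 0)) / 2 ^ k =
      ∑ u : degreeLT K h, ((if p (A ^ 2 + (u : K[X])) then (1 : ℝ) else 0) -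
        (if p' (A ^ 2 + (u : K[X])) then (1 : ℝ) else 0) / 2 ^ k) := by
    rw [Finset.sum_sub_distrib, Finset.sum_div]
  rw [e3]
  refine lift_abs hA hd (fun F => (if p F then (1 : ℝ) else 0) -
      (if p' F then (1 : ℝ) else 0) / 2 ^ k)
    (fun F => if p' F then (1 : ℝ) else 0) ε ?_
  intro A' hA' hd'
  rw [← hl] at hdeg ⊢
  have heven : Even (2 * l) := even_two_mul l
  have hC : Cn (2 * l) (A' - X ^ (2 * l / 2)) := Cn_of heven hA' (by omega)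
  have hmκ' : (m : ℝ) ≤ κ * ((2 * l : ℕ) : ℝ) := by
    have h2 : (h : ℝ) ≤ 2 * ((2 * l : ℕ) : ℝ) := by exact_mod_cast (by omega : h ≤ 2 * (2 * l))
    have h3 : κ / 2 * h ≤ κ / 2 * (2 * ((2 * l : ℕ) : ℝ)) :=
      mul_le_mul_of_nonneg_left h2 (by positivity)
    linarith
  have h1 := h0 (2 * l) (by omega) m hm hmκ' (A' - X ^ (2 * l / 2)) hC α hα hdeg σ hσ
  have h2 : (((Sfs K (fun i => (A' - X ^ (2 * l / 2)) ^ 2 + α i) (2 * l) m).filter
      (fun f => ∀ i, mob (f + ((A' - X ^ (2 * l / 2)) ^ 2 + α i)) = σ i)).card : ℝ) =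
      ∑ u : degreeLT K (2 * l), (if p (A' ^ 2 + (u : K[X])) then (1 : ℝ) else 0) := by
    rw [← card_Sfs_filter heven A' α m (fun F => ∀ i, mob (F + α i) = σ i) p hp]
    simp only [add_assoc]
  have h3 : ((Sfs K (fun i => (A' - X ^ (2 * l / 2)) ^ 2 + α i) (2 * l) m).card : ℝ) =
      ∑ u : degreeLT K (2 * l), (if p' (A' ^ 2 + (u : K[X])) then (1 : ℝ) else 0) := by
    rw [← card_Sfs_filter heven A' α m (fun _ => True) p' hp']
    simp
  rw [h2, h3] at h1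
  rw [Finset.sum_sub_distrib, ← Finset.sum_div]
  exact h1

end Pool.Agent.H542.NS
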