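import Mathlib
import Pool.Agent.H542.NS.Few
import Pool.Agent.H996.Par.Low

/-!
# Tuples near squares over `F_q[X]`, `q` even (helper542): asymptotic counts in sifted sets
-/

set_option autoImplicit false

namespace Pool.Agent.H542.NS

open Polynomial Filter Topology
open scoped Classical
open Pool.Agent.H985.Chow (mob MD)
open Pool.Agent.H985.Par (Sfs Sft S_sw)
open Pool.Agent.H694.Typ (Mn mem_Mn PU mem_PU)
open Pool.Agent.H996.Par (Om Om_card Om_lt Om_deg dvd_rem)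

theorem SfH_ncard {K : Type} [Field K] [Fintype K] {k : ℕ} (A : K[X]) (α : Fin k → K[X])
    (h m : ℕ) : (SfH A α h m).ncard = {u : K[X] | u.degree < (h : WithBot ℕ) ∧
        ∀ P ∈ PU K m, ∀ r ∈ Om α P, ¬ P ∣ A ^ 2 + 1 * u - r}.ncard := by
  have h1 : SfH A α h m = (fun u : K[X] => A ^ 2 + u) '' {u : K[X] | u.degree < (h : WithBot ℕ) ∧
        ∀ P ∈ PU K m, ∀ r ∈ Om α P, ¬ P ∣ A ^ 2 + 1 * u - r} := by
    ext F
    constructor
    · rintro ⟨hF1, hF2⟩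
      refine ⟨F - A ^ 2, ⟨hF1, ?_⟩, by simp⟩
      intro P hP r hr hd
      obtain ⟨i, -, rfl⟩ := Finset.mem_image.1 hr
      have e : A ^ 2 + 1 * (F - A ^ 2) = F := by ring
      rw [e, dvd_rem] at hd
      rw [mem_PU] at hP
      have := hF2 i P hP.1 hP.2.1 hd
      omega
    · rintro ⟨u, ⟨hu1, hu2⟩, rfl⟩
      refine ⟨?_, ?_⟩
      · show (A ^ 2 + u - A ^ 2).degree < (h : WithBot ℕ)
        rwa [add_sub_cancel_left]
      · intro i P hP hPi hd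
        by_contra hcon
        rw [not_lt] at hcon
        refine hu2 P (mem_PU.2 ⟨hP, hPi, hcon⟩) ((-α i) %ₘ P)
          (Finset.mem_image.2 ⟨i, Finset.mem_univ _, rfl⟩) ?_
        rw [one_mul, dvd_rem]
        exact hd
  rw [h1, Set.ncard_image_of_injective]
  intro a b hab
  exact add_left_cancel hab

/-- The expected proportion of the sifted elements. -/
noncomputable def VV {K : Type} [Field K] [Fintype K] {k : ℕ} (α : Fin k → K[X]) (m : ℕ) : ℝ :=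
  ∏ P ∈ PU K m, (1 - ((Om α P).card : ℝ) / (Fintype.card K : ℝ) ^ P.natDegree)

/-- **Asymptotic number of the parity patterns** in the sifted part of every interval around every
square. -/
theorem cntH (hsw : S_sw) (hpar : S_parI) (hlow : S_lowI) (K : Type) [Field K] [Fintype K]
    [CharP K 2] (k : ℕ) : ∃ c : ℝ, 0 < c ∧ ∀ ε : ℝ, 0 < ε →
    ∃ κ : ℝ, 0 < κ ∧ ∃ M H : ℕ, ∀ h m : ℕ, H ≤ h → M ≤ m → (m : ℝ) ≤ κ * h → ∀ A : K[X], A.Monic →
      h ≤ 2 * A.natDegree →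
      ∀ α : Fin k → K[X], Function.Injective α → (∀ i, (α i).natDegree < 2 * (h / 2)) →
      (∀ P : K[X], P.Monic → Irreducible P → ∃ x : K[X], ∀ i, ¬ P ∣ x + α i) →
      ∀ σ : Fin k → ℤ, (∀ i, σ i = 1 ∨ σ i = -1) →
        c / (m : ℝ) ^ k ≤ VV α m ∧
        |((SfH A α h m ∩ {F | ∀ i, mob (F + α i) = σ i}).ncard : ℝ) -
          VV α m * (Fintype.card K : ℝ) ^ h / 2 ^ k| ≤ ε * (VV α m * (Fintype.card K : ℝ) ^ h) := by
  refine ⟨Real.exp (-((k : ℝ) + (8 * (k : ℝ) ^ 3 + 2 * (k : ℝ) ^ 2))), Real.exp_pos _, ?_⟩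
  intro ε hε
  obtain ⟨δ, hδ⟩ : ∃ δ : ℝ, δ = min ε 1 / 3 := ⟨_, rfl⟩
  have hm0 : 0 < min ε 1 := lt_min hε one_pos
  have hδ0 : 0 < δ := by rw [hδ]; linarith
  have hδ1 : δ ≤ 1 / 3 := by
    rw [hδ]
    have : min ε 1 ≤ 1 := min_le_right _ _
    linarith
  have hδε : 3 * δ ≤ ε := by
    rw [hδ]
    have : min ε 1 ≤ ε := min_le_left _ _
    linarith
  obtain ⟨κ, hκ, M, H, hp⟩ := pattH hpar hlow K k δ hδ0
  obtain ⟨A₀, hA₀⟩ := hsw K k δ hδ0
  refine ⟨min κ (1 / (A₀ + 1)), lt_min hκ (by positivity), M + 1, H, ?_⟩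
  intro h m hh hm hmκ A hA hd α hα hdeg hadm σ hσ
  have hh0 : (0 : ℝ) ≤ h := Nat.cast_nonneg _
  have h1 := hp h m hh (by omega)
    (hmκ.trans (mul_le_mul_of_nonneg_right (min_le_left _ _) hh0)) A hA hd α hα hdeg σ hσ
  have hAm : A₀ * m ≤ h := by
    have h2 : (m : ℝ) ≤ 1 / (A₀ + 1) * h :=
      hmκ.trans (mul_le_mul_of_nonneg_right (min_le_right _ _) hh0)
    have h3 : ((A₀ : ℝ) + 1) * m ≤ h := by
      calc ((A₀ : ℝ) + 1) * m ≤ (A₀ + 1) * (1 / (A₀ + 1) * h) :=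
            mul_le_mul_of_nonneg_left h2 (by positivity)
        _ = h := by field_simp
    have h4 : (A₀ + 1) * m ≤ h := by exact_mod_cast h3
    nlinarith
  have h2 := hA₀ h m (PU K m) (Om α) 1 (A ^ 2) (by omega) hAm (fun P hP => by
      rw [mem_PU] at hP
      exact ⟨hP.1, hP.2.1, hP.2.2, isCoprime_one_left⟩) (fun P hP => by
      rw [mem_PU] at hP
      exact ⟨Om_card α P, Om_lt α hP.1 (hadm P hP.1 hP.2.1), Om_deg α hP.1⟩)
  obtain ⟨h3, h4, -⟩ := h2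
  rw [← SfH_ncard] at h3 h4
  have hV : 0 < VV α m := by
    unfold VV
    apply Finset.prod_pos
    intro P hP
    rw [mem_PU] at hP
    have h5 := Om_lt α hP.1 (hadm P hP.1 hP.2.1)
    have h6 : (0 : ℝ) < (Fintype.card K : ℝ) ^ P.natDegree :=
      pow_pos (by exact_mod_cast Fintype.card_pos) _
    rw [sub_pos, div_lt_one h6]
    exact_mod_cast h5
  refine ⟨Pool.Agent.H996.Par.prod_ge (K := K) k m (by omega) (fun P => (Om α P).card)
    (fun P hP => by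
      rw [mem_PU] at hP
      exact ⟨Om_card α P, Om_lt α hP.1 (hadm P hP.1 hP.2.1)⟩), ?_⟩
  obtain ⟨W, hW⟩ : ∃ W : ℝ, W = VV α m * (Fintype.card K : ℝ) ^ h := ⟨_, rfl⟩
  have hW0 : 0 < W := by
    rw [hW]
    exact mul_pos hV (pow_pos (by exact_mod_cast Fintype.card_pos) _)
  have h3' : (1 - δ) * W ≤ ((SfH A α h m).ncard : ℝ) := by
    rw [hW, ← mul_assoc]
    exact h3
  have h4' : ((SfH A α h m).ncard : ℝ) ≤ (1 + δ) * W := by
    rw [hW, ← mul_assoc]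
    exact h4
  rw [← hW]
  obtain ⟨N, hN⟩ : ∃ N : ℝ, N = ((SfH A α h m).ncard : ℝ) := ⟨_, rfl⟩
  obtain ⟨Q, hQ⟩ : ∃ Q : ℝ, Q = ((SfH A α h m ∩ {F | ∀ i, mob (F + α i) = σ i}).ncard : ℝ) :=
    ⟨_, rfl⟩
  rw [← hN] at h1 h3' h4'
  rw [← hQ] at h1 ⊢
  have hN0 : 0 ≤ N := by rw [hN]; exact Nat.cast_nonneg _
  have h5 : |N / 2 ^ k - W / 2 ^ k| ≤ δ * W := by
    rw [← sub_div, abs_div, abs_of_pos (show (0 : ℝ) < 2 ^ k by positivity),
      div_le_iff₀ (by positivity)]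
    have h6 : |N - W| ≤ δ * W := by
      rw [abs_le]
      constructor <;> linarith
    refine h6.trans ?_
    have h7 : (1 : ℝ) ≤ 2 ^ k := one_le_pow₀ (by norm_num)
    have h8 : 0 ≤ δ * W := by positivity
    nlinarith
  have h6 := abs_sub_le Q (N / 2 ^ k) (W / 2 ^ k)
  have h7 : δ * N ≤ δ * ((1 + δ) * W) := mul_le_mul_of_nonneg_left h4' hδ0.le
  have h8 : δ * ((1 + δ) * W) ≤ 2 * δ * W := by
    have h9 : 0 ≤ δ * W := by positivity
    nlinarith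
  have h9 : 3 * δ * W ≤ ε * W := mul_le_mul_of_nonneg_right hδε hW0.le
  linarith

end Pool.Agent.H542.NS
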