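import Pool.Agent.H542.NS.Stm
import Pool.Agent.H154.Par.AsmU

/-!
# Task FULLI (helper44, for helper542): correlations in intervals around squares

Adapted from `Pool/Agent/H154/Par/AsmU.lean` of helper154 (here `w = 1`, `Q = 1`, and the shifts
`s i` are replaced by `D + s i`).
-/

set_option autoImplicit false

namespace Pool.Agent.H542.NS.FULLI

open Polynomial
open Pool.Agent.H985.Par (mass Fb)
open Pool.Agent.H985.Chow (mob MD)
open Pool.Agent.H985.KP (mobg PA)
open Pool.Agent.H604.FC.Asm4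
open Pool.Agent.H985.Chow.Asm
open Pool.Agent.H154.Par (mass_le Fb_finite Fb_mem goodU)

theorem fullI : T_fullI := by
  intro h K _ _ _ k ε hk hε
  classical
  have hq1 : (1 : ℝ) < Fintype.card K := by exact_mod_cast Fintype.one_lt_card
  have hq0 : (0 : ℝ) < Fintype.card K := by linarith
  obtain ⟨κ, θ, c, hκ, hκ8, hθ, hc, n₁, hn₁⟩ := h K k (ε / 2) hk (by linarith)
  have hk0 : (0 : ℝ) < k + 1 := by positivity
  obtain ⟨κ', hκ'⟩ : ∃ κ' : ℝ, κ' = min κ θ / (k + 1) := ⟨_, rfl⟩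
  have hκ'0 : 0 < κ' := by rw [hκ']; exact div_pos (lt_min hκ hθ) hk0
  have hκ'1 : κ' * (k + 1) = min κ θ := by rw [hκ']; field_simp
  have hκ'2 : κ' ≤ κ := by
    have h1 : min κ θ ≤ κ := min_le_left _ _
    have h2 : (0 : ℝ) ≤ k := Nat.cast_nonneg k
    nlinarith
  have hρ1 : (Fintype.card K : ℝ) ^ (-c) < 1 := Real.rpow_lt_one_of_one_lt_of_neg hq1 (by linarith)
  obtain ⟨n₂, hn₂⟩ := exists_pow_lt_of_lt_one (show (0 : ℝ) < ε / 2 by linarith) hρ1
  obtain ⟨n₃, hn₃⟩ := exists_nat_gt (1 / κ)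
  refine ⟨κ', hκ'0, n₁ + n₂ + n₃, ?_⟩
  intro n hn D α g hD hα hαd hg
  have hn0 : (0 : ℝ) ≤ n := Nat.cast_nonneg n
  have hκn : 1 ≤ κ * n := by
    have h1 : (n₃ : ℝ) ≤ n := by exact_mod_cast (by omega : n₃ ≤ n)
    have h2 : 1 / κ ≤ n := hn₃.le.trans h1
    rw [div_le_iff₀ hκ] at h2
    linarith
  have hqn : (Fintype.card K : ℝ) ^ (-(c * n)) ≤ ε / 2 := by
    have h1 : (Fintype.card K : ℝ) ^ (-(c * n)) = ((Fintype.card K : ℝ) ^ (-c)) ^ n := by
      rw [← Real.rpow_natCast, ← Real.rpow_mul hq0.le]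
      congr 1
      ring
    rw [h1]
    exact (pow_le_pow_of_le_one (by positivity) hρ1.le (by omega : n₂ ≤ n)).trans hn₂.le
  have hst : ∀ i, ∃ a b, G a b = α i := fun i => G_surj (α i)
  choose s t hst using hst
  have hinj : Function.Injective (fun i => (s i, t i)) := by
    intro i j hij
    apply hα
    simp only [Prod.mk.injEq] at hij
    rw [← hst i, ← hst j, hij.1, hij.2]
  have hαe : (fun i => D ^ 2 + α i) = fun i => G (D + s i) (t i) := by
    funext i
    rw [← hst, G, G, CharTwo.add_sq]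
    ring
  obtain ⟨F, hF⟩ : ∃ F, F = ∏ i, g i := ⟨_, rfl⟩
  have hF0 : F ≠ 0 := by
    rw [hF]
    exact Finset.prod_ne_zero_iff.2 (fun i _ => (hg i).1.ne_zero)
  have hFd : (F.natDegree : ℝ) ≤ θ * n := by
    have h1 : F.natDegree = ∑ i, (g i).natDegree := by
      rw [hF, natDegree_prod_of_monic _ _ (fun i _ => (hg i).1)]
    have h2 : (∑ i, ((g i).natDegree : ℝ)) ≤ ∑ _i : Fin k, κ' * n :=
      Finset.sum_le_sum (fun i _ => (hg i).2)
    rw [Finset.sum_const, Finset.card_univ, Fintype.card_fin, nsmul_eq_mul] at h2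
    have h3 : (F.natDegree : ℝ) ≤ κ' * (k + 1) * n := by
      rw [h1]
      push_cast
      nlinarith
    rw [hκ'1] at h3
    have h4 : min κ θ * n ≤ θ * n := mul_le_mul_of_nonneg_right (min_le_right _ _) hn0
    linarith
  obtain ⟨Exc, hE1, hE2, hmain⟩ := hn₁ n (by omega) s t {P : K[X] | P ∣ F} D hD hinj
    (fun i => by
      have := hαd i
      rw [← hst i, G] at this
      exact this) ((mass_le F hF0 n).trans hFd)
  obtain ⟨w, hw1⟩ : ∃ w : K[X] → ℝ, w = fun _ => 1 := ⟨_, rfl⟩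
  have hw : ∀ f, |w f| ≤ 1 := by
    intro f
    rw [hw1, abs_one]
  have hfse : (fun f : K[X] => ∏ i, (mobg (g i) (f + (D ^ 2 + α i)) : ℝ)) =
      fun f => fs (fun i => G (D + s i) (t i)) g w f := by
    funext f
    rw [← hαe, fs, hw1, one_mul]
  have hgoal : ∑ᶠ f ∈ MD K n, ∏ i, (mobg (g i) (f + (D ^ 2 + α i)) : ℝ) =
      ∑ᶠ f ∈ MD K n, fs (fun i => G (D + s i) (t i)) g w f := by
    apply finsum_congr
    intro f
    apply finsum_congr
    intro _
    exact congrFun hfse f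
  rw [hgoal, sum_MD]
  obtain ⟨N, hN⟩ : ∃ N, N = (n + 1) / 2 := ⟨_, rfl⟩
  rw [← hN]
  have hqN : (0 : ℝ) < (Fintype.card K : ℝ) ^ N := pow_pos hq0 _
  obtain ⟨T, hT⟩ : ∃ T : degreeLT K (n / 2) → ℝ, T = fun v' : degreeLT K (n / 2) =>
    ∑ v : degreeLT K N, fs (fun i => G (D + s i) (t i)) g w
      (G (ta K n + (v : K[X])) (tb K n + (v' : K[X]))) := ⟨_, rfl⟩
  have htriv : ∀ v', |T v'| ≤ (Fintype.card K : ℝ) ^ N := by
    intro v'
    rw [hT]
    refine (Finset.abs_sum_le_sum_abs _ _).trans ?_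
    refine (Finset.sum_le_sum (fun v _ => abs_fs _ g w hw _)).trans ?_
    rw [Finset.sum_const, Finset.card_univ, card_deg, nsmul_eq_mul, mul_one]
    push_cast
    exact le_rfl
  have hgood : ∀ v' : degreeLT K (n / 2), tb K n + (v' : K[X]) ∉ Exc →
      |T v'| ≤ (Fintype.card K : ℝ) ^ N * (ε / 2) := by
    intro v' hv'
    obtain ⟨E, hE, hEd, hRE, hwin⟩ := hmain (tb K n + (v' : K[X])) (Fb_mem n _ v'.2) hv'
    rw [hT, hN]
    refine goodU (fun i => D + s i) t g 1 E (tb K n + (v' : K[X])) w κ κ' c (ε / 2) n hκ hκ8 hκ'2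
      hκn one_ne_zero hE (by rw [natDegree_one]; push_cast; positivity) hEd
      hw (fun f => ⟨1, fun u _ => by rw [hw1, AddChar.one_apply, mul_one]⟩) hqn
      (fun v hv => G_mem n v _ hv v'.2) ?_
    intro L a χ h1 h2 h3 h4
    refine hwin (E * 1) g L a χ (mul_ne_zero hE.ne_zero one_ne_zero) (dvd_mul_right _ _) ?_ ?_ ?_
      h1 h2 h3 h4
    · rw [mul_one]
      nlinarith
    · intro P hP1 hP2 hP3
      rw [mul_one] at hP3
      exact Or.inl hP3
    · intro i
      refine ⟨(hg i).1, fun P _ _ hP => ?_⟩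
      show P ∣ F
      rw [hF]
      exact hP.trans (Finset.dvd_prod_of_mem g (Finset.mem_univ i))
  obtain ⟨Bd, hBd⟩ : ∃ Bd : Finset (degreeLT K (n / 2)),
      Bd = Finset.univ.filter (fun v' : degreeLT K (n / 2) => tb K n + (v' : K[X]) ∈ Exc) :=
    ⟨_, rfl⟩
  have hBdm : ∀ v', v' ∈ Bd ↔ tb K n + (v' : K[X]) ∈ Exc := by
    intro v'
    rw [hBd, Finset.mem_filter]
    simp
  have hbad : (Bd.card : ℝ) ≤ ε / 2 * (Fintype.card K : ℝ) ^ (n / 2) := by
    refine le_trans ?_ hE2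
    have hEf : Exc.Finite := (Fb_finite n).subset hE1
    have h1 : Bd.card ≤ Exc.ncard := by
      rw [← Set.ncard_coe_finset]
      refine Set.ncard_le_ncard_of_injOn (fun v' : degreeLT K (n / 2) => tb K n + (v' : K[X]))
        (fun v' hv' => (hBdm v').1 hv') ?_ hEf
      intro v _ v' _ hvv
      exact Subtype.ext (add_left_cancel hvv)
    exact_mod_cast h1
  have hall : ∀ v', |T v'| ≤ (Fintype.card K : ℝ) ^ N *
      ((if v' ∈ Bd then 1 else 0) + ε / 2) := by
    intro v'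
    split_ifs with h
    · refine (htriv v').trans ?_
      have : (Fintype.card K : ℝ) ^ N * 1 ≤ (Fintype.card K : ℝ) ^ N * (1 + ε / 2) :=
        mul_le_mul_of_nonneg_left (by linarith) hqN.le
      linarith
    · rw [zero_add]
      exact hgood v' (fun hx => h ((hBdm v').2 hx))
  have hsum : |∑ v', T v'| ≤ ε * (Fintype.card K : ℝ) ^ n := by
    refine (Finset.abs_sum_le_sum_abs _ _).trans ?_
    refine (Finset.sum_le_sum (fun v' _ => hall v')).trans ?_
    rw [← Finset.mul_sum, Finset.sum_add_distrib, Finset.sum_boole, Finset.sum_const,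
      Finset.card_univ, card_deg, nsmul_eq_mul, Finset.filter_mem_eq_inter, Finset.univ_inter]
    push_cast
    have hnn : (Fintype.card K : ℝ) ^ n =
        (Fintype.card K : ℝ) ^ N * (Fintype.card K : ℝ) ^ (n / 2) := by
      rw [← pow_add]
      congr 1
      omega
    rw [hnn]
    have h9 : (Bd.card : ℝ) + (Fintype.card K : ℝ) ^ (n / 2) * (ε / 2) ≤
        ε * (Fintype.card K : ℝ) ^ (n / 2) := by linarith
    calc (Fintype.card K : ℝ) ^ N * ((Bd.card : ℝ) + (Fintype.card K : ℝ) ^ (n / 2) * (ε / 2))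
        ≤ (Fintype.card K : ℝ) ^ N * (ε * (Fintype.card K : ℝ) ^ (n / 2)) :=
          mul_le_mul_of_nonneg_left h9 hqN.le
      _ = _ := by ring
  rw [hT] at hsum
  exact hsum

end Pool.Agent.H542.NS.FULLI

namespace Pool.Agent.H542.NS

theorem fullI : T_fullI := FULLI.fullI

end Pool.Agent.H542.NS
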