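import Mathlib
import Pool.Agent.H542.NS.Stm
import Pool.Agent.H524.Cw.Lio

/-!
# Tuples near squares over `F_q[X]`, `q` even (helper542): the Liouville function
-/

set_option autoImplicit false

namespace Pool.Agent.H542.NS

open Polynomial
open scoped Classical
open Pool.Agent.H985.Chow (mob MD)
open Pool.Agent.H985.KP (PA mobg)
open Pool.Agent.H524.Cw (lio)

/-- **Task LIOI.**  The Liouville function. -/
def S_lioI : Prop :=
  ∀ (K : Type) [Field K] [Fintype K] [CharP K 2] (k : ℕ) (ε : ℝ), 1 ≤ k → 0 < ε →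
    ∃ n₀ : ℕ, ∀ n : ℕ, n₀ ≤ n → ∀ (D : K[X]) (α : Fin k → K[X]), Cn n D →
      Function.Injective α → (∀ i, (α i).natDegree < n) →
        |∑ᶠ f ∈ MD K n, ∏ i, (lio (f + (D ^ 2 + α i)) : ℝ)| ≤
          ε * (Fintype.card K : ℝ) ^ n

/-- Task LIOI. `λ(F) = ∑_{g² ∣ F} μ(F / g²)`, `g` monic (`Pool/Agent/H524/Cw/Lio.lean`: `lamD`,
`lamD_diff`, `abs_lamD`). Cut the sum at `deg g ≤ G`, `G` fixed large; the `f` for which some
`f + D² + α_i` is divisible by `g²`, `deg g > G`: with `f = a² + X b²`, `g` divides `a + D + s_i` and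
`b + t_i`; at most `q ^ (n / 2)` of the `f` have `b = t_i`, the others are at most `q ^ (n - G)`. -/
def T_lioI : Prop := S_fullI → S_lioI

end Pool.Agent.H542.NS
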