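import Mathlib
import Pool.Agent.H542.NS.StmL

/-!
# Tuples near squares over `F_q[X]`, `q` even: the Liouville function (task LIOI)
-/

set_option autoImplicit false

open scoped Classical
open Finset Polynomial

namespace Pool.Agent.H542.NS.LIOI

open Pool.Agent.H985.Chow (mob MD)
open Pool.Agent.H985.KP (PA mobg)
open Pool.Agent.H524.Cw (lio msq lamD ML mem_ML abs_lamD lamD_diff abs_lio abs_prod_sub')
open Pool.Agent.H694.Typ (Mn mem_Mn card_Mn card_dvd_eq wt wt_add wt_nonneg wt_le_half geo_half_le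
  q_ge)
open Pool.Agent.H524.Ext (finsum_MD sum_shift)

variable {K : Type} [Field K] [Fintype K]

omit [Fintype K] in
theorem mobg_msq (g f : K[X]) : mobg g f = msq g f := by
  unfold mobg msq
  rfl

/-- the number of the `f` with `A ∣ f + β` -/
theorem card_shift_dvd {n : ℕ} (hn : 0 < n) {A : K[X]} (hA : A.Monic) (hAn : A.natDegree ≤ n)
    (β : K[X]) : (((Mn K n).filter (fun f => A ∣ f + β)).card : ℝ) =
      (Fintype.card K : ℝ) ^ n * wt K A.natDegree := by
  have h1 : ∀ f : K[X], A ∣ f + β ↔ A ∣ f + β %ₘ A := by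
    intro f
    have h2 : f + β = (f + β %ₘ A) + A * (β /ₘ A) := by
      have := modByMonic_add_div β A
      linear_combination -this
    rw [h2]
    exact dvd_add_left (Dvd.intro _ rfl)
  have h3 : (β %ₘ A).natDegree < n := by
    by_cases hA1 : A = 1
    · rw [hA1, modByMonic_one, natDegree_zero]
      exact hn
    · exact (natDegree_modByMonic_lt β hA hA1).trans_le hAn
  rw [← card_dvd_eq hA hAn, Finset.card_filter, Finset.card_filter]
  push_cast
  rw [← sum_shift h3 (fun f => if A ∣ f then (1 : ℝ) else 0)]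
  refine Finset.sum_congr rfl fun f _ => ?_
  simp only [h1 f]

/-- the number of the `f` with a given derivative -/
theorem card_der [CharP K 2] {n : ℕ} (hn : Even n) (c : K[X]) :
    ((Mn K n).filter (fun f => derivative f = c)).card ≤ Fintype.card K ^ (n / 2) := by
  have hc : Fintype.card (Fin (n / 2) → K) = Fintype.card K ^ (n / 2) := by simp
  rw [← hc, ← Finset.card_univ]
  refine Finset.card_le_card_of_injOn (fun f => fun i : Fin (n / 2) => f.coeff (2 * (i : ℕ)))
    (fun _ _ => Finset.mem_coe.2 (Finset.mem_univ _)) ?_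
  intro f hf f' hf' h
  rw [Finset.mem_coe, Finset.mem_filter, mem_Mn] at hf hf'
  obtain ⟨⟨hm, hd⟩, hder⟩ := hf
  obtain ⟨⟨hm', hd'⟩, hder'⟩ := hf'
  ext m
  rcases Nat.even_or_odd' m with ⟨j, rfl | rfl⟩
  · by_cases hj : j < n / 2
    · exact congrFun h ⟨j, hj⟩
    · rcases Nat.lt_or_ge n (2 * j) with h1 | h1
      · rw [coeff_eq_zero_of_natDegree_lt (by rw [hd]; exact h1),
          coeff_eq_zero_of_natDegree_lt (by rw [hd']; exact h1)]
      · have h2 : 2 * j = n := by
          have := Nat.div_mul_cancel hn.two_dvd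
          omega
        have e1 : f.coeff (2 * j) = 1 := by
          rw [h2, ← hd]
          exact hm.coeff_natDegree
        have e2 : f'.coeff (2 * j) = 1 := by
          rw [h2, ← hd']
          exact hm'.coeff_natDegree
        rw [e1, e2]
  · have h1 : (derivative f).coeff (2 * j) = (derivative f').coeff (2 * j) := by
      rw [hder, hder']
    rw [coeff_derivative, coeff_derivative] at h1
    have h2 : ((2 * j : ℕ) : K) + 1 = 1 := by
      push_cast
      rw [CharTwo.two_eq_zero, zero_mul, zero_add]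
    rwa [h2, mul_one, mul_one] at h1

/-- the `f` for which `f + D² + α` has a large square divisor -/
theorem tail_card [CharP K 2] {n : ℕ} (hn : Even n) {D α : K[X]} (hα : α.natDegree < n) (G : ℕ) :
    (((Mn K n).filter (fun f => ∃ g : K[X], g.Monic ∧ G < g.natDegree ∧
      g ^ 2 ∣ f + (D ^ 2 + α))).card : ℝ) ≤
      (Fintype.card K : ℝ) ^ n * (1 / 2) ^ G + (Fintype.card K : ℝ) ^ (n / 2) := by
  have hq := q_ge (k := K)
  have hn0 : 0 < n := by omega
  have h2 : (2 : K[X]) = 0 := CharTwo.two_eq_zero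
  have hder : ∀ f : K[X], derivative (f + (D ^ 2 + α)) = derivative f + derivative α := by
    intro f
    rw [derivative_add, derivative_add, sq, derivative_mul]
    have : derivative D * D + D * derivative D = 0 := by
      linear_combination derivative D * D * h2
    rw [this, zero_add]
  have hsub : (Mn K n).filter (fun f => ∃ g : K[X], g.Monic ∧ G < g.natDegree ∧
      g ^ 2 ∣ f + (D ^ 2 + α)) ⊆
      ((Finset.Icc (G + 1) (n / 2)).biUnion (fun j => (Mn K j).biUnion
        (fun g => (Mn K n).filter (fun f => g ^ 2 ∣ f + (D ^ 2 + α))))) ∪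
        (Mn K n).filter (fun f => derivative f = - derivative α) := by
    intro f hf
    rw [mem_filter] at hf
    obtain ⟨hf, g, hg, hG, hd⟩ := hf
    rw [mem_union]
    by_cases h0 : derivative f = - derivative α
    · right
      exact mem_filter.2 ⟨hf, h0⟩
    · left
      rw [mem_biUnion]
      refine ⟨g.natDegree, ?_, ?_⟩
      · rw [mem_Icc]
        refine ⟨by omega, ?_⟩
        have hd' : g ^ 2 ∣ derivative f + derivative α := by
          rw [← hder f]
          obtain ⟨c, hc⟩ := hd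
          have : derivative (g ^ 2 * c) = g ^ 2 * derivative c := by
            rw [derivative_mul, sq, derivative_mul]
            linear_combination derivative g * g * c * h2
          rw [hc, this]
          exact Dvd.intro _ rfl
        have hne : derivative f + derivative α ≠ 0 := fun h => h0 (eq_neg_of_add_eq_zero_left h)
        have h3 := natDegree_le_of_dvd hd' hne
        rw [natDegree_pow, ← derivative_add] at h3
        have h4 : (f + α).natDegree ≤ n := by
          refine (natDegree_add_le _ _).trans ?_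
          rw [(mem_Mn.1 hf).2]
          exact max_le le_rfl hα.le
        have h5 := natDegree_derivative_le (f + α)
        omega
      · rw [mem_biUnion]
        exact ⟨g, mem_Mn.2 ⟨hg, rfl⟩, mem_filter.2 ⟨hf, hd⟩⟩
  have h1 : (((Mn K n).filter (fun f => ∃ g : K[X], g.Monic ∧ G < g.natDegree ∧
      g ^ 2 ∣ f + (D ^ 2 + α))).card : ℝ) ≤ ∑ j ∈ Finset.Icc (G + 1) (n / 2), ∑ g ∈ Mn K j,
        (((Mn K n).filter (fun f => g ^ 2 ∣ f + (D ^ 2 + α))).card : ℝ) +
        (Fintype.card K : ℝ) ^ (n / 2) := by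
    have := (card_le_card hsub).trans ((card_union_le _ _).trans (add_le_add
      (card_biUnion_le.trans (sum_le_sum fun j _ => card_biUnion_le))
      (card_der hn (- derivative α))))
    exact_mod_cast this
  refine h1.trans ?_
  refine add_le_add ?_ le_rfl
  have h2 : ∀ j ∈ Finset.Icc (G + 1) (n / 2), ∑ g ∈ Mn K j,
        (((Mn K n).filter (fun f => g ^ 2 ∣ f + (D ^ 2 + α))).card : ℝ) ≤
          (Fintype.card K : ℝ) ^ n * (1 / 2) ^ j := by
    intro j hj
    rw [mem_Icc] at hj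
    have h3 : ∀ g ∈ Mn K j, (((Mn K n).filter (fun f => g ^ 2 ∣ f + (D ^ 2 + α))).card : ℝ) ≤
        (Fintype.card K : ℝ) ^ n * (wt K j * wt K j) := by
      intro g hg
      rw [mem_Mn] at hg
      refine (card_shift_dvd hn0 (hg.1.pow 2) ?_ _).le.trans ?_
      · rw [natDegree_pow, hg.2]
        omega
      · rw [natDegree_pow, hg.2, two_mul, wt_add]
    refine (sum_le_sum h3).trans ?_
    rw [sum_const, card_Mn, nsmul_eq_mul]
    have h4 : (Fintype.card K : ℝ) ^ j * wt K j = 1 := by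
      unfold wt
      exact mul_inv_cancel₀ (by positivity)
    calc (((Fintype.card K ^ j : ℕ)) : ℝ) * ((Fintype.card K : ℝ) ^ n * (wt K j * wt K j)) =
        (Fintype.card K : ℝ) ^ n * wt K j * ((Fintype.card K : ℝ) ^ j * wt K j) := by
          push_cast; ring
      _ = (Fintype.card K : ℝ) ^ n * wt K j := by rw [h4, mul_one]
      _ ≤ _ := by
        have := wt_le_half (k := K) j
        gcongr
  refine (sum_le_sum h2).trans ?_
  rw [← mul_sum]
  have := geo_half_le G (n / 2)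
  gcongr

/-- the arguments are monic -/
theorem monic_shift [CharP K 2] {n : ℕ} {D α f : K[X]} (hC : Cn n D) (hα : α.natDegree < n)
    (hf : f ∈ Mn K n) : (f + (D ^ 2 + α)).Monic := by
  obtain ⟨hev, hm, hd⟩ := hC
  rw [mem_Mn] at hf
  have hdiv : n / 2 * 2 = n := Nat.div_mul_cancel hev.two_dvd
  have h2 : (X ^ (n / 2) + D : K[X]) ^ 2 = X ^ n + D ^ 2 := by
    rw [CharTwo.add_sq, ← pow_mul, hdiv]
  have h1 : f + (D ^ 2 + α) = (X ^ (n / 2) + D) ^ 2 + ((f - X ^ n) + α) := by
    rw [h2]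
    ring
  rw [h1]
  refine (hm.pow 2).add_of_left ?_
  have h3 : (f - X ^ n).degree < (n : WithBot ℕ) := by
    have := degree_sub_lt_left (p := f) (q := (X ^ n : K[X])) (by
      rw [degree_X_pow, degree_eq_natDegree hf.1.ne_zero, hf.2]) hf.1.ne_zero (by
      rw [hf.1.leadingCoeff, leadingCoeff_X_pow])
    rwa [degree_eq_natDegree hf.1.ne_zero, hf.2] at this
  have h4 : α.degree < (n : WithBot ℕ) := by
    refine degree_le_natDegree.trans_lt ?_
    exact_mod_cast hα
  have h5 : ((n : ℕ) : WithBot ℕ) ≤ ((X ^ (n / 2) + D : K[X]) ^ 2).degree := by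
    rw [degree_eq_natDegree (hm.pow 2).ne_zero, natDegree_pow]
    have : n ≤ 2 * (X ^ (n / 2) + D : K[X]).natDegree := by omega
    exact_mod_cast this
  exact ((degree_add_le _ _).trans_lt (max_lt h3 h4)).trans_le h5

theorem tail_lio [CharP K 2] {n : ℕ} {D α : K[X]} (hC : Cn n D) (hα : α.natDegree < n) (G : ℕ) :
    ∑ f ∈ Mn K n, |(lio (f + (D ^ 2 + α)) : ℝ) - (lamD G (f + (D ^ 2 + α)) : ℝ)| ≤
      (Fintype.card K : ℝ) ^ n * (1 / 2) ^ G + (Fintype.card K : ℝ) ^ (n / 2) := by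
  refine le_trans ?_ (tail_card (D := D) hC.1 hα G)
  rw [Finset.card_filter]
  push_cast
  refine Finset.sum_le_sum fun f hf => ?_
  exact lamD_diff G (monic_shift hC hα hf)

end Pool.Agent.H542.NS.LIOI

namespace Pool.Agent.H542.NS

open Pool.Agent.H985.Chow (mob MD)
open Pool.Agent.H985.KP (PA mobg)
open Pool.Agent.H524.Cw (lio msq lamD ML mem_ML abs_lamD lamD_diff abs_lio abs_prod_sub')
open Pool.Agent.H694.Typ (Mn mem_Mn q_ge)
open Pool.Agent.H524.Ext (finsum_MD)
open LIOI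

theorem lioI : T_lioI := by
  intro hF K _ _ _ k ε hk hε
  have hq := q_ge (k := K)
  obtain ⟨G, hG⟩ := exists_pow_lt_of_lt_one
    (show 0 < ε / (4 * ((k : ℝ) + 1)) by positivity) (show (1 / 2 : ℝ) < 1 by norm_num)
  obtain ⟨TT, hTT⟩ : ∃ TT : Finset (Fin k → K[X]), TT = Fintype.piFinset (fun _ : Fin k => ML K G) :=
    ⟨_, rfl⟩
  obtain ⟨ε', hε'⟩ : ∃ ε' : ℝ, ε' = ε / (2 * ((TT.card : ℝ) + 1)) := ⟨_, rfl⟩
  have hε'0 : 0 < ε' := by
    rw [hε']
    positivity
  obtain ⟨κ, hκ, n₀, hn₀⟩ := hF K k ε' hk hε'0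
  obtain ⟨n₁, hn₁⟩ := exists_nat_ge ((G : ℝ) / κ)
  refine ⟨n₀ + n₁ + 2 * G + 2, fun n hn D α hC hinj hα => ?_⟩
  have hqn : (0 : ℝ) ≤ (Fintype.card K : ℝ) ^ n := by positivity
  have hGn : (G : ℝ) ≤ κ * n := by
    have h1 : (n₁ : ℝ) ≤ n := by exact_mod_cast (by omega : n₁ ≤ n)
    have h2 : (G : ℝ) / κ ≤ n := hn₁.trans h1
    rw [div_le_iff₀ hκ] at h2
    linarith
  rw [finsum_MD]
  -- the truncated sum
  have htr : |∑ f ∈ Mn K n, ∏ i, (lamD G (f + (D ^ 2 + α i)) : ℝ)| ≤
      ε / 2 * (Fintype.card K : ℝ) ^ n := by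
    have h1 : ∀ f : K[X], ∏ i, (lamD G (f + (D ^ 2 + α i)) : ℝ) =
        ∑ d ∈ TT, ∏ i, (mobg (d i) (f + (D ^ 2 + α i)) : ℝ) := by
      intro f
      have h2 := Finset.prod_univ_sum (fun _ : Fin k => ML K G)
        (fun i d => ((msq d (f + (D ^ 2 + α i)) : ℤ) : ℝ))
      have h3 : ∑ d ∈ TT, ∏ i, (mobg (d i) (f + (D ^ 2 + α i)) : ℝ) =
          ∑ d ∈ TT, ∏ i, ((msq (d i) (f + (D ^ 2 + α i)) : ℤ) : ℝ) := by
        refine Finset.sum_congr rfl fun d _ => Finset.prod_congr rfl fun i _ => ?_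
        rw [mobg_msq]
      rw [h3, hTT, ← h2]
      refine Finset.prod_congr rfl fun x _ => ?_
      unfold lamD
      push_cast
      rfl
    rw [Finset.sum_congr rfl fun g _ => h1 g, Finset.sum_comm]
    refine (Finset.abs_sum_le_sum_abs _ _).trans ?_
    have h3 : ∀ d ∈ TT, |∑ f ∈ Mn K n, ∏ i, (mobg (d i) (f + (D ^ 2 + α i)) : ℝ)| ≤
        ε' * (Fintype.card K : ℝ) ^ n := by
      intro d hd
      have h4 := hn₀ n (by omega) D α d hC hinj hα (fun i => by
        rw [hTT] at hd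
        have h5 := mem_ML.1 (Fintype.mem_piFinset.1 hd i)
        refine ⟨h5.1, le_trans ?_ hGn⟩
        exact_mod_cast h5.2)
      rwa [finsum_MD] at h4
    refine (Finset.sum_le_sum h3).trans ?_
    rw [Finset.sum_const, nsmul_eq_mul, hε']
    have h5 : (TT.card : ℝ) * (ε / (2 * ((TT.card : ℝ) + 1)) * (Fintype.card K : ℝ) ^ n) =
        ((TT.card : ℝ) / ((TT.card : ℝ) + 1)) * (ε / 2 * (Fintype.card K : ℝ) ^ n) := by
      field_simp
    rw [h5]
    have h6 : (TT.card : ℝ) / ((TT.card : ℝ) + 1) ≤ 1 := by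
      rw [div_le_one (by positivity)]
      linarith
    exact mul_le_of_le_one_left (by positivity) h6
  -- the tail
  have hhalf : (Fintype.card K : ℝ) ^ (n / 2) ≤ (Fintype.card K : ℝ) ^ n * (1 / 2) ^ G := by
    have hdiv : n / 2 * 2 = n := Nat.div_mul_cancel hC.1.two_dvd
    have h1 : (Fintype.card K : ℝ) ^ n = (Fintype.card K : ℝ) ^ (n / 2) *
        (Fintype.card K : ℝ) ^ (n / 2) := by
      rw [← pow_add]
      congr 1
      omega
    have h2 : (2 : ℝ) ^ G ≤ (Fintype.card K : ℝ) ^ (n / 2) := by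
      calc (2 : ℝ) ^ G ≤ (Fintype.card K : ℝ) ^ G := pow_le_pow_left₀ (by norm_num) hq G
        _ ≤ (Fintype.card K : ℝ) ^ (n / 2) := pow_le_pow_right₀ (by linarith) (by omega)
    have h3 : (2 : ℝ) ^ G * (1 / 2) ^ G = 1 := by
      rw [← mul_pow]
      norm_num
    have h4 : (1 : ℝ) ≤ (Fintype.card K : ℝ) ^ (n / 2) * (1 / 2) ^ G :=
      h3.symm.le.trans (mul_le_mul_of_nonneg_right h2 (by positivity))
    calc (Fintype.card K : ℝ) ^ (n / 2) = (Fintype.card K : ℝ) ^ (n / 2) * 1 := (mul_one _).symm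
      _ ≤ (Fintype.card K : ℝ) ^ (n / 2) * ((Fintype.card K : ℝ) ^ (n / 2) * (1 / 2) ^ G) := by
          gcongr
      _ = _ := by rw [h1]; ring
  have htail : |∑ f ∈ Mn K n, (∏ i, (lio (f + (D ^ 2 + α i)) : ℝ) -
      ∏ i, (lamD G (f + (D ^ 2 + α i)) : ℝ))| ≤ ε / 2 * (Fintype.card K : ℝ) ^ n := by
    refine (Finset.abs_sum_le_sum_abs _ _).trans ?_
    calc ∑ f ∈ Mn K n, |∏ i, (lio (f + (D ^ 2 + α i)) : ℝ) -
        ∏ i, (lamD G (f + (D ^ 2 + α i)) : ℝ)| ≤
        ∑ f ∈ Mn K n, ∑ i, |(lio (f + (D ^ 2 + α i)) : ℝ) -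
          (lamD G (f + (D ^ 2 + α i)) : ℝ)| := by
          refine Finset.sum_le_sum fun f hf => ?_
          exact abs_prod_sub' univ _ _ (fun x _ => abs_lio _)
            (fun x _ => abs_lamD G (monic_shift hC (hα x) hf))
      _ = ∑ i, ∑ f ∈ Mn K n, |(lio (f + (D ^ 2 + α i)) : ℝ) -
          (lamD G (f + (D ^ 2 + α i)) : ℝ)| := Finset.sum_comm
      _ ≤ ∑ i : Fin k, ((Fintype.card K : ℝ) ^ n * (1 / 2) ^ G + (Fintype.card K : ℝ) ^ (n / 2)) :=
          Finset.sum_le_sum fun x _ => tail_lio hC (hα x) G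
      _ = k * ((Fintype.card K : ℝ) ^ n * (1 / 2) ^ G + (Fintype.card K : ℝ) ^ (n / 2)) := by
          rw [Finset.sum_const, Finset.card_univ, nsmul_eq_mul, Fintype.card_fin]
      _ ≤ ((k : ℝ) + 1) * ((Fintype.card K : ℝ) ^ n * (1 / 2) ^ G +
          (Fintype.card K : ℝ) ^ n * (1 / 2) ^ G) := by
          gcongr
          linarith
      _ ≤ ((k : ℝ) + 1) * ((Fintype.card K : ℝ) ^ n * (ε / (4 * ((k : ℝ) + 1))) +
          (Fintype.card K : ℝ) ^ n * (ε / (4 * ((k : ℝ) + 1)))) := by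
          gcongr
      _ = _ := by
          field_simp
          ring
  have hsplit : ∑ f ∈ Mn K n, ∏ i, (lio (f + (D ^ 2 + α i)) : ℝ) =
      ∑ f ∈ Mn K n, (∏ i, (lio (f + (D ^ 2 + α i)) : ℝ) -
      ∏ i, (lamD G (f + (D ^ 2 + α i)) : ℝ)) +
        ∑ f ∈ Mn K n, ∏ i, (lamD G (f + (D ^ 2 + α i)) : ℝ) := by
    rw [← Finset.sum_add_distrib]
    exact Finset.sum_congr rfl fun g _ => by ring
  rw [hsplit]
  refine (abs_add_le _ _).trans ?_
  linarith

end Pool.Agent.H542.NS
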