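import Pool.Agent.H542.NS.Stm
import Pool.Agent.H282.FC.WinF

/-!
# NS WING: product formula with square divisors (helper289 for helper542)
-/

set_option autoImplicit false

namespace Pool.Agent.H542.NS

open Polynomial
open Pool.Agent.H985.Chow (mob)
open Pool.Agent.H985.KP (PA mobg)
open Pool.Agent.H985.FC (GP)
open Pool.Agent.H985.FC.WF (LF LF_GP mobg_mul mobg_zero)

namespace WING

variable {K : Type} [Field K] [Fintype K] [CharP K 2]

/-- the local factors agree -/
lemma GP_red {g P A β : K[X]} (hP : Irreducible P) (hg : ¬ P ∣ g) (hβ : P ∣ β) :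
    GP (g * β) g P (g * A) = GP β 1 P A := by
  have h1 : ¬ P ∣ (1 : K[X]) := fun h => hP.not_isUnit (isUnit_of_dvd_one h)
  have h2 := LF_GP (A := A) hP h1 hβ
  rw [one_mul, one_mul] at h2
  rw [← LF_GP hP hg hβ, h2]

end WING

open WING in
theorem wing : T_wing := by
  intro hI K _ _ _ d L c Z e h E g hc he hh heh hs hgm hge hE0 hE5 hEh hL hZm hZd hd hEL
  obtain ⟨e', he'⟩ := hge
  obtain ⟨τ, hτ⟩ := hE5
  have hbβ : C c * (e * h) = g * (C c * (e' * h)) := by
    calc C c * (e * h) = C c * ((g * e') * h) := by rw [← he']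
      _ = g * (C c * (e' * h)) := by ring
  have hgE : ∀ u : K[X], g ∣ E * u := by
    intro u
    refine Dvd.dvd.mul_right ?_ u
    rw [hτ, he']
    exact ⟨(g * e') ^ 4 * e' * τ, by ring⟩
  by_cases hgZ : g ∣ Z
  swap
  · refine ⟨0, 1, by norm_num, fun u => Or.inl (AddChar.one_apply u), fun u _ => ?_⟩
    rw [hbβ, mobg_zero, zero_mul]
    · simp
    · intro h1
      exact hgZ ((dvd_add_left (hgE u)).1 h1)
  obtain ⟨α, hα⟩ := hgZ
  obtain ⟨D, hD⟩ : ∃ D : K[X], D = g ^ 4 * e' ^ 5 * τ := ⟨_, rfl⟩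
  have hED : E = g * D := by
    rw [hτ, he', hD]; ring
  have he'm : e'.Monic := hgm.of_mul_monic_left (by rw [← he']; exact he)
  have hαm : α.Monic := hgm.of_mul_monic_left (by rw [← hα]; exact hZm)
  have he'h : IsCoprime e' h := by
    rw [he'] at heh
    exact heh.of_mul_left_right
  have hgh : IsCoprime g h := by
    rw [he'] at heh
    exact heh.of_mul_left_left
  have hDh : IsCoprime D h := by
    rw [hED] at hEh
    exact hEh.of_mul_left_right
  have hD0 : D ≠ 0 := by
    intro h5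
    apply hE0
    rw [hED, h5, mul_zero]
  have hd1 : (e * h).natDegree = g.natDegree + (e' * h).natDegree := by
    rw [he', mul_assoc, natDegree_mul hgm.ne_zero (mul_ne_zero he'm.ne_zero hh.ne_zero)]
  have hd2 : Z.natDegree = g.natDegree + α.natDegree := by
    rw [hα, natDegree_mul hgm.ne_zero hαm.ne_zero]
  have hd3 : E.natDegree = g.natDegree + D.natDegree := by
    rw [hED, natDegree_mul hgm.ne_zero hD0]
  obtain ⟨η, χ, hη, hχ, hprod⟩ := hI K α.natDegree L c α e' h D hc he'm hh he'h hs hD0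
    ⟨g ^ 4 * τ, by rw [hD]; ring⟩ hDh hL hαm rfl (by omega) (by omega)
  refine ⟨η, χ, hη, hχ, fun u hu => ?_⟩
  have hZu : Z + E * u = g * (α + D * u) := by
    rw [hα, hED]; ring
  rw [hZu, hbβ, mobg_mul hgm, hprod u hu]
  congr 2
  refine finprod_mem_congr rfl fun P hP => ?_
  obtain ⟨_, hPi, hPh⟩ := hP
  rw [GP_red hPi]
  · intro h1
    exact hPi.not_isUnit (hgh.isUnit_of_dvd' h1 hPh)
  · exact (hPh.mul_left e').mul_left (C c)

end Pool.Agent.H542.NS
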