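import Mathlib
import Pool.Agent.H560.SQ.WinI
import Pool.Agent.H524.SQ.KeyB
import Pool.Agent.H969.SQ.RTI
import Pool.Agent.H980.SQ.AddI
import Pool.Agent.H985.Chow.Final
import Pool.Agent.H985.Par.Final
import Pool.Agent.H542.NS.P_WING
import Pool.Agent.H542.NS.P_WIN5I
import Pool.Agent.H542.NS.P_FIBI
import Pool.Agent.H542.NS.P_PARI
import Pool.Agent.H542.NS.P_LOWI
import Pool.Agent.H542.NS.P_FULLI
import Pool.Agent.H542.NS.P_LIOI

/-!
# Tuples near squares over `F_q[X]`, `q` even (helper542): all parts together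
-/

set_option autoImplicit false

namespace Pool.Agent.H542.NS

theorem s_winI : S_winI :=
  Pool.Agent.H560.SQ.W.winI (Pool.Agent.H524.SQ.keyI Pool.Agent.H985.Chow.sgn
    Pool.Agent.H969.SQ.rtI) Pool.Agent.H980.SQ.addI

theorem s_fibI : S_fibI :=
  fibI (win5I (wing s_winI) Pool.Agent.H985.FC.win4s)
    (Pool.Agent.H627.Par.typV Pool.Agent.H985.KP.typ2)

theorem s_lowI : S_lowI := LOWI.lowI Pool.Agent.H985.Par.s_sw

theorem s_parI : S_parI := PARI.parI s_fibI Pool.Agent.H985.Par.s_sw s_lowI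

theorem s_fullI : S_fullI := fullI s_fibI

theorem s_lioI : S_lioI := lioI s_fullI

end Pool.Agent.H542.NS
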