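import Mathlib
import Pool.Agent.H542.NS.Lift
import Pool.Agent.H542.NS.StmL

/-!
# Tuples near squares over `F_q[X]`, `q` even (helper542): sign patterns of the Liouville function
-/

set_option autoImplicit false

namespace Pool.Agent.H542.NS

open Polynomial Filter Topology
open scoped Classical
open Pool.Agent.H985.Chow (mob MD)
open Pool.Agent.H694.Typ (Mn mem_Mn)
open Pool.Agent.H524.Cw (lio abs_lio)
open Pool.Agent.H985.Chow.Asm (card_deg instFD)

/-- Correlations for one set of indices. -/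
theorem corS (hl : S_lioI) (K : Type) [Field K] [Fintype K] [CharP K 2] (k : ℕ) (ε : ℝ)
    (hε : 0 < ε) (S : Finset (Fin k)) (hS : S.Nonempty) :
    ∃ H : ℕ, ∀ h : ℕ, H ≤ h → ∀ A : K[X], A.Monic → h ≤ 2 * A.natDegree →
      ∀ α : Fin k → K[X], Function.Injective α → (∀ i, (α i).natDegree < 2 * (h / 2)) →
        |∑ u : degreeLT K h, ∏ i ∈ S, (lio (A ^ 2 + (u : K[X]) + α i) : ℝ)| ≤
          ε * (Fintype.card K : ℝ) ^ h := by
  obtain ⟨k', hk'⟩ : ∃ k', k' = S.card := ⟨_, rfl⟩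
  have hk'1 : 1 ≤ k' := by rw [hk']; exact Finset.card_pos.2 hS
  obtain ⟨e, he, hprod⟩ : ∃ e : Fin k' → Fin k, Function.Injective e ∧
      ∀ h : Fin k → ℝ, ∏ i ∈ S, h i = ∏ j, h (e j) := by
    subst hk'
    refine ⟨fun j => (S.equivFin.symm j : Fin k), fun j j' h =>
      S.equivFin.symm.injective (Subtype.ext h), ?_⟩
    intro h
    rw [← Finset.prod_coe_sort S h, ← Equiv.prod_comp S.equivFin.symm]
  obtain ⟨n₀, h0⟩ := hl K k' ε hk'1 hε
  refine ⟨n₀ + 2, ?_⟩
  intro h hh A hA hd α hα hdeg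
  obtain ⟨l, hl⟩ : ∃ l, l = h / 2 := ⟨_, rfl⟩
  have h1 := lift_abs hA hd (fun F => ∏ i ∈ S, (lio (F + α i) : ℝ)) (fun _ => (1 : ℝ)) ε ?_
  · refine h1.trans (le_of_eq ?_)
    rw [Finset.sum_const, Finset.card_univ, card_deg, nsmul_eq_mul, mul_one]
    push_cast
    rfl
  · intro A' hA' hd'
    rw [← hl] at hdeg ⊢
    have heven : Even (2 * l) := even_two_mul l
    have hC : Cn (2 * l) (A' - X ^ (2 * l / 2)) := Cn_of heven hA' (by omega)
    have h2 := h0 (2 * l) (by omega) (A' - X ^ (2 * l / 2)) (fun j => α (e j)) hC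
      (fun j j' h => he (hα h)) (fun j => hdeg (e j))
    rw [← Pool.Agent.H225.Par.sum_Mn (2 * l) (fun f => ∏ j,
      (lio (f + ((A' - X ^ (2 * l / 2)) ^ 2 + α (e j))) : ℝ))] at h2
    have h3 : ∑ f ∈ Mn K (2 * l), ∏ j,
        (lio (f + ((A' - X ^ (2 * l / 2)) ^ 2 + α (e j))) : ℝ) =
        ∑ v : degreeLT K (2 * l), ∏ i ∈ S, (lio (A' ^ 2 + (v : K[X]) + α i) : ℝ) := by
      rw [← sum_even heven A' (fun F => ∏ i ∈ S, (lio (F + α i) : ℝ))]
      refine Finset.sum_congr rfl fun f _ => ?_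
      rw [hprod]
      simp only [add_assoc]
    rw [h3] at h2
    refine h2.trans (le_of_eq ?_)
    rw [Finset.sum_const, Finset.card_univ, card_deg, nsmul_eq_mul, mul_one]
    push_cast
    rfl

theorem lio_pm {K : Type} [Field K] {F : K[X]} (hF : F ≠ 0) : lio F = 1 ∨ lio F = -1 := by
  unfold lio
  rw [if_neg hF]
  exact neg_one_pow_eq_or ℤ _

/-- **Equidistribution of the sign patterns of the Liouville function** in every interval around
every square. -/
theorem lioPatt (hl : S_lioI) (K : Type) [Field K] [Fintype K] [CharP K 2] (k : ℕ) (ε : ℝ)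
    (hε : 0 < ε) :
    ∃ H : ℕ, ∀ h : ℕ, H ≤ h → ∀ A : K[X], A.Monic → h ≤ 2 * A.natDegree →
      ∀ α : Fin k → K[X], Function.Injective α → (∀ i, (α i).natDegree < 2 * (h / 2)) →
      ∀ σ : Fin k → ℤ, (∀ i, σ i = 1 ∨ σ i = -1) →
        |({F : K[X] | F ∈ Iv A h ∧ ∀ i, lio (F + α i) = σ i}.ncard : ℝ) -
          (Fintype.card K : ℝ) ^ h / 2 ^ k| ≤ ε * (Fintype.card K : ℝ) ^ h := by
  have h := fun S : {S : Finset (Fin k) // S.Nonempty} => corS hl K k ε hε S.1 S.2
  choose H hH using h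
  refine ⟨∑ S, H S, ?_⟩
  intro h hh A hA hd α hα hdeg σ hσ
  have hcor : ∀ S : Finset (Fin k), S.Nonempty →
      |∑ u : degreeLT K h, ∏ i ∈ S, (lio (A ^ 2 + (u : K[X]) + α i) : ℝ)| ≤
          ε * (Fintype.card K : ℝ) ^ h := by
    intro S hS
    refine hH ⟨S, hS⟩ h (le_trans ?_ hh) A hA hd α hα hdeg
    exact Finset.single_le_sum (f := H) (fun _ _ => Nat.zero_le _) (Finset.mem_univ _)
  have hq0 : (0 : ℝ) < (Fintype.card K : ℝ) ^ h := pow_pos (by exact_mod_cast Fintype.card_pos) _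
  obtain ⟨p, hp⟩ : ∃ p : K[X] → Prop, ∀ F, p F ↔ ∀ i, lio (F + α i) = σ i :=
    ⟨_, fun _ => Iff.rfl⟩
  have e1 : {F : K[X] | F ∈ Iv A h ∧ ∀ i, lio (F + α i) = σ i} = {F | F ∈ Iv A h ∧ p F} := by
    ext F
    simp only [Set.mem_setOf_eq, hp]
  rw [e1, ncard_Iv]
  -- the indicator function as a product
  have hne : ∀ (u : degreeLT K h) (i : Fin k), A ^ 2 + (u : K[X]) + α i ≠ 0 := by
    intro u i
    have hud : ((u : K[X]) + α i).degree < (A ^ 2).degree := by
      have e2 : (A ^ 2).degree = ((2 * A.natDegree : ℕ) : WithBot ℕ) := by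
        rw [degree_eq_natDegree (hA.pow 2).ne_zero, natDegree_pow]
      rw [e2]
      refine (degree_add_le _ _).trans_lt (max_lt ?_ ?_)
      · refine (mem_degreeLT.1 u.2).trans_le ?_
        exact_mod_cast hd
      · refine degree_le_natDegree.trans_lt ?_
        have := hdeg i
        exact_mod_cast (by omega : (α i).natDegree < 2 * A.natDegree)
    rw [add_assoc]
    exact ((hA.pow 2).add_of_left hud).ne_zero
  have hind : ∀ u : degreeLT K h, (if p (A ^ 2 + (u : K[X])) then (1 : ℝ) else 0) =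
      (∏ i, (1 + (σ i : ℝ) * (lio (A ^ 2 + (u : K[X]) + α i) : ℝ))) / 2 ^ k := by
    intro u
    have e7 : (∏ i, (1 + (σ i : ℝ) * (lio (A ^ 2 + (u : K[X]) + α i) : ℝ))) / 2 ^ k =
        ∏ i, (if lio (A ^ 2 + (u : K[X]) + α i) = σ i then (1 : ℝ) else 0) := by
      have e8 : (2 : ℝ) ^ k = ∏ _i : Fin k, (2 : ℝ) := by
        rw [Finset.prod_const, Finset.card_univ, Fintype.card_fin]
      rw [e8, ← Finset.prod_div_distrib]
      refine Finset.prod_congr rfl fun i _ => ?_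
      rcases hσ i with h | h <;> rcases lio_pm (hne u i) with h' | h' <;> rw [h, h'] <;> norm_num
    rw [e7]
    by_cases hpu : p (A ^ 2 + (u : K[X]))
    · rw [if_pos hpu]
      rw [hp] at hpu
      symm
      exact Finset.prod_eq_one fun i _ => if_pos (hpu i)
    · rw [if_neg hpu]
      rw [hp] at hpu
      push Not at hpu
      obtain ⟨i, hi⟩ := hpu
      symm
      exact Finset.prod_eq_zero (Finset.mem_univ i) (if_neg hi)
  rw [Finset.sum_congr rfl fun u _ => hind u, ← Finset.sum_div]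
  have h1 : ∑ u : degreeLT K h, (∏ i, (1 + (σ i : ℝ) * (lio (A ^ 2 + (u : K[X]) + α i) : ℝ))) =
      (Fintype.card K : ℝ) ^ h + ∑ S ∈ (Finset.univ : Finset (Fin k)).powerset.erase ∅,
        (∏ i ∈ S, (σ i : ℝ)) *
          ∑ u : degreeLT K h, ∏ i ∈ S, (lio (A ^ 2 + (u : K[X]) + α i) : ℝ) := by
    have e1 : ∀ u : degreeLT K h, (∏ i, (1 + (σ i : ℝ) * (lio (A ^ 2 + (u : K[X]) + α i) : ℝ))) =
        ∑ S ∈ (Finset.univ : Finset (Fin k)).powerset,
          ∏ i ∈ S, ((σ i : ℝ) * (lio (A ^ 2 + (u : K[X]) + α i) : ℝ)) :=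
      fun u => Finset.prod_one_add _
    rw [Finset.sum_congr rfl fun u _ => e1 u, Finset.sum_comm,
      ← Finset.add_sum_erase _ _ (Finset.empty_mem_powerset _)]
    congr 1
    · simp only [Finset.prod_empty, Finset.sum_const, Finset.card_univ, card_deg, nsmul_eq_mul,
        mul_one]
      push_cast
      rfl
    · refine Finset.sum_congr rfl fun S _ => ?_
      rw [Finset.mul_sum]
      refine Finset.sum_congr rfl fun u _ => ?_
      rw [Finset.prod_mul_distrib]
  have hσabs : ∀ S : Finset (Fin k), |∏ i ∈ S, (σ i : ℝ)| ≤ 1 := by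
    intro S
    rw [Finset.abs_prod]
    refine Finset.prod_le_one (fun _ _ => abs_nonneg _) fun i _ => ?_
    rcases hσ i with h | h <;> rw [h] <;> simp
  rw [h1, ← sub_div, add_sub_cancel_left, abs_div, abs_of_pos (show (0 : ℝ) < 2 ^ k by positivity),
    div_le_iff₀ (by positivity)]
  refine (Finset.abs_sum_le_sum_abs _ _).trans ?_
  have e2 : ∀ S ∈ (Finset.univ : Finset (Fin k)).powerset.erase ∅,
      |(∏ i ∈ S, (σ i : ℝ)) *
        ∑ u : degreeLT K h, ∏ i ∈ S, (lio (A ^ 2 + (u : K[X]) + α i) : ℝ)| ≤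
        ε * (Fintype.card K : ℝ) ^ h := by
    intro S hS
    rw [Finset.mem_erase] at hS
    rw [abs_mul]
    exact (mul_le_of_le_one_left (abs_nonneg _) (hσabs S)).trans
      (hcor S (Finset.nonempty_iff_ne_empty.2 hS.1))
  refine (Finset.sum_le_sum e2).trans ?_
  rw [Finset.sum_const, nsmul_eq_mul, mul_comm]
  refine mul_le_mul_of_nonneg_left ?_ (by positivity)
  have e3 : ((Finset.univ : Finset (Fin k)).powerset.erase ∅).card ≤ 2 ^ k := by
    refine (Finset.card_erase_le).trans ?_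
    rw [Finset.card_powerset, Finset.card_univ, Fintype.card_fin]
  exact_mod_cast e3

end Pool.Agent.H542.NS
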