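import Mathlib
import Pool.Agent.H542.NS.Lift

/-!
# Tuples near squares over `F_q[X]`, `q` even (helper542): correlations of the Möbius function
-/

set_option autoImplicit false

namespace Pool.Agent.H542.NS

open Polynomial Filter Topology
open scoped Classical
open Pool.Agent.H985.Chow (mob MD)
open Pool.Agent.H985.KP (mobg)
open Pool.Agent.H694.Typ (Mn mem_Mn)
open Pool.Agent.H985.Chow.Asm (card_deg instFD)

theorem finsum_Iv {K : Type} [Field K] [Fintype K] (A : K[X]) (h : ℕ) (T : K[X] → ℝ) :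
    ∑ᶠ F ∈ {F : K[X] | (F - A ^ 2).degree < (h : WithBot ℕ)}, T F =
      ∑ u : degreeLT K h, T (A ^ 2 + (u : K[X])) := by
  have h1 : {F : K[X] | (F - A ^ 2).degree < (h : WithBot ℕ)} =
      Set.range (fun u : degreeLT K h => A ^ 2 + (u : K[X])) := by
    ext F
    constructor
    · intro hF
      exact ⟨⟨F - A ^ 2, mem_degreeLT.2 hF⟩, by simp⟩
    · rintro ⟨u, rfl⟩
      show (A ^ 2 + (u : K[X]) - A ^ 2).degree < (h : WithBot ℕ)
      rw [add_sub_cancel_left]
      exact mem_degreeLT.1 u.2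
  rw [h1, finsum_mem_range (fun u v huv => Subtype.ext (add_left_cancel huv)),
    finsum_eq_sum_of_fintype]

/-- **Correlations of the Möbius function in every interval around every square.** -/
theorem muH (hf : S_fullI) (K : Type) [Field K] [Fintype K] [CharP K 2] (k : ℕ) (hk : 1 ≤ k)
    (ε : ℝ) (hε : 0 < ε) :
    ∃ H : ℕ, ∀ h : ℕ, H ≤ h → ∀ A : K[X], A.Monic → h ≤ 2 * A.natDegree →
      ∀ α : Fin k → K[X], Function.Injective α → (∀ i, (α i).natDegree < 2 * (h / 2)) →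
        |∑ᶠ F ∈ {F : K[X] | (F - A ^ 2).degree < (h : WithBot ℕ)},
          ∏ i, (mob (F + α i) : ℝ)| ≤ ε * (Fintype.card K : ℝ) ^ h := by
  obtain ⟨κ, hκ, n₀, h0⟩ := hf K k ε hk hε
  refine ⟨n₀ + 2, ?_⟩
  intro h hh A hA hd α hα hdeg
  obtain ⟨l, hl⟩ : ∃ l, l = h / 2 := ⟨_, rfl⟩
  rw [finsum_Iv]
  have h1 := lift_abs hA hd (fun F => ∏ i, (mob (F + α i) : ℝ)) (fun _ => (1 : ℝ)) ε ?_
  · refine h1.trans (le_of_eq ?_)
    rw [Finset.sum_const, Finset.card_univ, card_deg, nsmul_eq_mul, mul_one]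
    push_cast
    rfl
  · intro A' hA' hd'
    rw [← hl] at hdeg ⊢
    have heven : Even (2 * l) := even_two_mul l
    have hC : Cn (2 * l) (A' - X ^ (2 * l / 2)) := Cn_of heven hA' (by omega)
    have h2 := h0 (2 * l) (by omega) (A' - X ^ (2 * l / 2)) α (fun _ => 1) hC hα hdeg
      (fun i => ⟨monic_one, by rw [natDegree_one]; push_cast; positivity⟩)
    rw [← Pool.Agent.H225.Par.sum_Mn (2 * l) (fun f => ∏ i,
      (mobg 1 (f + ((A' - X ^ (2 * l / 2)) ^ 2 + α i)) : ℝ))] at h2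
    have h3 : ∑ f ∈ Mn K (2 * l), ∏ i,
        (mobg 1 (f + ((A' - X ^ (2 * l / 2)) ^ 2 + α i)) : ℝ) =
        ∑ v : degreeLT K (2 * l), ∏ i, (mob (A' ^ 2 + (v : K[X]) + α i) : ℝ) := by
      rw [← sum_even heven A' (fun F => ∏ i, (mob (F + α i) : ℝ))]
      refine Finset.sum_congr rfl fun f _ => ?_
      refine Finset.prod_congr rfl fun i _ => ?_
      rw [Pool.Agent.H225.Par.mobg_one, add_assoc]
    rw [h3] at h2
    refine h2.trans (le_of_eq ?_)
    rw [Finset.sum_const, Finset.card_univ, card_deg, nsmul_eq_mul, mul_one]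
    push_cast
    rfl

end Pool.Agent.H542.NS
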