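import Mathlib
import Pool.Agent.H542.NS.Lift

/-!
# Local Gowers norms over `K[X]`: general part (copied from `Pool.Agent.H524.FC.Unif` by helper524)
-/

set_option autoImplicit false
set_option linter.unusedSectionVars false

open scoped Classical ComplexConjugate
open Polynomial Finset Filter

namespace Pool.Agent.H542.NS.U0

open Pool.Agent.H985.Chow.Asm (card_deg instFD)

variable {K : Type} [Field K] [Fintype K]

/-- The average over the polynomials of degree less than `H`. -/
noncomputable def av (H : ℕ) (F : K[X] → ℂ) : ℂ :=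
  (∑ x : degreeLT K H, F x) / (Fintype.card K : ℂ) ^ H

/-- The multiplicative derivative. -/
noncomputable def dd (y : K[X]) (F : K[X] → ℂ) : K[X] → ℂ := fun x => F (x + y) * conj (F x)

/-- The averages of the multiplicative derivatives of order `k`. -/
noncomputable def UU (H : ℕ) : ℕ → (K[X] → ℂ) → ℂ
  | 0, F => av H F
  | k + 1, F => av H (fun y => UU H k (dd y F))

/-- Polynomial phases of degree less than `k`: the multiplicative derivatives of order `k` are
equal to `1`. -/
def IsPhase : ℕ → (K[X] → ℂ) → Prop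
  | 0, P => ∀ x, P x = 1
  | k + 1, P => ∀ y, IsPhase k (dd y P)

theorem qH_ne (H : ℕ) : (Fintype.card K : ℂ) ^ H ≠ 0 := by
  have : (Fintype.card K : ℂ) ≠ 0 := by exact_mod_cast Fintype.card_ne_zero
  exact pow_ne_zero _ this

theorem av_norm_pow (H m : ℕ) (F : K[X] → ℂ) :
    ‖av H F‖ ^ m ≤ (∑ x : degreeLT K H, ‖F x‖ ^ m) / (Fintype.card K : ℝ) ^ H := by
  have hq : (0 : ℝ) < (Fintype.card K : ℝ) ^ H := by
    have : (0 : ℝ) < Fintype.card K := by exact_mod_cast Fintype.card_pos
    positivity
  have h1 : ‖av H F‖ ≤ ∑ x : degreeLT K H, ((Fintype.card K : ℝ) ^ H)⁻¹ * ‖F x‖ := by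
    unfold av
    rw [norm_div, norm_pow, Complex.norm_natCast, ← Finset.mul_sum, inv_mul_eq_div]
    exact div_le_div_of_nonneg_right (norm_sum_le _ _) hq.le
  refine (pow_le_pow_left₀ (norm_nonneg _) h1 m).trans ?_
  refine (Real.pow_arith_mean_le_arith_mean_pow univ (fun _ => ((Fintype.card K : ℝ) ^ H)⁻¹)
    (fun x : degreeLT K H => ‖F x‖) (fun _ _ => by positivity) ?_ (fun _ _ => norm_nonneg _)
    m).trans ?_
  · rw [Finset.sum_const, Finset.card_univ, card_deg, nsmul_eq_mul]
    push_cast
    exact mul_inv_cancel₀ hq.ne'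
  · rw [← Finset.mul_sum, inv_mul_eq_div]

theorem av_sq (H : ℕ) (F : K[X] → ℂ) : ((‖av H F‖ ^ 2 : ℝ) : ℂ) = UU H 1 F := by
  have h1 : ((‖av H F‖ ^ 2 : ℝ) : ℂ) = av H F * conj (av H F) := by
    rw [Complex.mul_conj]
    norm_cast
    exact (Complex.normSq_eq_norm_sq _).symm
  rw [h1]
  change av H F * conj (av H F) = av H (fun y => av H (dd y F))
  unfold av
  rw [map_div₀, map_pow, Complex.conj_natCast, map_sum, div_mul_div_comm, Finset.sum_mul_sum]
  simp only [dd]
  have h2 : ∑ i : degreeLT K H, ∑ j : degreeLT K H, F i * conj (F j) =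
      ∑ y : degreeLT K H, ∑ x : degreeLT K H, F ((x : K[X]) + y) * conj (F x) := by
    rw [Finset.sum_comm]
    conv_rhs => rw [Finset.sum_comm]
    refine Finset.sum_congr rfl fun j _ => ?_
    exact (Fintype.sum_equiv (Equiv.addLeft j) _ _ fun y => rfl).symm
  rw [h2, ← Finset.sum_div, div_div]

theorem gcs (H : ℕ) (k : ℕ) : ∀ F : K[X] → ℂ,
    ‖av H F‖ ^ (2 ^ (k + 1)) ≤ (UU H (k + 1) F).re := by
  induction k with
  | zero =>
    intro F
    rw [zero_add, pow_one, ← av_sq, Complex.ofReal_re]
  | succ k ih =>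
    intro F
    have hq : (0 : ℝ) < (Fintype.card K : ℝ) ^ H := by
      have : (0 : ℝ) < Fintype.card K := by exact_mod_cast Fintype.card_pos
      positivity
    have h1 : ‖av H F‖ ^ 2 = ‖av H (fun y => av H (dd y F))‖ := by
      have h2 : ((‖av H F‖ ^ 2 : ℝ) : ℂ) = av H (fun y => av H (dd y F)) := av_sq H F
      rw [← h2, Complex.norm_real, Real.norm_of_nonneg (by positivity)]
    rw [show 2 ^ (k + 1 + 1) = 2 * 2 ^ (k + 1) by ring, pow_mul, h1]
    refine (av_norm_pow H _ _).trans ?_
    have h3 : (UU H (k + 1 + 1) F).re =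
        (∑ y : degreeLT K H, (UU H (k + 1) (dd y F)).re) / (Fintype.card K : ℝ) ^ H := by
      change (av H (fun y => UU H (k + 1) (dd y F))).re = _
      unfold av
      have h4 : ((Fintype.card K : ℂ)) ^ H = (((Fintype.card K : ℝ) ^ H : ℝ) : ℂ) := by push_cast; rfl
      rw [h4, Complex.div_ofReal_re, Complex.re_sum]
    rw [h3]
    exact div_le_div_of_nonneg_right (Finset.sum_le_sum fun y _ => ih _) hq.le

theorem dd_mul (y : K[X]) (F G : K[X] → ℂ) :
    dd y (fun x => F x * G x) = fun x => dd y F x * dd y G x := by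
  funext x
  simp only [dd, map_mul]
  ring

theorem UU_phase (H k : ℕ) : ∀ (g P : K[X] → ℂ), IsPhase k P →
    UU H k (fun x => g x * P x) = UU H k g := by
  induction k with
  | zero =>
    intro g P hP
    change av H _ = av H _
    congr 1
    funext x
    rw [hP x, mul_one]
  | succ k ih =>
    intro g P hP
    change av H _ = av H _
    congr 1
    funext y
    rw [dd_mul]
    exact ih _ _ (hP y)

theorem IsPhase.shift {k : ℕ} : ∀ {P : K[X] → ℂ}, IsPhase k P → ∀ h : K[X],
    IsPhase k (fun x => P (h + x)) := by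
  induction k with
  | zero =>
    intro P hP h x
    exact hP _
  | succ k ih =>
    intro P hP h y
    have h1 := ih (hP y) h
    have h2 : dd y (fun x => P (h + x)) = fun x => dd y P (h + x) := by
      funext x
      simp only [dd, add_assoc]
    rw [h2]
    exact h1

/-! ### Real functions -/

/-- the real version -/
noncomputable def avR (H : ℕ) (F : K[X] → ℝ) : ℝ :=
  (∑ x : degreeLT K H, F x) / (Fintype.card K : ℝ) ^ H

/-- the real version -/
noncomputable def UR (H : ℕ) : ℕ → (K[X] → ℝ) → ℝ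
  | 0, F => avR H F
  | k + 1, F => avR H (fun y => UR H k (fun x => F (x + y) * F x))

theorem UU_real (H k : ℕ) : ∀ g : K[X] → ℝ, UU H k (fun x => (g x : ℂ)) = (UR H k g : ℂ) := by
  induction k with
  | zero =>
    intro g
    change av H _ = ((avR H g : ℝ) : ℂ)
    unfold av avR
    push_cast
    rfl
  | succ k ih =>
    intro g
    change av H _ = ((avR H _ : ℝ) : ℂ)
    unfold av avR
    push_cast
    congr 1
    refine Finset.sum_congr rfl fun y _ => ?_
    rw [← ih]
    congr 1
    funext x
    simp only [dd, Complex.conj_ofReal]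
    push_cast
    rfl

theorem avR_le (H : ℕ) {F : K[X] → ℝ} (hF : ∀ x, |F x| ≤ 1) : |avR H F| ≤ 1 := by
  have hq : (0 : ℝ) < (Fintype.card K : ℝ) ^ H := by
    have : (0 : ℝ) < Fintype.card K := by exact_mod_cast Fintype.card_pos
    positivity
  unfold avR
  rw [abs_div, abs_of_pos hq, div_le_one hq]
  refine (Finset.abs_sum_le_sum_abs _ _).trans ?_
  refine (Finset.sum_le_sum fun x _ => hF _).trans ?_
  rw [Finset.sum_const, Finset.card_univ, card_deg, nsmul_eq_mul, mul_one]
  push_cast
  exact le_rfl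

theorem UR_le (H k : ℕ) : ∀ {F : K[X] → ℝ}, (∀ x, |F x| ≤ 1) → |UR H k F| ≤ 1 := by
  induction k with
  | zero =>
    intro F hF
    exact avR_le H hF
  | succ k ih =>
    intro F hF
    refine avR_le H fun y => ih fun x => ?_
    rw [abs_mul]
    exact mul_le_one₀ (hF _) (abs_nonneg _) (hF _)

theorem IsPhase.succ {k : ℕ} : ∀ {P : K[X] → ℂ}, IsPhase k P → IsPhase (k + 1) P := by
  induction k with
  | zero =>
    intro P hP y x
    have h : dd y P x = P (x + y) * conj (P x) := rfl
    rw [h, hP, hP, map_one, mul_one]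
  | succ k ih =>
    intro P hP y
    exact ih (hP y)

end Pool.Agent.H542.NS.U0
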