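import Mathlib
import Pool.Agent.H542.NS.Lio
import Pool.Agent.H542.NS.Mu
import Pool.Agent.H542.NS.Final
import Pool.Agent.H542.NS.Unif0

/-!
# Local higher-order uniformity at EVERY square over `F_q[X]`, `q` even (helper542)
-/

set_option autoImplicit false
set_option linter.unusedSectionVars false

namespace Pool.Agent.H542.NS.Unif

open Polynomial Finset
open scoped Classical
open Pool.Agent.H985.Chow (mob)
open Pool.Agent.H524.Cw (lio abs_lio)
open Pool.Agent.H985.Chow.Asm (card_deg mem_deg instFD)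
open Pool.Agent.H542.NS.U0 (av dd UU IsPhase gcs UU_phase UU_real avR UR UR_le qH_ne)

variable {K : Type} [Field K] [Fintype K]

/-- Correlations in the windows at the squares. -/
def CorI (a : K[X] → ℝ) : Prop :=
  ∀ k : ℕ, 1 ≤ k → ∀ δ : ℝ, 0 < δ → ∃ H₀ : ℕ, ∀ H : ℕ, H₀ ≤ H → Even H → ∀ A : K[X], A.Monic →
    H ≤ 2 * A.natDegree → ∀ S : Finset K[X], S.card = k → (∀ s ∈ S, s ∈ degreeLT K H) →
      |∑ x : degreeLT K H, ∏ s ∈ S, a (A ^ 2 + (x : K[X]) + s)| ≤ δ * (Fintype.card K : ℝ) ^ H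

/-- Gowers norms at the squares. -/
theorem urI {a : K[X] → ℝ} (ha : ∀ f, |a f| ≤ 1) (hc : CorI a) (k : ℕ) : ∀ m : ℕ,
    ∃ C : ℝ, 0 ≤ C ∧ ∀ δ : ℝ, 0 < δ → ∃ H₀ : ℕ, ∀ H : ℕ, H₀ ≤ H → Even H → ∀ A : K[X], A.Monic →
      H ≤ 2 * A.natDegree → ∀ S : Finset K[X], S.Nonempty → S.card ≤ m →
        (∀ s ∈ S, s ∈ degreeLT K H) →
        |UR H k (fun x => ∏ s ∈ S, a (A ^ 2 + x + s))| ≤ C / (Fintype.card K : ℝ) ^ H + δ := by
  have hq0 : (0 : ℝ) < Fintype.card K := by exact_mod_cast Fintype.card_pos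
  induction k with
  | zero =>
    intro m
    refine ⟨0, le_rfl, fun δ hδ => ?_⟩
    have h1 : ∀ j : ℕ, ∃ H₀ : ℕ, 1 ≤ j → ∀ H : ℕ, H₀ ≤ H → Even H → ∀ A : K[X], A.Monic →
        H ≤ 2 * A.natDegree → ∀ S : Finset K[X], S.card = j → (∀ s ∈ S, s ∈ degreeLT K H) →
        |∑ x : degreeLT K H, ∏ s ∈ S, a (A ^ 2 + (x : K[X]) + s)| ≤
          δ * (Fintype.card K : ℝ) ^ H := by
      intro j
      by_cases hj : 1 ≤ j
      · obtain ⟨H₀, h⟩ := hc j hj δ hδ
        exact ⟨H₀, fun _ => h⟩
      · exact ⟨0, fun h => absurd h hj⟩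
    choose H₀ h2 using h1
    refine ⟨(Finset.range (m + 1)).sup H₀, fun H hH he A hA hd S hS hSm hSd => ?_⟩
    have h3 := h2 S.card hS.card_pos H
      ((Finset.le_sup (Finset.mem_range.2 (by omega))).trans hH) he A hA hd S rfl hSd
    have hH0 : (0 : ℝ) < (Fintype.card K : ℝ) ^ H := by positivity
    show |(∑ x : degreeLT K H, ∏ s ∈ S, a (A ^ 2 + (x : K[X]) + s)) /
      (Fintype.card K : ℝ) ^ H| ≤ _
    rw [abs_div, abs_of_pos hH0, div_le_iff₀ hH0, zero_div, zero_add]
    exact h3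
  | succ k ih =>
    intro m
    obtain ⟨C, hC0, hC⟩ := ih (2 * m)
    refine ⟨C + m * m, by positivity, fun δ hδ => ?_⟩
    obtain ⟨H₀, h0⟩ := hC δ hδ
    refine ⟨H₀, fun H hH he A hA hd S hS hSm hSd => ?_⟩
    have hH0 : (0 : ℝ) < (Fintype.card K : ℝ) ^ H := by positivity
    have hcl : ∀ y : degreeLT K H,
        |UR H k (fun x => (∏ s ∈ S, a (A ^ 2 + (x + (y : K[X])) + s)) *
          ∏ s ∈ S, a (A ^ 2 + x + s))| ≤
        C / (Fintype.card K : ℝ) ^ H + δ +
          (if Disjoint (S.map (addLeftEmbedding (y : K[X]))) S then 0 else 1) := by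
      intro y
      split_ifs with hdj
      · have h1 := h0 H hH he A hA hd ((S.map (addLeftEmbedding (y : K[X]))).disjUnion S hdj)
          (by
            obtain ⟨s, hs⟩ := hS
            exact ⟨s, Finset.mem_disjUnion.2 (Or.inr hs)⟩)
          (by
            rw [Finset.card_disjUnion, Finset.card_map]
            omega)
          (by
            intro s hs
            rcases Finset.mem_disjUnion.1 hs with h | h
            · rw [Finset.mem_map] at h
              obtain ⟨t, ht, rfl⟩ := h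
              exact (degreeLT K H).add_mem y.2 (hSd t ht)
            · exact hSd s h)
        simp only [Finset.prod_disjUnion, Finset.prod_map, addLeftEmbedding_apply] at h1
        rw [add_zero]
        simpa only [add_assoc] using h1
      · have h1 : |UR H k (fun x => (∏ s ∈ S, a (A ^ 2 + (x + (y : K[X])) + s)) *
            ∏ s ∈ S, a (A ^ 2 + x + s))| ≤ 1 := by
          refine UR_le H k fun x => ?_
          rw [abs_mul, Finset.abs_prod, Finset.abs_prod]
          exact mul_le_one₀ (Finset.prod_le_one (fun _ _ => abs_nonneg _) fun _ _ => ha _)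
            (Finset.prod_nonneg fun _ _ => abs_nonneg _)
            (Finset.prod_le_one (fun _ _ => abs_nonneg _) fun _ _ => ha _)
        have h2 : 0 ≤ C / (Fintype.card K : ℝ) ^ H := by positivity
        linarith
    show |(∑ y : degreeLT K H, UR H k (fun x => (∏ s ∈ S, a (A ^ 2 + (x + (y : K[X])) + s)) *
          ∏ s ∈ S, a (A ^ 2 + x + s))) / (Fintype.card K : ℝ) ^ H| ≤ _
    rw [abs_div, abs_of_pos hH0, div_le_iff₀ hH0]
    refine (Finset.abs_sum_le_sum_abs _ _).trans ?_
    refine (Finset.sum_le_sum fun y _ => hcl y).trans ?_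
    rw [Finset.sum_add_distrib, Finset.sum_const, Finset.card_univ, card_deg, nsmul_eq_mul]
    have hbad : ∑ y : degreeLT K H, (if Disjoint (S.map (addLeftEmbedding (y : K[X]))) S then
        (0 : ℝ) else 1) ≤ m * m := by
      have h2 : ∑ y : degreeLT K H, (if Disjoint (S.map (addLeftEmbedding (y : K[X]))) S then
          (0 : ℝ) else 1) = (((univ : Finset (degreeLT K H)).filter
            (fun y : degreeLT K H =>
              ¬ Disjoint (S.map (addLeftEmbedding (y : K[X]))) S)).card : ℝ) := by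
        rw [← Finset.sum_boole]
        exact Finset.sum_congr rfl fun y _ => by split_ifs <;> simp_all
      rw [h2]
      have h3 : ((univ : Finset (degreeLT K H)).filter
          (fun y : degreeLT K H => ¬ Disjoint (S.map (addLeftEmbedding (y : K[X]))) S)).card ≤
            (S ×ˢ S).card := by
        refine Finset.card_le_card_of_surjOn
          (fun p : K[X] × K[X] => if h : p.1 - p.2 ∈ degreeLT K H then
            (⟨p.1 - p.2, h⟩ : degreeLT K H) else 0) ?_
        intro y hy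
        rw [Finset.mem_coe, Finset.mem_filter, Finset.not_disjoint_iff] at hy
        obtain ⟨-, z, hz1, hz2⟩ := hy
        rw [Finset.mem_map] at hz1
        obtain ⟨s, hs, rfl⟩ := hz1
        rw [addLeftEmbedding_apply] at hz2
        refine ⟨((y : K[X]) + s, s), ?_, ?_⟩
        · rw [Finset.mem_coe, Finset.mem_product]
          exact ⟨hz2, hs⟩
        · have h5 : (y : K[X]) + s - s ∈ degreeLT K H := by
            rw [add_sub_cancel_right]
            exact y.2
          simp only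
          rw [dif_pos h5]
          exact Subtype.ext (add_sub_cancel_right _ _)
      rw [Finset.card_product] at h3
      have h4 : ((univ : Finset (degreeLT K H)).filter
          (fun y : degreeLT K H => ¬ Disjoint (S.map (addLeftEmbedding (y : K[X]))) S)).card ≤
            m * m :=
        h3.trans (Nat.mul_le_mul hSm hSm)
      exact_mod_cast h4
    push_cast
    have h6 : ((C + m * m) / (Fintype.card K : ℝ) ^ H + δ) * (Fintype.card K : ℝ) ^ H =
        C + m * m + δ * (Fintype.card K : ℝ) ^ H := by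
      field_simp
    have h7 : (Fintype.card K : ℝ) ^ H * (C / (Fintype.card K : ℝ) ^ H + δ) =
        C + δ * (Fintype.card K : ℝ) ^ H := by
      field_simp
    rw [h6, h7]
    linarith

/-- Uniformity in the windows of even length at the squares. -/
theorem unifE {a : K[X] → ℝ} (ha : ∀ f, |a f| ≤ 1) (hc : CorI a) (k : ℕ) {ε : ℝ} (hε : 0 < ε) :
    ∃ H₀ : ℕ, ∀ H : ℕ, H₀ ≤ H → Even H → ∀ A : K[X], A.Monic → H ≤ 2 * A.natDegree →
      ∀ P : K[X] → ℂ, IsPhase k P →
        ‖∑ x : degreeLT K H, (a (A ^ 2 + (x : K[X])) : ℂ) * P x‖ ≤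
          ε * (Fintype.card K : ℝ) ^ H := by
  have hq0 : (0 : ℝ) < Fintype.card K := by exact_mod_cast Fintype.card_pos
  have hq1 : (1 : ℝ) < Fintype.card K := by exact_mod_cast Fintype.one_lt_card
  obtain ⟨C, hC0, hC⟩ := urI ha hc (k + 1) 1
  obtain ⟨m, hm⟩ : ∃ m, m = 2 ^ (k + 1) := ⟨_, rfl⟩
  have hm0 : m ≠ 0 := by rw [hm]; positivity
  have hεm : 0 < ε ^ m := by positivity
  obtain ⟨H₁, hH₁⟩ := pow_unbounded_of_one_lt (2 * C / ε ^ m) hq1
  obtain ⟨H₂, hH₂⟩ := hC (ε ^ m / 2) (by positivity)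
  refine ⟨H₁ + H₂, fun H hH he A hA hd P hP => ?_⟩
  have hH0 : (0 : ℝ) < (Fintype.card K : ℝ) ^ H := by positivity
  have h1 := hH₂ H (by omega) he A hA hd {0} (Finset.singleton_nonempty _) (by simp) (by
    intro s hs
    rw [Finset.mem_singleton] at hs
    rw [hs]
    exact (degreeLT K H).zero_mem)
  simp only [Finset.prod_singleton, add_zero] at h1
  have h2 : C / (Fintype.card K : ℝ) ^ H ≤ ε ^ m / 2 := by
    have h3 : (Fintype.card K : ℝ) ^ H₁ ≤ (Fintype.card K : ℝ) ^ H :=
      pow_le_pow_right₀ hq1.le (by omega)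
    rw [div_lt_iff₀ hεm] at hH₁
    rw [div_le_iff₀ hH0]
    nlinarith
  have h3 : ‖av H (fun x => (a (A ^ 2 + x) : ℂ) * P x)‖ ^ m ≤ UR H (k + 1) (fun x => a (A ^ 2 + x)) := by
    rw [hm]
    refine (gcs H k _).trans (le_of_eq ?_)
    rw [UU_phase H (k + 1) _ _ hP.succ, UU_real, Complex.ofReal_re]
  have h4 : ‖av H (fun x => (a (A ^ 2 + x) : ℂ) * P x)‖ ^ m ≤ ε ^ m :=
    h3.trans ((le_abs_self _).trans (h1.trans (by linarith)))
  have h5 := (pow_le_pow_iff_left₀ (norm_nonneg _) hε.le hm0).1 h4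
  unfold av at h5
  rw [norm_div, norm_pow, Complex.norm_natCast, div_le_iff₀ hH0] at h5
  exact h5

theorem sum_oddC [CharP K 2] {n : ℕ} (hn : Even n) (A : K[X]) (T : K[X] → ℂ) :
    ∑ u : degreeLT K (n + 1), T (A ^ 2 + (u : K[X])) =
      ∑ γ : K, ∑ v : degreeLT K n, T ((A + C γ * X ^ (n / 2)) ^ 2 + (v : K[X])) := by
  apply Complex.ext
  · have h := sum_odd hn A (fun F => (T F).re)
    simpa only [Complex.re_sum] using h
  · have h := sum_odd hn A (fun F => (T F).im)
    simpa only [Complex.im_sum] using h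

/-- **Uniformity in all windows at the squares.** -/
theorem unifI [CharP K 2] {a : K[X] → ℝ} (ha : ∀ f, |a f| ≤ 1) (hc : CorI a) (k : ℕ) {ε : ℝ}
    (hε : 0 < ε) :
    ∃ H₀ : ℕ, ∀ H : ℕ, H₀ ≤ H → ∀ A : K[X], A.Monic → H ≤ 2 * A.natDegree →
      ∀ P : K[X] → ℂ, IsPhase k P →
        ‖∑ x : degreeLT K H, (a (A ^ 2 + (x : K[X])) : ℂ) * P x‖ ≤
          ε * (Fintype.card K : ℝ) ^ H := by
  obtain ⟨H₀, h0⟩ := unifE ha hc k hε
  refine ⟨H₀ + 1, fun H hH A hA hd P hP => ?_⟩
  rcases Nat.even_or_odd H with he | ho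
  · exact h0 H (by omega) he A hA hd P hP
  · obtain ⟨m, rfl⟩ := ho
    have he : Even (2 * m) := even_two_mul m
    have h1 := sum_oddC he A (fun F => (a F : ℂ) * P (F - A ^ 2))
    simp only [add_sub_cancel_left] at h1
    rw [h1]
    refine (norm_sum_le _ _).trans ?_
    calc _ ≤ ∑ _γ : K, ε * (Fintype.card K : ℝ) ^ (2 * m) := by
          refine Finset.sum_le_sum fun γ _ => ?_
          have h2 : 2 * m / 2 = m := by omega
          rw [h2]
          obtain ⟨h3, h4⟩ := monic_add (m := m) hA (by omega) γ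
          have h5 := h0 (2 * m) (by omega) he (A + C γ * X ^ m) h3 (by omega)
            (fun x => P ((C γ * X ^ m) ^ 2 + x)) (hP.shift _)
          refine le_trans (le_of_eq ?_) h5
          congr 1
          refine Finset.sum_congr rfl fun v _ => ?_
          congr 2
          rw [CharTwo.add_sq]
          ring
      _ = ε * (Fintype.card K : ℝ) ^ (2 * m + 1) := by
          rw [Finset.sum_const, Finset.card_univ, nsmul_eq_mul]
          ring

theorem nd_lt {H : ℕ} (hH : 0 < H) {s : K[X]} (hs : s ∈ degreeLT K H) : s.natDegree < H := by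
  rw [mem_degreeLT] at hs
  by_cases h : s = 0
  · rw [h, natDegree_zero]
    exact hH
  · rw [degree_eq_natDegree h] at hs
    exact_mod_cast hs

theorem corI_lio [CharP K 2] : CorI (fun f : K[X] => (lio f : ℝ)) := by
  intro k hk δ hδ
  have : Nonempty (Fin k) := ⟨⟨0, hk⟩⟩
  obtain ⟨H₀, h0⟩ := corS s_lioI K k δ hδ univ Finset.univ_nonempty
  refine ⟨H₀ + 1, fun H hH he A hA hd S hS hSd => ?_⟩
  subst hS
  have h1 := h0 H (by omega) A hA hd (fun i => ((S.equivFin.symm i : S) : K[X]))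
    (fun i j h => S.equivFin.symm.injective (Subtype.ext h)) (fun i => by
      have h2 := nd_lt (by omega : 0 < H) (hSd _ (S.equivFin.symm i).2)
      obtain ⟨r, hr⟩ := he
      omega)
  refine le_trans (le_of_eq ?_) h1
  congr 1
  refine Finset.sum_congr rfl fun x _ => ?_
  rw [← Finset.prod_coe_sort S, ← Equiv.prod_comp S.equivFin.symm]

theorem corI_mob [CharP K 2] : CorI (fun f : K[X] => (mob f : ℝ)) := by
  intro k hk δ hδ
  obtain ⟨H₀, h0⟩ := muH s_fullI K k hk δ hδ
  refine ⟨H₀ + 1, fun H hH he A hA hd S hS hSd => ?_⟩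
  subst hS
  have h1 := h0 H (by omega) A hA hd (fun i => ((S.equivFin.symm i : S) : K[X]))
    (fun i j h => S.equivFin.symm.injective (Subtype.ext h)) (fun i => by
      have h2 := nd_lt (by omega : 0 < H) (hSd _ (S.equivFin.symm i).2)
      obtain ⟨r, hr⟩ := he
      omega)
  rw [finsum_Iv] at h1
  refine le_trans (le_of_eq ?_) h1
  congr 1
  refine Finset.sum_congr rfl fun x _ => ?_
  rw [← Finset.prod_coe_sort S, ← Equiv.prod_comp S.equivFin.symm]

theorem abs_mob_le (f : K[X]) : |(mob f : ℝ)| ≤ 1 := by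
  have h := Pool.Agent.H985.Chow.Asm.abs_mob f
  exact_mod_cast h

theorem abs_lio_le (f : K[X]) : |(lio f : ℝ)| ≤ 1 := abs_lio f

end Pool.Agent.H542.NS.Unif
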